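import Mathlib

/-! Radial growth of `μ ∏ (z - a i) / ∏ (1 - b i z)`. -/

set_option autoImplicit false

open Polynomial Finset

namespace Pool.Agent.U1.HD

theorem sq_sub (z a : ℂ) (s : ℝ) : ‖(s : ℂ) * z - a‖ ^ 2 =
    s ^ 2 * ‖z‖ ^ 2 - 2 * s * (z * (starRingEnd ℂ) a).re + ‖a‖ ^ 2 := by
  have h := Complex.normSq_sub ((s : ℂ) * z) a
  rw [Complex.normSq_eq_norm_sq, Complex.normSq_eq_norm_sq, Complex.normSq_eq_norm_sq] at h
  rw [h, norm_mul, Complex.norm_real, mul_assoc, Complex.re_ofReal_mul, mul_pow,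
    Real.norm_eq_abs, sq_abs]
  ring

theorem abs_re_le (z a : ℂ) : -(‖z‖ * ‖a‖) ≤ (z * (starRingEnd ℂ) a).re := by
  have h := Complex.abs_re_le_norm (z * (starRingEnd ℂ) a)
  rw [norm_mul, Complex.norm_conj] at h
  exact (abs_le.1 h).1

theorem fac1 {a z : ℂ} {τ s : ℝ} (ha : ‖a‖ ≤ τ) (hz : τ ≤ ‖z‖) (hs : 1 ≤ s) :
    (s * ‖z‖ + τ) * ‖z - a‖ ≤ (‖z‖ + τ) * ‖(s : ℂ) * z - a‖ := by
  have hx0 : 0 ≤ ‖z‖ := norm_nonneg z
  have ha0 : 0 ≤ ‖a‖ := norm_nonneg a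
  have hτ0 : 0 ≤ τ := ha0.trans ha
  have h1 := sq_sub z a s
  have h2 := sq_sub z a 1
  have h3 := abs_re_le z a
  rw [Complex.ofReal_one, one_mul] at h2
  set p := (z * (starRingEnd ℂ) a).re with hp
  set x := ‖z‖ with hx
  set α := ‖a‖ with hα
  refine abs_le_of_sq_le_sq' ?_ (by positivity) |>.2
  rw [mul_pow, mul_pow, h1, h2]
  have key : (x + τ) ^ 2 * (s ^ 2 * x ^ 2 - 2 * s * p + α ^ 2) -
      (s * x + τ) ^ 2 * (1 ^ 2 * x ^ 2 - 2 * 1 * p + α ^ 2) =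
      2 * (s - 1) * (s * x ^ 2 - τ ^ 2) * (p + x * α) +
      (s - 1) * x * (τ - α) * ((x + τ) * (s * x + α) + (s * x + τ) * (x + α)) := by ring
  have k1 : 0 ≤ s * x ^ 2 - τ ^ 2 := by nlinarith
  have k2 : 0 ≤ p + x * α := by linarith
  have k3 : 0 ≤ s - 1 := by linarith
  have k4 : 0 ≤ τ - α := by linarith
  have k5 : 0 ≤ (x + τ) * (s * x + α) + (s * x + τ) * (x + α) := by positivity
  have k6 : 0 ≤ 2 * (s - 1) * (s * x ^ 2 - τ ^ 2) * (p + x * α) := by positivity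
  have k7 : 0 ≤ (s - 1) * x * (τ - α) * ((x + τ) * (s * x + α) + (s * x + τ) * (x + α)) := by
    positivity
  linarith

theorem fac2 {b z : ℂ} {τ s : ℝ} (hb : ‖b‖ ≤ τ) (hz : s * (τ * ‖z‖) ≤ 1) (hs : 1 ≤ s) :
    (1 + τ * ‖z‖) * ‖1 - b * ((s : ℂ) * z)‖ ≤ (1 + s * (τ * ‖z‖)) * ‖1 - b * z‖ := by
  have hx0 : 0 ≤ ‖z‖ := norm_nonneg z
  have hb0 : 0 ≤ ‖b‖ := norm_nonneg b
  have hτ0 : 0 ≤ τ := hb0.trans hb
  have hT0 : 0 ≤ τ * ‖z‖ := by positivity
  have h1 := sq_sub (b * z) 1 s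
  have h2 := sq_sub (b * z) 1 1
  have h3 := abs_re_le (b * z) 1
  rw [Complex.ofReal_one, one_mul] at h2
  have e1 : ‖1 - b * ((s : ℂ) * z)‖ = ‖(s : ℂ) * (b * z) - 1‖ := by
    rw [norm_sub_rev]; congr 1; ring
  have e2 : ‖1 - b * z‖ = ‖b * z - 1‖ := norm_sub_rev _ _
  rw [e1, e2]
  rw [norm_one] at h1 h2 h3
  have hρ : ‖b * z‖ ≤ τ * ‖z‖ := by rw [norm_mul]; gcongr
  have hρ0 : 0 ≤ ‖b * z‖ := norm_nonneg _
  set p := (b * z * (starRingEnd ℂ) 1).re with hp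
  set ρ := ‖b * z‖ with hρ'
  set T := τ * ‖z‖ with hT
  refine abs_le_of_sq_le_sq' ?_ (by positivity) |>.2
  rw [mul_pow, mul_pow, h1, h2]
  have key : (1 + s * T) ^ 2 * (1 ^ 2 * ρ ^ 2 - 2 * 1 * p + 1 ^ 2) -
      (1 + T) ^ 2 * (s ^ 2 * ρ ^ 2 - 2 * s * p + 1 ^ 2) =
      2 * (s - 1) * (1 - s * T * T) * (p + ρ) +
      (s - 1) * (T - ρ) * ((1 + s * T) * (1 + ρ) + (1 + T) * (1 + s * ρ)) := by ring
  have k0 : T ≤ 1 := by nlinarith
  have k1 : 0 ≤ 1 - s * T * T := by nlinarith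
  have k2 : 0 ≤ p + ρ := by linarith
  have k3 : 0 ≤ s - 1 := by linarith
  have k4 : 0 ≤ T - ρ := by linarith
  have k5 : 0 ≤ (1 + s * T) * (1 + ρ) + (1 + T) * (1 + s * ρ) := by positivity
  have k6 : 0 ≤ 2 * (s - 1) * (1 - s * T * T) * (p + ρ) := by positivity
  have k7 : 0 ≤ (s - 1) * (T - ρ) * ((1 + s * T) * (1 + ρ) + (1 + T) * (1 + s * ρ)) := by
    positivity
  linarith

/-- one factor -/
theorem fac {a b z : ℂ} {τ s : ℝ} (hτ : 0 < τ) (hτ1 : τ < 1) (ha : ‖a‖ ≤ τ) (hb : ‖b‖ ≤ τ)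
    (hz : τ ≤ ‖z‖) (hz' : s * (τ * ‖z‖) ≤ 1) (hs : 1 ≤ s) :
    (1 + (1 - τ ^ 2) / 4 * (s - 1)) * (‖z - a‖ * ‖1 - b * ((s : ℂ) * z)‖) ≤
      ‖(s : ℂ) * z - a‖ * ‖1 - b * z‖ := by
  have h1 := fac1 ha hz hs
  have h2 := fac2 hb hz' hs
  have hx0 : 0 < ‖z‖ := hτ.trans_le hz
  set x := ‖z‖ with hx
  set A := ‖z - a‖ with hA
  set B := ‖1 - b * ((s : ℂ) * z)‖ with hB
  set A' := ‖(s : ℂ) * z - a‖ with hA'
  set B' := ‖1 - b * z‖ with hB'
  have hA0 : 0 ≤ A := norm_nonneg _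
  have hB0 : 0 ≤ B := norm_nonneg _
  have hA'0 : 0 ≤ A' := norm_nonneg _
  have hB'0 : 0 ≤ B' := norm_nonneg _
  have h3 : (1 + (1 - τ ^ 2) / 4 * (s - 1)) * ((x + τ) * (1 + s * (τ * x))) ≤
      (s * x + τ) * (1 + τ * x) := by
    have e1 : (s * x + τ) * (1 + τ * x) - (x + τ) * (1 + s * (τ * x)) =
        (s - 1) * x * (1 - τ ^ 2) := by ring
    have h4 : (x + τ) * (1 + s * (τ * x)) ≤ 4 * x := by nlinarith
    have h5 : 0 ≤ (1 - τ ^ 2) / 4 * (s - 1) := by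
      have : 0 ≤ 1 - τ ^ 2 := by nlinarith
      have : 0 ≤ s - 1 := by linarith
      positivity
    have h6 := mul_le_mul_of_nonneg_left h4 h5
    nlinarith
  have hc : 0 < (x + τ) * (1 + s * (τ * x)) := by positivity
  have h7 : ((s * x + τ) * A) * ((1 + τ * x) * B) ≤
      ((x + τ) * A') * ((1 + s * (τ * x)) * B') := mul_le_mul h1 h2 (by positivity) (by positivity)
  have h8 := mul_le_mul_of_nonneg_right h3 (mul_nonneg hA0 hB0)
  have h9 : ((1 + (1 - τ ^ 2) / 4 * (s - 1)) * (A * B)) * ((x + τ) * (1 + s * (τ * x))) ≤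
      (A' * B') * ((x + τ) * (1 + s * (τ * x))) := by nlinarith
  exact le_of_mul_le_mul_right h9 hc

/-- the numerator -/
noncomputable def num {N : ℕ} (μ : ℂ) (a : Fin N → ℂ) : ℂ[X] := C μ * ∏ i, (X - C (a i))

/-- the denominator -/
noncomputable def den {N : ℕ} (b : Fin N → ℂ) : ℂ[X] := ∏ i, (1 - C (b i) * X)

theorem num_eval {N : ℕ} (μ : ℂ) (a : Fin N → ℂ) (z : ℂ) :
    (num μ a).eval z = μ * ∏ i, (z - a i) := by
  unfold num
  rw [eval_mul, eval_C, eval_prod]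
  simp

theorem den_eval {N : ℕ} (b : Fin N → ℂ) (z : ℂ) : (den b).eval z = ∏ i, (1 - b i * z) := by
  unfold den
  rw [eval_prod]
  simp

/-- radial growth -/
theorem growth {N : ℕ} {μ : ℂ} {a b : Fin N → ℂ} {τ s : ℝ} {z : ℂ} (hτ : 0 < τ) (hτ1 : τ < 1)
    (ha : ∀ i, ‖a i‖ ≤ τ) (hb : ∀ i, ‖b i‖ ≤ τ)
    (hz : τ ≤ ‖z‖) (hz' : s * (τ * ‖z‖) ≤ 1) (hs : 1 ≤ s) :
    (1 + (1 - τ ^ 2) / 4 * (s - 1)) ^ N *
      (‖(num μ a).eval z‖ * ‖(den b).eval ((s : ℂ) * z)‖) ≤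
      ‖(num μ a).eval ((s : ℂ) * z)‖ * ‖(den b).eval z‖ := by
  rw [num_eval, num_eval, den_eval, den_eval, norm_mul, norm_mul, norm_prod, norm_prod, norm_prod,
    norm_prod]
  have h0 : 0 ≤ 1 + (1 - τ ^ 2) / 4 * (s - 1) := by
    have : 0 ≤ 1 - τ ^ 2 := by nlinarith
    have : 0 ≤ s - 1 := by linarith
    positivity
  have h1 : ∏ i : Fin N, ((1 + (1 - τ ^ 2) / 4 * (s - 1)) *
      (‖z - a i‖ * ‖1 - b i * ((s : ℂ) * z)‖)) ≤
      ∏ i : Fin N, (‖(s : ℂ) * z - a i‖ * ‖1 - b i * z‖) := by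
    refine Finset.prod_le_prod (fun i _ => ?_) fun i _ => fac hτ hτ1 (ha i) (hb i) hz hz' hs
    exact mul_nonneg h0 (mul_nonneg (norm_nonneg _) (norm_nonneg _))
  rw [Finset.prod_mul_distrib, Finset.prod_mul_distrib, Finset.prod_mul_distrib,
    Finset.prod_const, Finset.card_univ, Fintype.card_fin] at h1
  have h2 := mul_le_mul_of_nonneg_left h1 (norm_nonneg μ)
  linarith

/-- the logarithmic derivative of a product of polynomials -/
theorem logd {ι : Type*} (s : Finset ι) (f : ι → ℂ[X]) (c : ℂ) (h : ∀ i ∈ s, (f i).eval c ≠ 0) :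
    (derivative (∏ i ∈ s, f i)).eval c = (∏ i ∈ s, f i).eval c *
      ∑ i ∈ s, (derivative (f i)).eval c / (f i).eval c := by
  classical
  induction s using Finset.induction_on with
  | empty => simp
  | insert i s hi ih =>
    rw [Finset.prod_insert hi, Finset.sum_insert hi, derivative_mul, eval_add, eval_mul, eval_mul,
      ih fun j hj => h j (Finset.mem_insert_of_mem hj), eval_mul]
    have := h i (Finset.mem_insert_self i s)
    field_simp

theorem half_lt {l : ℂ} (h : ‖l‖ < 1) : 1 / 2 < (1 / (1 - l)).re := by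
  have hne : 1 - l ≠ 0 := by
    intro h0
    have : l = 1 := by linear_combination -h0
    rw [this, norm_one] at h
    exact lt_irrefl _ h
  have hpos : 0 < Complex.normSq (1 - l) := Complex.normSq_pos.2 hne
  have h1 : Complex.normSq l < 1 := by
    rw [Complex.normSq_eq_norm_sq]
    nlinarith [norm_nonneg l]
  have h2 : (1 / (1 - l)).re = (1 - l).re / Complex.normSq (1 - l) := by
    rw [one_div, Complex.inv_re]
  rw [h2, lt_div_iff₀ hpos]
  rw [Complex.normSq_apply] at h1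
  rw [Complex.normSq_apply]
  simp only [Complex.sub_re, Complex.one_re, Complex.sub_im, Complex.one_im]
  nlinarith

/-- no critical points in the annulus -/
theorem noncrit {N : ℕ} (hN : 1 ≤ N) {μ : ℂ} (hμ : μ ≠ 0) {a b : Fin N → ℂ} {τ : ℝ}
    (ha : ∀ i, ‖a i‖ ≤ τ) (hb : ∀ i, ‖b i‖ ≤ τ) {c : ℂ} (hc : τ < ‖c‖)
    (hc' : τ * ‖c‖ < 1) : (num μ a).eval c ≠ 0 ∧ (den b).eval c ≠ 0 ∧
      (derivative (num μ a) * den b - num μ a * derivative (den b)).eval c ≠ 0 := by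
  have hN0 : Nonempty (Fin N) := ⟨⟨0, hN⟩⟩
  have hτ0 : 0 ≤ τ := (norm_nonneg _).trans (ha ⟨0, hN⟩)
  have hc0 : 0 < ‖c‖ := hτ0.trans_lt hc
  have hcne : c ≠ 0 := norm_pos_iff.1 hc0
  have h1 : ∀ i, c - a i ≠ 0 := by
    intro i h
    have h2 : c = a i := sub_eq_zero.1 h
    have := ha i
    rw [← h2] at this
    linarith
  have hbc : ∀ i, ‖b i * c‖ < 1 := by
    intro i
    rw [norm_mul]
    have := mul_le_mul_of_nonneg_right (hb i) hc0.le
    linarith
  have h2 : ∀ i, 1 - b i * c ≠ 0 := by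
    intro i h
    have h3 : b i * c = 1 := (sub_eq_zero.1 h).symm
    have := hbc i
    rw [h3, norm_one] at this
    exact lt_irrefl _ this
  have hn : (num μ a).eval c ≠ 0 := by
    rw [num_eval]
    exact mul_ne_zero hμ (Finset.prod_ne_zero_iff.2 fun i _ => h1 i)
  have hd : (den b).eval c ≠ 0 := by
    rw [den_eval]
    exact Finset.prod_ne_zero_iff.2 fun i _ => h2 i
  refine ⟨hn, hd, ?_⟩
  have e1 : (derivative (num μ a)).eval c = (num μ a).eval c * ∑ i, 1 / (c - a i) := by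
    unfold num
    rw [derivative_mul, derivative_C, zero_mul, zero_add, eval_mul, eval_mul,
      logd Finset.univ (fun i => X - C (a i)) c (fun i _ => by simpa using h1 i), mul_assoc]
    have e0 : ∑ i : Fin N, (derivative (X - C (a i))).eval c / (X - C (a i)).eval c =
        ∑ i : Fin N, 1 / (c - a i) := Finset.sum_congr rfl fun i _ => by simp
    rw [e0]
  have e2 : (derivative (den b)).eval c = (den b).eval c * ∑ i, -b i / (1 - b i * c) := by
    unfold den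
    rw [logd Finset.univ (fun i => 1 - C (b i) * X) c (fun i _ => by simpa using h2 i)]
    congr 1
    refine Finset.sum_congr rfl fun i _ => ?_
    simp
  rw [eval_sub, eval_mul, eval_mul, e1, e2]
  have e3 : (num μ a).eval c * (∑ i, 1 / (c - a i)) * (den b).eval c -
      (num μ a).eval c * ((den b).eval c * ∑ i, -b i / (1 - b i * c)) =
      (num μ a).eval c * (den b).eval c * ∑ i, (1 / (c - a i) + b i / (1 - b i * c)) := by
    rw [Finset.sum_add_distrib]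
    have : ∑ i : Fin N, -b i / (1 - b i * c) = -∑ i : Fin N, b i / (1 - b i * c) := by
      rw [← Finset.sum_neg_distrib]
      refine Finset.sum_congr rfl fun i _ => ?_
      ring
    rw [this]
    ring
  rw [e3]
  refine mul_ne_zero (mul_ne_zero hn hd) ?_
  intro h0
  have h3 : c * ∑ i, (1 / (c - a i) + b i / (1 - b i * c)) = 0 := by rw [h0, mul_zero]
  rw [Finset.mul_sum] at h3
  have h4 : 0 < (∑ i : Fin N, c * (1 / (c - a i) + b i / (1 - b i * c))).re := by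
    rw [Complex.re_sum]
    refine Finset.sum_pos (fun i _ => ?_) Finset.univ_nonempty
    have e4 : c * (1 / (c - a i) + b i / (1 - b i * c)) =
        1 / (1 - a i / c) + 1 / (1 - b i * c) - 1 := by
      have h7 : 1 - a i / c = (c - a i) / c := by field_simp
      have h8 : c * (b i / (1 - b i * c)) = 1 / (1 - b i * c) - 1 := by
        rw [eq_sub_iff_add_eq, ← mul_div_assoc]
        have h9 := h2 i
        have h10 : (1 : ℂ) = (1 - b i * c) / (1 - b i * c) := (div_self h9).symm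
        calc c * b i / (1 - b i * c) + 1 =
            c * b i / (1 - b i * c) + (1 - b i * c) / (1 - b i * c) := by rw [div_self h9]
          _ = (c * b i + (1 - b i * c)) / (1 - b i * c) := by rw [add_div]
          _ = 1 / (1 - b i * c) := by congr 1; ring
      rw [h7, one_div_div, mul_add, h8]
      ring
    rw [e4, Complex.sub_re, Complex.add_re, Complex.one_re]
    have h5 := half_lt (l := a i / c) (by
      rw [norm_div, div_lt_one hc0]
      exact (ha i).trans_lt hc)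
    have h6 := half_lt (hbc i)
    linarith
  rw [h3] at h4
  simp at h4

end Pool.Agent.U1.HD
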