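import Mathlib
import Pool.Agent.U1.HD.Fac

/-! The zone where `|P / Q|` is neither small nor large. -/

set_option autoImplicit false

open Polynomial Finset MeasureTheory Metric
open scoped Pointwise

namespace Pool.Agent.U1.HD

/-- the points where `P / Q` has modulus between `N ^ (-4)` and `N ^ 4` -/
def Zone {N : ℕ} (μ : ℂ) (a b : Fin N → ℂ) : Set ℂ :=
  {z | ‖(den b).eval z‖ < (N : ℝ) ^ 4 * ‖(num μ a).eval z‖ ∧
    ‖(num μ a).eval z‖ < (N : ℝ) ^ 4 * ‖(den b).eval z‖}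

/-- zeros in `|z| ≤ σ`, poles in `|z| ≥ 1 / σ`, `|P / Q| ≤ N ^ (-4)` for `|z| ≤ τ` and
`|P / Q| ≥ N ^ 4` for `|z| ≥ 1 / τ` -/
structure Sep (σ τ : ℝ) {N : ℕ} (μ : ℂ) (a b : Fin N → ℂ) : Prop where
  zeros : ∀ i, ‖a i‖ ≤ σ
  poles : ∀ i, ‖b i‖ ≤ σ
  small : ∀ z : ℂ, ‖z‖ ≤ τ → (N : ℝ) ^ 4 * ‖(num μ a).eval z‖ ≤ ‖(den b).eval z‖
  large : ∀ z : ℂ, τ⁻¹ ≤ ‖z‖ → (N : ℝ) ^ 4 * ‖(den b).eval z‖ ≤ ‖(num μ a).eval z‖

variable {σ τ : ℝ} {N : ℕ} {μ : ℂ} {a b : Fin N → ℂ}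

theorem zone_open : IsOpen (Zone μ a b) := by
  have h1 : IsOpen {z : ℂ | ‖(den b).eval z‖ < (N : ℝ) ^ 4 * ‖(num μ a).eval z‖} :=
    isOpen_lt (den b).continuous.norm (continuous_const.mul (num μ a).continuous.norm)
  have h2 : IsOpen {z : ℂ | ‖(num μ a).eval z‖ < (N : ℝ) ^ 4 * ‖(den b).eval z‖} :=
    isOpen_lt (num μ a).continuous.norm (continuous_const.mul (den b).continuous.norm)
  exact h1.inter h2

theorem zone_sub (h : Sep σ τ μ a b) {z : ℂ} (hz : z ∈ Zone μ a b) : τ < ‖z‖ ∧ ‖z‖ < τ⁻¹ := by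
  constructor
  · by_contra hc
    exact absurd hz.1 (not_lt.2 (h.small z (not_lt.1 hc)))
  · by_contra hc
    exact absurd hz.2 (not_lt.2 (h.large z (not_lt.1 hc)))

theorem exp_le {x : ℝ} (hx0 : 0 ≤ x) (hx : x ≤ 1 / 2) : Real.exp x ≤ 1 + 2 * x := by
  have h1 : 1 - x ≤ Real.exp (-x) := by
    have := Real.add_one_le_exp (-x)
    linarith
  have h2 : 0 < 1 - x := by linarith
  rw [Real.exp_neg] at h1
  have h3 : Real.exp x ≤ (1 - x)⁻¹ := by
    rw [le_inv_comm₀ (Real.exp_pos x) h2]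
    exact h1
  refine h3.trans ?_
  rw [inv_le_iff_one_le_mul₀ h2]
  nlinarith

/-- the rate -/
noncomputable def rt (σ : ℝ) (N : ℕ) : ℝ := 64 / (1 - σ ^ 2) * (Real.log N / N)

theorem pow_big {m : ℝ} (hm : 0 < m) {s : ℝ} (hN : 1 ≤ N) (hl : 16 * Real.log N ≤ N)
    (hs : 16 / m * (Real.log N / N) ≤ s) : (N : ℝ) ^ 8 ≤ (1 + m * s) ^ N := by
  have hN0 : (0 : ℝ) < N := by exact_mod_cast hN
  have hlog : 0 ≤ Real.log N := Real.log_nonneg (by exact_mod_cast hN)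
  set y : ℝ := 16 * Real.log N / N with hy
  have hy0 : 0 ≤ y := by positivity
  have hy1 : y ≤ 1 := by rw [hy, div_le_one hN0]; exact hl
  have h1 : y ≤ m * s := by
    have h2 := mul_le_mul_of_nonneg_left hs hm.le
    have e1 : m * (16 / m * (Real.log N / N)) = y := by rw [hy]; field_simp
    linarith
  have h2 : Real.exp (y / 2) ≤ 1 + y := by
    have := exp_le (x := y / 2) (by positivity) (by linarith)
    linarith
  calc (N : ℝ) ^ 8 = Real.exp (Real.log N * 8) := by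
        rw [show Real.log N * 8 = ((8 : ℕ) : ℝ) * Real.log N by push_cast; ring,
          Real.exp_nat_mul, Real.exp_log hN0]
    _ = Real.exp (y / 2) ^ N := by
        rw [← Real.exp_nat_mul]
        congr 1
        rw [hy]
        field_simp
        ring
    _ ≤ (1 + y) ^ N := by gcongr
    _ ≤ (1 + m * s) ^ N := by gcongr

/-- two points of the zone on one ray are close to each other -/
theorem zone_ray (hσ : 0 < σ) (hστ : σ < τ) (hτ1 : τ < 1) (hN : 1 ≤ N)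
    (hl : 16 * Real.log N ≤ N) (h : Sep σ τ μ a b) {z : ℂ} {s : ℝ} (hs : 1 ≤ s)
    (hz : z ∈ Zone μ a b) (hz' : (s : ℂ) * z ∈ Zone μ a b) : s < 1 + rt σ N := by
  have hτ0 : 0 < τ := hσ.trans hστ
  have hσ1 : σ < 1 := hστ.trans hτ1
  obtain ⟨h1, -⟩ := zone_sub h hz
  obtain ⟨-, h2⟩ := zone_sub h hz'
  rw [norm_mul, Complex.norm_real, Real.norm_eq_abs, abs_of_pos (by linarith)] at h2
  have h3 : s * (σ * ‖z‖) ≤ 1 := by
    have h4 : s * ‖z‖ * τ < 1 := by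
      have := mul_lt_mul_of_pos_right h2 hτ0
      rwa [inv_mul_cancel₀ hτ0.ne'] at this
    have h5 : 0 ≤ s * ‖z‖ := by positivity
    nlinarith
  have h4 := growth (μ := μ) (a := a) (b := b) hσ hσ1 h.zeros h.poles (hστ.le.trans h1.le) h3 hs
  by_contra hcon
  push Not at hcon
  have hm : 0 < (1 - σ ^ 2) / 4 := by
    have : σ ^ 2 < 1 := by nlinarith
    linarith
  have h5 : (N : ℝ) ^ 8 ≤ (1 + (1 - σ ^ 2) / 4 * (s - 1)) ^ N := by
    refine pow_big hm hN hl ?_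
    have e1 : 16 / ((1 - σ ^ 2) / 4) = 64 / (1 - σ ^ 2) := by
      rw [div_div_eq_mul_div]; norm_num
    rw [e1]
    unfold rt at hcon
    linarith
  set p := ‖(num μ a).eval z‖ with hp
  set q := ‖(den b).eval z‖ with hq
  set p' := ‖(num μ a).eval ((s : ℂ) * z)‖ with hp'
  set q' := ‖(den b).eval ((s : ℂ) * z)‖ with hq'
  have a1 : q < (N : ℝ) ^ 4 * p := hz.1
  have a2 : p' < (N : ℝ) ^ 4 * q' := hz'.2
  have hp0 : 0 ≤ p := norm_nonneg _
  have hq0 : 0 ≤ q := norm_nonneg _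
  have hp'0 : 0 ≤ p' := norm_nonneg _
  have hq'0 : 0 ≤ q' := norm_nonneg _
  have a3 : p' * q < ((N : ℝ) ^ 4 * q') * ((N : ℝ) ^ 4 * p) := by
    have hq'1 : 0 < (N : ℝ) ^ 4 * q' := hp'0.trans_lt a2
    have h6 : p' * q ≤ ((N : ℝ) ^ 4 * q') * q := by gcongr
    have h7 : ((N : ℝ) ^ 4 * q') * q < ((N : ℝ) ^ 4 * q') * ((N : ℝ) ^ 4 * p) :=
      mul_lt_mul_of_pos_left a1 hq'1
    exact h6.trans_lt h7
  have a4 : (N : ℝ) ^ 8 * (p * q') ≤ (1 + (1 - σ ^ 2) / 4 * (s - 1)) ^ N * (p * q') := by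
    gcongr
  have a5 : ((N : ℝ) ^ 4 * q') * ((N : ℝ) ^ 4 * p) = (N : ℝ) ^ 8 * (p * q') := by ring
  linarith

/-- the area of the zone -/
theorem zone_area (hσ : 0 < σ) (hστ : σ < τ) (hτ1 : τ < 1) (hN : 2 ≤ N)
    (hl : 16 * Real.log N ≤ N) (hr : rt σ N ≤ 1) (h : Sep σ τ μ a b) :
    volume (Zone μ a b) ≤ ENNReal.ofReal (18 * Real.pi * (τ⁻¹) ^ 2 * rt σ N) := by
  have hτ0 : 0 < τ := hσ.trans hστ
  have hN0 : (0 : ℝ) < N := by
    have : 0 < N := by omega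
    exact_mod_cast this
  have hlog : 0 < Real.log N := Real.log_pos (by exact_mod_cast hN)
  have hm : 0 < 1 - σ ^ 2 := by nlinarith
  have hrt : 0 < rt σ N := by unfold rt; positivity
  set δ := rt σ N with hδ
  set J : ℕ := ⌊δ⁻¹⌋₊ with hJ
  have hδi : 1 ≤ δ⁻¹ := (one_le_inv₀ hrt).2 hr
  have hJ1 : 1 ≤ J := Nat.le_floor (by simpa using hδi)
  have hJle : (J : ℝ) ≤ δ⁻¹ := Nat.floor_le (by positivity)
  have hJge : δ⁻¹ ≤ 2 * J := by
    have h1 := Nat.lt_floor_add_one δ⁻¹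
    have h2 : (1 : ℝ) ≤ J := by exact_mod_cast hJ1
    rw [← hJ] at h1
    linarith
  have hc1 : 1 ≤ 1 + δ := by linarith
  have hcJ : (1 + δ) ^ J ≤ 3 := by
    calc (1 + δ) ^ J ≤ Real.exp δ ^ J := by
          have := Real.add_one_le_exp δ
          gcongr
          linarith
      _ = Real.exp (J * δ) := by rw [← Real.exp_nat_mul]
      _ ≤ Real.exp 1 := by
          refine Real.exp_le_exp.2 ?_
          have := mul_le_mul_of_nonneg_right hJle hrt.le
          rwa [inv_mul_cancel₀ hrt.ne'] at this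
      _ ≤ 3 := by have := Real.exp_one_lt_d9; linarith
  have hmeas : MeasurableSet (Zone μ a b) := zone_open.measurableSet
  have hdis : Set.PairwiseDisjoint (↑(Finset.range J) : Set ℕ)
      fun j : ℕ => ((1 + δ) ^ j) • Zone μ a b := by
    have key : ∀ i j : ℕ, i < j → Disjoint (((1 + δ) ^ i) • Zone μ a b)
        (((1 + δ) ^ j) • Zone μ a b) := by
      intro i j hij
      rw [Set.disjoint_left]
      rintro _ ⟨x, hx, rfl⟩ ⟨y, hy, hxy⟩
      obtain ⟨k, rfl⟩ : ∃ k, j = i + (k + 1) := ⟨j - i - 1, by omega⟩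
      simp only [Complex.real_smul] at hxy
      have hci : (((1 + δ) ^ i : ℝ) : ℂ) ≠ 0 := by
        rw [Complex.ofReal_ne_zero]; positivity
      have e1 : x = (((1 + δ) ^ (k + 1) : ℝ) : ℂ) * y := by
        apply mul_left_cancel₀ hci
        rw [← hxy, ← mul_assoc, ← Complex.ofReal_mul, ← pow_add]
      have h5 : 1 + δ ≤ (1 + δ) ^ (k + 1) := by
        calc 1 + δ = (1 + δ) ^ 1 := (pow_one _).symm
          _ ≤ (1 + δ) ^ (k + 1) := pow_le_pow_right₀ hc1 (by omega)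
      have h6 := zone_ray hσ hστ hτ1 (by omega : 1 ≤ N) hl h (z := y) (s := (1 + δ) ^ (k + 1))
        (hc1.trans h5) hy (by rw [← e1]; exact hx)
      linarith
    intro i _ j _ hij
    rcases lt_or_gt_of_ne hij with h1 | h1
    · exact key i j h1
    · exact (key j i h1).symm
  have hsub : (⋃ j ∈ Finset.range J, ((1 + δ) ^ j) • Zone μ a b) ⊆ ball (0 : ℂ) (3 * τ⁻¹) := by
    intro y hy
    simp only [Set.mem_iUnion] at hy
    obtain ⟨j, hj, x, hx, rfl⟩ := hy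
    have h1 := (zone_sub h hx).2
    rw [mem_ball_zero_iff]
    simp only
    rw [norm_smul, Real.norm_eq_abs, abs_of_pos (by positivity)]
    have h2 : (1 + δ) ^ j ≤ 3 :=
      (pow_le_pow_right₀ hc1 (Finset.mem_range.1 hj).le).trans hcJ
    have h3 : 0 ≤ ‖x‖ := norm_nonneg x
    have h4 : 0 < (1 + δ) ^ j := by positivity
    calc (1 + δ) ^ j * ‖x‖ < (1 + δ) ^ j * τ⁻¹ := mul_lt_mul_of_pos_left h1 h4
      _ ≤ 3 * τ⁻¹ := by gcongr
  have hvol : ∀ j : ℕ, volume (Zone μ a b) ≤ volume (((1 + δ) ^ j) • Zone μ a b) := by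
    intro j
    rw [Measure.addHaar_smul]
    have h1 : (1 : ENNReal) ≤ ENNReal.ofReal |((1 + δ) ^ j) ^ Module.finrank ℝ ℂ| := by
      rw [← ENNReal.ofReal_one]
      refine ENNReal.ofReal_le_ofReal ?_
      rw [abs_of_pos (by positivity)]
      exact one_le_pow₀ (one_le_pow₀ hc1)
    calc volume (Zone μ a b) = 1 * volume (Zone μ a b) := (one_mul _).symm
      _ ≤ _ := by gcongr
  have hsum : (J : ENNReal) * volume (Zone μ a b) ≤ volume (ball (0 : ℂ) (3 * τ⁻¹)) := by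
    calc (J : ENNReal) * volume (Zone μ a b) =
        ∑ _j ∈ Finset.range J, volume (Zone μ a b) := by
          rw [Finset.sum_const, Finset.card_range, nsmul_eq_mul]
      _ ≤ ∑ j ∈ Finset.range J, volume (((1 + δ) ^ j) • Zone μ a b) :=
          Finset.sum_le_sum fun j _ => hvol j
      _ = volume (⋃ j ∈ Finset.range J, ((1 + δ) ^ j) • Zone μ a b) := by
          rw [measure_biUnion_finset hdis]
          intro j _
          exact hmeas.const_smul_of_ne_zero (by positivity)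
      _ ≤ _ := measure_mono hsub
  rw [Complex.volume_ball] at hsum
  have hJ0 : (J : ENNReal) ≠ 0 := by
    rw [Nat.cast_ne_zero]; omega
  have h7 : volume (Zone μ a b) ≤ (ENNReal.ofReal (3 * τ⁻¹) ^ 2 * NNReal.pi) / J := by
    rw [ENNReal.le_div_iff_mul_le (Or.inl hJ0) (Or.inl (ENNReal.natCast_ne_top J)), mul_comm]
    exact hsum
  refine h7.trans ?_
  have e1 : (ENNReal.ofReal (3 * τ⁻¹) ^ 2 * (NNReal.pi : ENNReal)) =
      ENNReal.ofReal ((3 * τ⁻¹) ^ 2 * Real.pi) := by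
    have e0 : (NNReal.pi : ENNReal) = ENNReal.ofReal Real.pi := by
      rw [← NNReal.coe_real_pi, ENNReal.ofReal_coe_nnreal]
    rw [e0, ← ENNReal.ofReal_pow (by positivity), ← ENNReal.ofReal_mul (by positivity)]
  rw [e1]
  have e2 : (J : ENNReal) = ENNReal.ofReal J := (ENNReal.ofReal_natCast J).symm
  have hJp : (0 : ℝ) < J := by exact_mod_cast hJ1
  rw [e2, ← ENNReal.ofReal_div_of_pos hJp]
  refine ENNReal.ofReal_le_ofReal ?_
  rw [div_le_iff₀ hJp]
  have h8 : 1 ≤ 2 * J * δ := by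
    have := mul_le_mul_of_nonneg_right hJge hrt.le
    rwa [inv_mul_cancel₀ hrt.ne'] at this
  have h9 : 0 ≤ Real.pi * (τ⁻¹) ^ 2 := by positivity
  nlinarith

end Pool.Agent.U1.HD
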