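import Mathlib
import Pool.Agent.U1.HD.Zone
import Pool.Agent.U1.HD.Sph

/-! Maps with both marked points off the zone are hyperbolic. -/

set_option autoImplicit false

open Polynomial Finset Metric Filter Topology

namespace Pool.Agent.U1.HD

variable {σ τ : ℝ} {N : ℕ} {μ : ℂ} {a b : Fin N → ℂ}

theorem num_natDegree (hμ : μ ≠ 0) : (num μ a).natDegree = N := by
  unfold num
  rw [natDegree_C_mul hμ, natDegree_prod_of_monic _ _ fun i _ => monic_X_sub_C (a i)]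
  simp

theorem den_natDegree_le : (den b).natDegree ≤ N := by
  unfold den
  refine (natDegree_prod_le _ _).trans ?_
  calc ∑ i : Fin N, (1 - C (b i) * X : ℂ[X]).natDegree ≤ ∑ _i : Fin N, 1 := by
        refine Finset.sum_le_sum fun i _ => ?_
        refine (natDegree_sub_le _ _).trans (max_le (by simp) ?_)
        exact (natDegree_C_mul_le _ _).trans natDegree_X_le
    _ = N := by simp

theorem num_coeff : (num μ a).coeff N = μ := by
  unfold num
  rw [coeff_C_mul]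
  have h1 : (∏ i, (X - C (a i)) : ℂ[X]).Monic := monic_prod_of_monic _ _ fun i _ => monic_X_sub_C _
  have h2 : (∏ i, (X - C (a i)) : ℂ[X]).natDegree = N := by
    rw [natDegree_prod_of_monic _ _ fun i _ => monic_X_sub_C (a i)]
    simp
  have h3 := h1.coeff_natDegree
  rw [h2] at h3
  rw [h3, mul_one]

/-- the value of a polynomial of degree at most `d` along the integers, divided by the `d`-th power -/
theorem tendsto_coeff {P : ℂ[X]} {d : ℕ} (hP : P.natDegree ≤ d) :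
    Tendsto (fun n : ℕ => P.eval ((n : ℂ) + 1) / ((n : ℂ) + 1) ^ d) atTop (𝓝 (P.coeff d)) := by
  have h0 : Tendsto (fun n : ℕ => (((n : ℂ) + 1))⁻¹) atTop (𝓝 0) := by
    have h1 : Tendsto (fun n : ℕ => ((1 / ((n : ℝ) + 1) : ℝ) : ℂ)) atTop (𝓝 ((0 : ℝ) : ℂ)) :=
      (Complex.continuous_ofReal.tendsto 0).comp tendsto_one_div_add_atTop_nhds_zero_nat
    refine (h1.congr fun n => ?_).trans (by simp)
    push_cast
    rw [one_div]
  have h1 : ∀ n : ℕ, P.eval ((n : ℂ) + 1) / ((n : ℂ) + 1) ^ d =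
      ∑ i ∈ Finset.range (d + 1), P.coeff i * ((((n : ℂ) + 1))⁻¹) ^ (d - i) := by
    intro n
    have hn : (n : ℂ) + 1 ≠ 0 := Nat.cast_add_one_ne_zero n
    rw [eval_eq_sum_range' (Nat.lt_succ_of_le hP), Finset.sum_div]
    refine Finset.sum_congr rfl fun i hi => ?_
    have hi' : i ≤ d := Nat.lt_succ_iff.1 (Finset.mem_range.1 hi)
    rw [inv_pow, mul_div_assoc]
    congr 1
    rw [eq_comm, inv_eq_one_div, div_eq_div_iff (pow_ne_zero _ hn) (pow_ne_zero _ hn), one_mul,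
      ← pow_add, Nat.add_sub_cancel' hi']
  simp_rw [h1]
  have h2 : P.coeff d = ∑ i ∈ Finset.range (d + 1), P.coeff i * (0 : ℂ) ^ (d - i) := by
    rw [Finset.sum_eq_single_of_mem d (Finset.self_mem_range_succ d)]
    · simp
    · intro i hi hid
      have hi' : i < d := lt_of_le_of_ne (Nat.lt_succ_iff.1 (Finset.mem_range.1 hi)) hid
      rw [zero_pow (by omega), mul_zero]
  rw [h2]
  exact tendsto_finsetSum _ fun i _ => (h0.pow _).const_mul _

theorem coeff_inf (hτ0 : 0 < τ) (h : Sep σ τ μ a b) (hμ : μ ≠ 0) :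
    (N : ℝ) ^ 4 * ‖(den b).coeff N‖ ≤ ‖(num μ a).coeff N‖ := by
  have h1 := (tendsto_coeff (P := den b) (d := N) den_natDegree_le).norm.const_mul ((N : ℝ) ^ 4)
  have h2 := (tendsto_coeff (P := num μ a) (d := N) (num_natDegree hμ).le).norm
  refine le_of_tendsto_of_tendsto h1 h2 ?_
  obtain ⟨n₀, hn₀⟩ := exists_nat_ge τ⁻¹
  filter_upwards [eventually_ge_atTop n₀] with n hn
  have hn1 : ‖(n : ℂ) + 1‖ = (n : ℝ) + 1 := by
    rw [show (n : ℂ) + 1 = (((n : ℝ) + 1 : ℝ) : ℂ) by push_cast; ring, Complex.norm_real,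
      Real.norm_eq_abs, abs_of_pos (by positivity)]
  have h3 := h.large ((n : ℂ) + 1) (by
    rw [hn1]
    have : (n₀ : ℝ) ≤ n := by exact_mod_cast hn
    linarith)
  rw [norm_div, norm_div, norm_pow, hn1, ← mul_div_assoc]
  gcongr

theorem coprime_of (hσ0 : 0 ≤ σ) (hσ : σ < 1) (ha : ∀ i, ‖a i‖ ≤ σ) (hb : ∀ i, ‖b i‖ ≤ σ)
    (hμ : μ ≠ 0) : IsCoprime (num μ a) (den b) := by
  rw [isCoprime_iff_aeval_ne_zero_of_isAlgClosed ℂ ℂ]
  intro z
  rw [coe_aeval_eq_eval]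
  by_contra hcon
  push Not at hcon
  obtain ⟨h1, h2⟩ := hcon
  rw [num_eval] at h1
  rw [den_eval] at h2
  obtain ⟨i, -, hi⟩ := Finset.prod_eq_zero_iff.1 ((mul_eq_zero.1 h1).resolve_left hμ)
  obtain ⟨j, -, hj⟩ := Finset.prod_eq_zero_iff.1 h2
  have hz : z = a i := sub_eq_zero.1 hi
  have h3 : b j * z = 1 := (sub_eq_zero.1 hj).symm
  have h4 : ‖b j * z‖ ≤ σ * σ := by
    rw [norm_mul, hz]
    exact mul_le_mul (hb j) (ha i) (norm_nonneg _) hσ0
  rw [h3, norm_one] at h4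
  nlinarith

/-- powers -/
theorem pow_two_le {t : ℝ} (ht0 : 0 ≤ t) {N : ℕ} (hN : N * t ≤ 1 / 4) (ht : t ≤ 1) :
    (1 + t) ^ N ≤ 2 * (1 - t) ^ N := by
  have h1 : 3 / 4 ≤ (1 - t) ^ N := by
    have h2 := one_add_mul_le_pow (a := -t) (by linarith) N
    rw [← sub_eq_add_neg] at h2
    linarith
  have h3 : (1 + t) ^ N * (1 - t) ^ N ≤ 1 := by
    rw [← mul_pow]
    refine pow_le_one₀ ?_ ?_
    · nlinarith
    · nlinarith
  have h4 : 0 ≤ (1 + t) ^ N := by positivity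
  nlinarith

/-- comparison of a product of factors at two close points -/
theorem prod_comp {ι : Type*} (s : Finset ι) {f g : ι → ℝ} {t : ℝ} (hf : ∀ i, 0 ≤ f i)
    (h : ∀ i, g i ≤ (1 + t) * f i) (hg : ∀ i, 0 ≤ g i) :
    ∏ i ∈ s, g i ≤ (1 + t) ^ s.card * ∏ i ∈ s, f i := by
  calc ∏ i ∈ s, g i ≤ ∏ i ∈ s, ((1 + t) * f i) := Finset.prod_le_prod (fun i _ => hg i) fun i _ => h i
    _ = _ := by rw [Finset.prod_mul_distrib, Finset.prod_const]

theorem prod_comp' {ι : Type*} (s : Finset ι) {f g : ι → ℝ} {t : ℝ} (ht : t ≤ 1)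
    (hf : ∀ i, 0 ≤ f i) (h : ∀ i, (1 - t) * f i ≤ g i) :
    (1 - t) ^ s.card * ∏ i ∈ s, f i ≤ ∏ i ∈ s, g i := by
  calc (1 - t) ^ s.card * ∏ i ∈ s, f i = ∏ i ∈ s, ((1 - t) * f i) := by
        rw [Finset.prod_mul_distrib, Finset.prod_const]
    _ ≤ _ := Finset.prod_le_prod (fun i _ => mul_nonneg (by linarith) (hf i)) fun i _ => h i

/-- near a point off the zone the quotient is small or large -/
theorem spread (hσ : 0 < σ) (hστ : σ < τ) (hτ1 : τ < 1) (h : Sep σ τ μ a b) {r : ℝ} (hr : 0 < r)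
    (hrε : r ≤ (τ - σ) / 2) (hNr : N * (r / ((τ - σ) / 2)) ≤ 1 / 4) {v : ℂ}
    (hv : v ∉ Zone μ a b) : ∀ z ∈ ball v r,
      (N : ℝ) ^ 4 * ‖(num μ a).eval z‖ ≤ 2 * ‖(den b).eval z‖ ∨
      (N : ℝ) ^ 4 * ‖(den b).eval z‖ ≤ 2 * ‖(num μ a).eval z‖ := by
  intro z hz
  have hτ0 : 0 < τ := hσ.trans hστ
  set ε : ℝ := (τ - σ) / 2 with hε
  have hε0 : 0 < ε := by rw [hε]; linarith
  have eστ : σ + 2 * ε = τ := by rw [hε]; ring
  rw [mem_ball, dist_eq_norm] at hz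
  rcases le_or_gt ‖z‖ τ with h1 | h1
  · left
    have h2 := h.small z h1
    have := norm_nonneg ((den b).eval z)
    linarith
  rcases le_or_gt τ⁻¹ ‖z‖ with h2 | h2
  · right
    have h3 := h.large z h2
    have := norm_nonneg ((num μ a).eval z)
    linarith
  -- now `z` and `v` are in the annulus
  have hv1 : σ + ε ≤ ‖v‖ := by
    have h3 := norm_add_le (z - v) v
    rw [sub_add_cancel] at h3
    linarith
  have hv2 : ‖v‖ * (σ + ε) ≤ 1 := by
    have h3 := norm_add_le (v - z) z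
    rw [sub_add_cancel, norm_sub_rev] at h3
    have h4 : ‖z‖ * τ ≤ 1 := by
      have := mul_le_mul_of_nonneg_right h2.le hτ0.le
      rwa [inv_mul_cancel₀ hτ0.ne'] at this
    have h5 : 1 < τ⁻¹ := (one_lt_inv₀ hτ0).2 hτ1
    have h6 : ‖v‖ ≤ ‖z‖ + ε := by linarith
    have h7 : (‖z‖ + ε) * (σ + ε) ≤ 1 := by
      have e1 : (‖z‖ + ε) * (σ + ε) = ‖z‖ * τ - ‖z‖ * ε + ε * (σ + ε) := by
        rw [← eστ]; ring
      have h8 : ε * (σ + ε) ≤ ‖z‖ * ε := by
        have : σ + ε ≤ ‖z‖ := by linarith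
        nlinarith
      linarith
    have h8 : 0 ≤ σ + ε := by positivity
    nlinarith
  have hb1 : ∀ i, ε ≤ ‖1 - b i * v‖ := by
    intro i
    have h3 := norm_sub_norm_le (1 : ℂ) (b i * v)
    rw [norm_one, norm_mul] at h3
    have h4 : ‖b i‖ * ‖v‖ ≤ σ * ‖v‖ := mul_le_mul_of_nonneg_right (h.poles i) (norm_nonneg v)
    have h5 : ε ≤ ‖v‖ * ε + (1 - ‖v‖ * (σ + ε)) := by
      rcases le_or_gt 1 ‖v‖ with h6 | h6
      · nlinarith
      · nlinarith
    nlinarith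
  have ha1 : ∀ i, ε ≤ ‖v - a i‖ := by
    intro i
    have h3 := norm_sub_norm_le v (a i)
    have := h.zeros i
    linarith
  set t : ℝ := r / ε with ht
  have ht0 : 0 ≤ t := by positivity
  have ht1 : t ≤ 1 := by rw [ht, div_le_one hε0]; exact hrε
  have hrt : r = t * ε := by rw [ht]; field_simp
  have hab : ∀ i, (1 - t) * ‖v - a i‖ ≤ ‖z - a i‖ ∧ ‖z - a i‖ ≤ (1 + t) * ‖v - a i‖ := by
    intro i
    have h3 := norm_add_le (z - v) (v - a i)
    rw [sub_add_sub_cancel] at h3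
    have h4 := norm_add_le (v - z) (z - a i)
    rw [sub_add_sub_cancel, norm_sub_rev v z] at h4
    have h5 : r ≤ t * ‖v - a i‖ := by
      rw [hrt]; exact mul_le_mul_of_nonneg_left (ha1 i) ht0
    constructor <;> nlinarith
  have hbb : ∀ i, (1 - t) * ‖1 - b i * v‖ ≤ ‖1 - b i * z‖ ∧
      ‖1 - b i * z‖ ≤ (1 + t) * ‖1 - b i * v‖ := by
    intro i
    have e1 : ‖b i * (z - v)‖ ≤ r := by
      rw [norm_mul]
      have h6 : ‖b i‖ ≤ 1 := (h.poles i).trans (hστ.le.trans hτ1.le)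
      have := norm_nonneg (z - v)
      nlinarith [norm_nonneg (b i)]
    have h3 : ‖1 - b i * z‖ ≤ ‖1 - b i * v‖ + r := by
      have e2 : 1 - b i * z = (1 - b i * v) - b i * (z - v) := by ring
      rw [e2]
      exact (norm_sub_le _ _).trans (by linarith)
    have h4 : ‖1 - b i * v‖ ≤ ‖1 - b i * z‖ + r := by
      have e2 : 1 - b i * v = (1 - b i * z) + b i * (z - v) := by ring
      rw [e2]
      exact (norm_add_le _ _).trans (by linarith)
    have h5 : r ≤ t * ‖1 - b i * v‖ := by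
      rw [hrt]; exact mul_le_mul_of_nonneg_left (hb1 i) ht0
    constructor <;> nlinarith
  have hpow := pow_two_le ht0 hNr ht1
  set A := ∏ i, ‖v - a i‖ with hA
  set A' := ∏ i, ‖z - a i‖ with hA'
  set B := ∏ i, ‖1 - b i * v‖ with hB
  set B' := ∏ i, ‖1 - b i * z‖ with hB'
  have c1 := prod_comp (univ : Finset (Fin N)) (fun i => norm_nonneg (v - a i))
    (fun i => (hab i).2) fun i => norm_nonneg _
  have c2 := prod_comp' (univ : Finset (Fin N)) ht1 (fun i => norm_nonneg (v - a i))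
    fun i => (hab i).1
  have c3 := prod_comp (univ : Finset (Fin N)) (fun i => norm_nonneg (1 - b i * v))
    (fun i => (hbb i).2) fun i => norm_nonneg _
  have c4 := prod_comp' (univ : Finset (Fin N)) ht1 (fun i => norm_nonneg (1 - b i * v))
    fun i => (hbb i).1
  rw [Finset.card_univ, Fintype.card_fin] at c1 c2 c3 c4
  have hpv : ‖(num μ a).eval v‖ = ‖μ‖ * A := by rw [num_eval, norm_mul, norm_prod]
  have hpz : ‖(num μ a).eval z‖ = ‖μ‖ * A' := by rw [num_eval, norm_mul, norm_prod]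
  have hqv : ‖(den b).eval v‖ = B := by rw [den_eval, norm_prod]
  have hqz : ‖(den b).eval z‖ = B' := by rw [den_eval, norm_prod]
  have hA0 : 0 ≤ A := Finset.prod_nonneg fun i _ => norm_nonneg _
  have hB0 : 0 ≤ B := Finset.prod_nonneg fun i _ => norm_nonneg _
  have hμ0 : 0 ≤ ‖μ‖ := norm_nonneg μ
  have hT0 : 0 ≤ (1 + t) ^ N := by positivity
  have hN4 : (0 : ℝ) ≤ (N : ℝ) ^ 4 := by positivity
  rw [hpz, hqz]
  have hcase : (N : ℝ) ^ 4 * (‖μ‖ * A) ≤ B ∨ (N : ℝ) ^ 4 * B ≤ ‖μ‖ * A := by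
    by_contra hcon
    push Not at hcon
    exact hv ⟨by rw [hpv, hqv]; exact hcon.1, by rw [hpv, hqv]; exact hcon.2⟩
  rcases hcase with h3 | h3
  · left
    calc (N : ℝ) ^ 4 * (‖μ‖ * A') ≤ (N : ℝ) ^ 4 * (‖μ‖ * ((1 + t) ^ N * A)) := by gcongr
      _ = (1 + t) ^ N * ((N : ℝ) ^ 4 * (‖μ‖ * A)) := by ring
      _ ≤ (1 + t) ^ N * B := by gcongr
      _ ≤ (2 * (1 - t) ^ N) * B := by gcongr
      _ = 2 * ((1 - t) ^ N * B) := by ring
      _ ≤ 2 * B' := by gcongr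
  · right
    calc (N : ℝ) ^ 4 * B' ≤ (N : ℝ) ^ 4 * ((1 + t) ^ N * B) := by gcongr
      _ = (1 + t) ^ N * ((N : ℝ) ^ 4 * B) := by ring
      _ ≤ (1 + t) ^ N * (‖μ‖ * A) := by gcongr
      _ ≤ (2 * (1 - t) ^ N) * (‖μ‖ * A) := by gcongr
      _ = 2 * (‖μ‖ * ((1 - t) ^ N * A)) := by ring
      _ ≤ 2 * (‖μ‖ * A') := by gcongr

end Pool.Agent.U1.HD
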