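import Mathlib
import Pool.Agent.U1.HD.Sph

/-! Rational maps `P / Q + v`: two trapping discs around `v` and `∞`. -/

set_option autoImplicit false

open Topology Filter Metric Set Polynomial
open scoped OnePoint
open Pool.Agent.H790R3.RB (CV hF ND sp pol hc pr)
open Pool.Agent.H790R3.RB.SP (pr_zero pr_ne pr_eq_iff pr_hc sp_pr sp_cont)
open Pool.Agent.H790R3.RB.PQ (hF_one hF_inf part1 sp_eval pol_natDegree)
open Pool.Agent.R239.Fat

namespace Pool.Agent.U1.HD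

theorem pr_smul {s : ℂ} (hs : s ≠ 0) {q : ℂ × ℂ} (hq : q ≠ 0) : pr (s • q) = pr q := by
  rw [pr_eq_iff (smul_ne_zero hs hq) hq, Pool.Agent.H790R3.RB.cr_smul_left,
    Pool.Agent.H790R3.RB.cr_self, mul_zero]

/-- The dynamics of `P / Q + v`. -/
theorem trapT {N : ℕ} (hN : 1 ≤ N) {P Q : ℂ[X]} (hPQ : IsCoprime P Q)
    (hd : max P.natDegree Q.natDegree = N) {v : ℂ} {τ η r : ℝ} (hη0 : 0 ≤ η)
    (hη : η < 1) (hr : 0 < r) (hr1 : r ≤ 1 / 2) (hηr : η ≤ (r / 2) * (1 - η))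
    (hrv : r * (τ⁻¹ + ‖v‖ + 1) ≤ 1)
    (hin : ∀ z : ℂ, ‖z‖ ≤ τ → ‖P.eval z‖ ≤ η * ‖Q.eval z‖)
    (hout : ∀ z : ℂ, τ⁻¹ ≤ ‖z‖ → ‖Q.eval z‖ ≤ η * ‖P.eval z‖)
    (hinf : ‖Q.coeff N‖ ≤ η * ‖P.coeff N‖)
    (hcr : ∀ c : ℂ, τ < ‖c‖ → ‖c‖ < τ⁻¹ → Q.eval c ≠ 0 ∧
      (derivative P * Q - P * derivative Q).eval c ≠ 0)
    (hv : ∀ z ∈ ball v (2 * r), ‖P.eval z‖ ≤ η * ‖Q.eval z‖ ∨ ‖Q.eval z‖ ≤ η * ‖P.eval z‖) :
    IsCoprime (P + C v * Q) Q ∧ ∃ g : Sph → Sph, Continuous g ∧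
      (∀ z : ℂ, Q.eval z ≠ 0 →
        g (z : Sph) = (((P + C v * Q).eval z / Q.eval z : ℂ) : Sph)) ∧ Hyp g := by
  constructor
  · obtain ⟨a, b, hab⟩ := hPQ
    refine ⟨a, b - a * C v, ?_⟩
    linear_combination hab
  obtain ⟨x, hx, hx0, hx1, -⟩ :=
    (Pool.Agent.H790R3.RB.PQ Pool.Agent.H790R3.RB.SP N hN).2 P Q hPQ hd
  have hdt : (1 : ℂ) * 1 - v * 0 ≠ 0 := by simp
  set g : Sph → Sph := mob 1 v 0 1 ∘ sp x with hg
  have hsp : Hol (sp x) := hol_sp hN hx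
  have hgh : Hol g := hsp.comp (hol_mob hdt)
  set p : ℂ := v + 1 with hp
  set h : Sph ≃ₜ Sph := hz p with hh
  set G : Sph → Sph := fun y => h (g (h.symm y)) with hG
  have hGh : Hol G := hol_conj p hgh
  -- values
  have hval : ∀ q : ℂ × ℂ, q ≠ 0 → h (g (pr q)) =
      pr (0 * (-(hF x q).1) + (-1) * (hF x q).2, 1 * (-(hF x q).1) + 1 * (hF x q).2) := by
    intro q hq
    have h1 : hF x q ≠ 0 := fun h => hq (hx q h)
    show mob 0 1 1 (-p) (mob 1 v 0 1 (sp x (pr q))) = _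
    rw [sp_pr hx hq, mob_pr hdt h1, mob_pr (hdet p) (lin_ne hdt h1)]
    have e1 : ((0 * (1 * (hF x q).1 + v * (hF x q).2) + 1 * (0 * (hF x q).1 + 1 * (hF x q).2),
        1 * (1 * (hF x q).1 + v * (hF x q).2) + -p * (0 * (hF x q).1 + 1 * (hF x q).2)) : ℂ × ℂ) =
        (-1 : ℂ) • ((0 * (-(hF x q).1) + (-1) * (hF x q).2,
          1 * (-(hF x q).1) + 1 * (hF x q).2) : ℂ × ℂ) := by
      refine Prod.ext ?_ ?_
      · simp
      · simp only [hp, Prod.smul_snd, smul_eq_mul]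
        ring
    have h2 := lin_ne (hdet p) (lin_ne hdt h1)
    rw [e1] at h2 ⊢
    refine pr_smul (by norm_num) ?_
    intro h0
    apply h2
    rw [h0, smul_zero]
  have hvalz : ∀ z : ℂ, h (g (z : Sph)) =
      pr (0 * (-P.eval z) + (-1) * Q.eval z, 1 * (-P.eval z) + 1 * Q.eval z) := by
    intro z
    rw [← pr_coe z, hval _ (coe_ne z), hF_one, hx0, hx1]
  have hvali : h (g ∞) =
      pr (0 * (-P.coeff N) + (-1) * Q.coeff N, 1 * (-P.coeff N) + 1 * Q.coeff N) := by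
    rw [← pr_inf, hval _ (inf_ne 0), hF_inf, hx0, hx1]
  have hnz : ∀ z : ℂ, ((-P.eval z, Q.eval z) : ℂ × ℂ) ≠ 0 := by
    intro z h
    have h1 := hx (z, 1) (by
      rw [hF_one, hx0, hx1]
      have h2 := congrArg Prod.fst h
      have h3 := congrArg Prod.snd h
      simp only [Prod.fst_zero, Prod.snd_zero, neg_eq_zero] at h2 h3
      rw [h2, h3]
      rfl)
    exact coe_ne z h1
  have hni : ((-P.coeff N, Q.coeff N) : ℂ × ℂ) ≠ 0 := by
    intro h
    have h1 := hx (1, 0) (by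
      rw [hF_inf, hx0, hx1]
      have h2 := congrArg Prod.fst h
      have h3 := congrArg Prod.snd h
      simp only [Prod.fst_zero, Prod.snd_zero, neg_eq_zero] at h2 h3
      rw [h2, h3]
      rfl)
    exact inf_ne 0 h1
  set W : Set ℂ := ball (-1) r ∪ ball 0 r with hW
  have hWo : IsOpen W := isOpen_ball.union isOpen_ball
  have hr2 : 0 < r / 2 := by positivity
  have hηr' : ‖(0 : ℂ) - (-1)‖ * η ≤ (r / 2) * (1 - η) := by
    have : ‖(0 : ℂ) - (-1)‖ = 1 := by simp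
    rw [this, one_mul]
    exact hηr
  have hgood : ∀ p q : ℂ, ((-p, q) : ℂ × ℂ) ≠ 0 → (‖p‖ ≤ η * ‖q‖ ∨ ‖q‖ ≤ η * ‖p‖) →
      ∃ u : ℂ, pr (0 * (-p) + (-1) * q, 1 * (-p) + 1 * q) = (u : Sph) ∧ ball u (r / 2) ⊆ W := by
    intro p q hpq h
    obtain ⟨u, hu, h1 | h1⟩ := near_of (v := -1) (w := 0) hη0 hη hηr' hpq
      (by rw [norm_neg]; exact h)
    · refine ⟨u, hu, fun y hy => Or.inl ?_⟩
      rw [mem_ball, dist_eq_norm] at hy ⊢
      have h2 := norm_add_le (y - u) (u - (-1))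
      rw [sub_add_sub_cancel] at h2
      linarith
    · refine ⟨u, hu, fun y hy => Or.inr ?_⟩
      rw [mem_ball, dist_eq_norm] at hy ⊢
      have h2 := norm_add_le (y - u) (u - 0)
      rw [sub_add_sub_cancel] at h2
      linarith
  have hsymm : ∀ y : ℂ, y ≠ 0 → h.symm (y : Sph) = ((p + y⁻¹ : ℂ) : Sph) := by
    intro y hy
    rw [Homeomorph.symm_apply_eq]
    show _ = mob 0 1 1 (-p) ((p + y⁻¹ : ℂ) : Sph)
    have h1 : 1 * (p + y⁻¹) + -p = y⁻¹ := by ring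
    rw [mob_coe (hdet p) (by rw [h1]; exact inv_ne_zero hy), h1]
    simp
  have hsymm0 : h.symm ((0 : ℂ) : Sph) = ∞ := by
    rw [Homeomorph.symm_apply_eq]
    show _ = mob 0 1 1 (-p) ∞
    rw [mob_inf (hdet p), pr_ne (by simp)]
    simp
  have hWg : ∀ y ∈ W, ∃ u : ℂ, G (y : Sph) = (u : Sph) ∧ ball u (r / 2) ⊆ W := by
    intro y hy
    by_cases hy0 : y = 0
    · subst hy0
      show ∃ u : ℂ, h (g (h.symm ((0 : ℂ) : Sph))) = (u : Sph) ∧ _
      rw [hsymm0, hvali]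
      exact hgood _ _ hni (Or.inr hinf)
    · show ∃ u : ℂ, h (g (h.symm (y : Sph))) = (u : Sph) ∧ _
      rw [hsymm y hy0, hvalz]
      refine hgood _ _ (hnz _) ?_
      rcases hy with hy | hy
      · apply hv
        rw [mem_ball, dist_eq_norm] at hy ⊢
        have h1 : 1 / 2 ≤ ‖y‖ := by
          have h2 := norm_add_le (-(y - (-1))) y
          have e1 : -(y - (-1)) + y = -1 := by ring
          rw [e1, norm_neg, norm_neg, norm_one] at h2
          linarith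
        have e2 : p + y⁻¹ - v = (y - (-1)) * y⁻¹ := by
          rw [hp]
          field_simp
          ring
        rw [e2, norm_mul, norm_inv]
        have h3 : ‖y‖⁻¹ ≤ 2 := by
          rw [inv_le_comm₀ (by linarith) (by norm_num)]
          linarith
        have h4 : 0 < ‖y‖⁻¹ := by positivity
        calc ‖y - (-1)‖ * ‖y‖⁻¹ < r * ‖y‖⁻¹ := mul_lt_mul_of_pos_right hy h4
          _ ≤ r * 2 := by gcongr
          _ = 2 * r := by ring
      · right
        apply hout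
        rw [mem_ball_zero_iff] at hy
        have hy1 : 0 < ‖y‖ := norm_pos_iff.2 hy0
        have h1 : ‖y⁻¹‖ - ‖p‖ ≤ ‖p + y⁻¹‖ := by
          have h2 := norm_sub_norm_le y⁻¹ (-p)
          rw [norm_neg, sub_neg_eq_add, add_comm y⁻¹ p] at h2
          exact h2
        have h2 : r⁻¹ ≤ ‖y⁻¹‖ := by
          rw [norm_inv]
          exact (inv_le_inv₀ hr hy1).2 hy.le
        have h3 : τ⁻¹ + ‖v‖ + 1 ≤ r⁻¹ := by
          rw [inv_eq_one_div r, le_div_iff₀ hr, mul_comm]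
          exact hrv
        have h4 : ‖p‖ ≤ ‖v‖ + 1 := by
          rw [hp]
          exact (norm_add_le _ _).trans (by rw [norm_one])
        linarith
  have hWb : ∀ z ∈ W, ‖z‖ ≤ 1 + r := by
    rintro z (hz | hz)
    · rw [mem_ball, dist_eq_norm] at hz
      have h2 := norm_add_le (z - (-1)) (-1)
      rw [sub_add_cancel, norm_neg, norm_one] at h2
      linarith
    · rw [mem_ball_zero_iff] at hz
      linarith
  have hR : 0 < 1 + r := by positivity
  have hatt : ∀ z ∈ W, Att G (z : Sph) := fun z hz => sph_att hGh hWo hR hWb hr2 hWg hz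
  have hatt' : ∀ (c : Sph) (p q : ℂ), ((-p, q) : ℂ × ℂ) ≠ 0 → (‖p‖ ≤ η * ‖q‖ ∨ ‖q‖ ≤ η * ‖p‖) →
      h (g c) = pr (0 * (-p) + (-1) * q, 1 * (-p) + 1 * q) → Att g c := by
    intro c p q hpq h' hc
    obtain ⟨u, hu, hu2⟩ := hgood p q hpq h'
    apply att_of_iter hgh.cont (m := 1)
    rw [Function.iterate_one]
    rw [← att_conj_iff h]
    show Att G (h (g c))
    rw [hc, hu]
    exact hatt u (hu2 (mem_ball_self hr2))
  refine ⟨g, hgh.cont, ?_, ?_⟩
  · intro z hz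
    show mob 1 v 0 1 (sp x (z : Sph)) = _
    rw [sp_eval x z (by rw [hx1]; exact hz), hx0, hx1, mob_coe hdt (by simp)]
    congr 1
    simp only [eval_add, eval_mul, eval_C]
    have e1 : (eval z P + v * eval z Q) / eval z Q = eval z P / eval z Q + v := by
      rw [add_div, mul_div_assoc, div_self hz, mul_one]
    rw [e1]
    simp
  · intro c hc
    induction c using OnePoint.rec with
    | infty => exact hatt' ∞ _ _ hni (Or.inr hinf) hvali
    | coe z =>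
      rcases le_or_gt ‖z‖ τ with h1 | h1
      · exact hatt' _ _ _ (hnz z) (Or.inl (hin z h1)) (hvalz z)
      rcases le_or_gt τ⁻¹ ‖z‖ with h2 | h2
      · exact hatt' _ _ _ (hnz z) (Or.inr (hout z h2)) (hvalz z)
      exfalso
      apply hc
      obtain ⟨h3, h4⟩ := hcr z h1 h2
      refine locInj_comp hsp.cont (locInj_of ?_ ?_) (locInj_of_injective
        (mobH 1 v 0 1 hdt).injective _)
      · rw [hx1]; exact h3
      · rw [hx0, hx1]; exact h4

end Pool.Agent.U1.HD
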