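import Mathlib
import Pool.Agent.U1.HD.Crit
import Pool.Agent.U1.HD.Sph2

/-! Coarse density of hyperbolicity for rational maps with two separated fibres. -/

set_option autoImplicit false

open Polynomial Finset Metric Filter Topology MeasureTheory
open scoped OnePoint
open Pool.Agent.R239.Fat (Sph Hyp)

namespace Pool.Agent.U1.HD

/-- `A / B` is in lowest terms and all critical points on the sphere are attracted -/
def HypP (A B : ℂ[X]) : Prop :=
  IsCoprime A B ∧ ∃ g : Sph → Sph, Continuous g ∧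
    (∀ z : ℂ, B.eval z ≠ 0 → g (z : Sph) = ((A.eval z / B.eval z : ℂ) : Sph)) ∧ Hyp g

variable {σ τ L : ℝ} {N : ℕ} {μ : ℂ} {a b : Fin N → ℂ}

theorem le_eta {N : ℕ} (hN : 0 < N) {x y : ℝ} (h : (N : ℝ) ^ 4 * x ≤ 2 * y) :
    x ≤ 2 / (N : ℝ) ^ 4 * y := by
  have h1 : (0 : ℝ) < (N : ℝ) ^ 4 := by positivity
  rw [div_mul_eq_mul_div, le_div_iff₀ h1, mul_comm]
  exact h

theorem crit2 (hσ : 0 < σ) (hστ : σ < τ) (hτ1 : τ < 1) (hN : 2 ≤ N)
    (h1 : 4 ≤ (τ - σ) / 2 * N) (h2 : 16 * L ≤ (N : ℝ) ^ 2) (h : Sep σ τ μ a b) (hμ : μ ≠ 0)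
    {v w : ℂ} (hv : ‖v‖ ≤ L) (hw : ‖w‖ ≤ L) (hvw : v ≠ w) (hvZ : v ∉ Zone μ a b)
    (hwZ : w ∉ Zone μ a b) : HypP (C w * num μ a + C v * den b) (num μ a + den b) := by
  have hτ0 : 0 < τ := hσ.trans hστ
  have hN0 : 0 < N := by omega
  have hNr : (2 : ℝ) ≤ N := by exact_mod_cast hN
  have hε : 0 < (τ - σ) / 2 := by linarith
  set r : ℝ := ((N : ℝ) ^ 2)⁻¹ with hr
  set η : ℝ := 2 / (N : ℝ) ^ 4 with hη
  have hr0 : 0 < r := by positivity
  have hN2 : (4 : ℝ) ≤ (N : ℝ) ^ 2 := by nlinarith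
  have hr4 : r ≤ 1 / 4 := by
    rw [hr, inv_le_comm₀ (by positivity) (by norm_num)]
    norm_num
    exact hN2
  have hηr : η = 2 * r ^ 2 := by
    rw [hη, hr, inv_pow, ← pow_mul]
    rfl
  have hrε : r ≤ (τ - σ) / 2 := by
    have h3 : 4 * r ≤ (τ - σ) / 2 * N * r := mul_le_mul_of_nonneg_right h1 hr0.le
    have h4 : (N : ℝ) * r ≤ 1 := by
      rw [hr, pow_two, mul_inv, ← mul_assoc, mul_inv_cancel₀ (by positivity), one_mul]
      exact inv_le_one_of_one_le₀ (by linarith)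
    nlinarith
  have hNrε : N * (r / ((τ - σ) / 2)) ≤ 1 / 4 := by
    have h4 : (N : ℝ) * (N * r) = 1 := by
      rw [hr]
      have : (N : ℝ) ≠ 0 := by positivity
      field_simp
    rw [← mul_div_assoc, div_le_iff₀ hε]
    have h5 : 0 ≤ (N : ℝ) * r := by positivity
    nlinarith
  have hsp : ∀ {y : ℂ}, y ∉ Zone μ a b → ∀ z ∈ ball y r,
      (N : ℝ) ^ 4 * ‖(num μ a).eval z‖ ≤ 2 * ‖(den b).eval z‖ ∨
      (N : ℝ) ^ 4 * ‖(den b).eval z‖ ≤ 2 * ‖(num μ a).eval z‖ :=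
    fun hy => spread hσ hστ hτ1 h hr0 hrε hNrε hy
  have hnb : ∀ {c : ℂ}, σ < ‖c‖ → σ * ‖c‖ < 1 → _ :=
    fun {c} => noncrit (c := c) (by omega : 1 ≤ N) hμ (a := a) (b := b) h.zeros h.poles
  refine trap (by omega : 1 ≤ N) (coprime_of hσ.le (hστ.trans hτ1) h.zeros h.poles hμ) ?_ hvw
    (τ := τ) (η := η) (r := r) (by positivity) ?_ hr0 ?_ ?_ ?_ ?_ ?_ ?_ ?_
  · rw [num_natDegree hμ]
    exact max_eq_left den_natDegree_le
  · rw [hηr]; nlinarith
  · have h3 : ‖w - v‖ ≤ 2 * L := (norm_sub_le _ _).trans (by linarith)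
    have h4 : 16 * L * r ≤ 1 := by
      have := mul_le_mul_of_nonneg_right h2 hr0.le
      rwa [hr, mul_inv_cancel₀ (by positivity)] at this
    have h5 : ‖w - v‖ * η ≤ 2 * L * η := by gcongr
    have h6 : η ≤ 1 / 2 := by rw [hηr]; nlinarith
    have h7 : 2 * L * η = (16 * L * r) * (r / 4) := by rw [hηr]; ring
    have h8 : (16 * L * r) * (r / 4) ≤ 1 * (r / 4) := by gcongr
    nlinarith
  · intro z hz
    refine le_eta hN0 ?_
    have h3 := h.small z hz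
    have := norm_nonneg ((den b).eval z)
    linarith
  · intro z hz
    refine le_eta hN0 ?_
    have h3 := h.large z hz
    have := norm_nonneg ((num μ a).eval z)
    linarith
  · refine le_eta hN0 ?_
    have h3 := coeff_inf hτ0 h hμ
    have := norm_nonneg ((num μ a).coeff N)
    linarith
  · intro c hc1 hc2
    have h3 := hnb (hστ.trans hc1) (by
      have h4 : ‖c‖ * τ < 1 := by
        have := mul_lt_mul_of_pos_right hc2 hτ0
        rwa [inv_mul_cancel₀ hτ0.ne'] at this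
      have := norm_nonneg c
      nlinarith)
    exact ⟨h3.2.1, h3.2.2⟩
  · intro z hz
    exact (hsp hvZ z hz).imp (le_eta hN0) (le_eta hN0)
  · intro z hz
    exact (hsp hwZ z hz).imp (le_eta hN0) (le_eta hN0)

theorem crit1 (hσ : 0 < σ) (hστ : σ < τ) (hτ1 : τ < 1) (hN : 4 ≤ N)
    (h1 : 4 ≤ (τ - σ) / 2 * N) (h2 : τ⁻¹ + L + 1 ≤ (N : ℝ) ^ 2) (h : Sep σ τ μ a b) (hμ : μ ≠ 0)
    {v : ℂ} (hv : ‖v‖ ≤ L) (hvZ : v ∉ Zone μ a b) :
    HypP (num μ a + C v * den b) (den b) := by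
  have hτ0 : 0 < τ := hσ.trans hστ
  have hN0 : 0 < N := by omega
  have hNr : (4 : ℝ) ≤ N := by exact_mod_cast hN
  have hε : 0 < (τ - σ) / 2 := by linarith
  set r : ℝ := ((N : ℝ) ^ 2)⁻¹ with hr
  set η : ℝ := 2 / (N : ℝ) ^ 4 with hη
  have hr0 : 0 < r := by positivity
  have hN2 : (16 : ℝ) ≤ (N : ℝ) ^ 2 := by nlinarith
  have hr4 : r ≤ 1 / 16 := by
    rw [hr, inv_le_comm₀ (by positivity) (by norm_num)]
    norm_num
    exact hN2
  have hηr : η = 2 * r ^ 2 := by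
    rw [hη, hr, inv_pow, ← pow_mul]
    rfl
  have hrε : r ≤ (τ - σ) / 2 := by
    have h3 : 4 * r ≤ (τ - σ) / 2 * N * r := mul_le_mul_of_nonneg_right h1 hr0.le
    have h4 : (N : ℝ) * r ≤ 1 := by
      rw [hr, pow_two, mul_inv, ← mul_assoc, mul_inv_cancel₀ (by positivity), one_mul]
      exact inv_le_one_of_one_le₀ (by linarith)
    nlinarith
  have hNrε : N * (r / ((τ - σ) / 2)) ≤ 1 / 4 := by
    have h4 : (N : ℝ) * (N * r) = 1 := by
      rw [hr]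
      have : (N : ℝ) ≠ 0 := by positivity
      field_simp
    rw [← mul_div_assoc, div_le_iff₀ hε]
    have h5 : 0 ≤ (N : ℝ) * r := by positivity
    nlinarith
  have hsp : ∀ {y : ℂ}, y ∉ Zone μ a b → ∀ z ∈ ball y r,
      (N : ℝ) ^ 4 * ‖(num μ a).eval z‖ ≤ 2 * ‖(den b).eval z‖ ∨
      (N : ℝ) ^ 4 * ‖(den b).eval z‖ ≤ 2 * ‖(num μ a).eval z‖ :=
    fun hy => spread hσ hστ hτ1 h hr0 hrε hNrε hy
  have hnb : ∀ {c : ℂ}, σ < ‖c‖ → σ * ‖c‖ < 1 → _ :=
    fun {c} => noncrit (c := c) (by omega : 1 ≤ N) hμ (a := a) (b := b) h.zeros h.poles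
  refine trapT (by omega : 1 ≤ N) (coprime_of hσ.le (hστ.trans hτ1) h.zeros h.poles hμ) ?_
    (τ := τ) (η := η) (r := r / 2) (by positivity) ?_ (by positivity) (by linarith) ?_ ?_ ?_ ?_ ?_
    ?_ ?_
  · rw [num_natDegree hμ]
    exact max_eq_left den_natDegree_le
  · rw [hηr]; nlinarith
  · have h6 : η ≤ 1 / 2 := by rw [hηr]; nlinarith
    have h7 : η ≤ r / 8 := by rw [hηr]; nlinarith
    nlinarith
  · have h4 : (τ⁻¹ + L + 1) * r ≤ 1 := by
      have := mul_le_mul_of_nonneg_right h2 hr0.le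
      rwa [hr, mul_inv_cancel₀ (by positivity)] at this
    have h5 : 0 < τ⁻¹ := by positivity
    have h6 := norm_nonneg v
    nlinarith
  · intro z hz
    refine le_eta hN0 ?_
    have h3 := h.small z hz
    have := norm_nonneg ((den b).eval z)
    linarith
  · intro z hz
    refine le_eta hN0 ?_
    have h3 := h.large z hz
    have := norm_nonneg ((num μ a).eval z)
    linarith
  · refine le_eta hN0 ?_
    have h3 := coeff_inf hτ0 h hμ
    have := norm_nonneg ((num μ a).coeff N)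
    linarith
  · intro c hc1 hc2
    have h3 := hnb (hστ.trans hc1) (by
      have h4 : ‖c‖ * τ < 1 := by
        have := mul_lt_mul_of_pos_right hc2 hτ0
        rwa [inv_mul_cancel₀ hτ0.ne'] at this
      have := norm_nonneg c
      nlinarith)
    exact ⟨h3.2.1, h3.2.2⟩
  · intro z hz
    have e1 : 2 * (r / 2) = r := by ring
    rw [e1] at hz
    exact (hsp hvZ z hz).imp (le_eta hN0) (le_eta hN0)

/-- near every point there are points off the zone -/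
theorem nearby (hσ : 0 < σ) (hστ : σ < τ) (hτ1 : τ < 1) (hN : 2 ≤ N)
    (hl : 16 * Real.log N ≤ N) (h : Sep σ τ μ a b) {v u : ℂ} (huv : u ≠ v) :
    ∃ v' : ℂ, v' ∉ Zone μ a b ∧ ‖v' - v‖ ≤ 2 * rt σ N * τ⁻¹ ∧ v' ≠ u := by
  have hτ0 : 0 < τ := hσ.trans hστ
  have hN0 : (0 : ℝ) < N := by
    have : 0 < N := by omega
    exact_mod_cast this
  have hlog : 0 < Real.log N := Real.log_pos (by exact_mod_cast hN)
  have hm : 0 < 1 - σ ^ 2 := by nlinarith
  have hrt : 0 < rt σ N := by unfold rt; positivity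
  set δ := rt σ N with hδ
  by_cases hvZ : v ∈ Zone μ a b
  · obtain ⟨h1, h2⟩ := zone_sub h hvZ
    have hv0 : v ≠ 0 := by
      rintro rfl
      rw [norm_zero] at h1
      linarith
    have key : ∀ k : ℝ, 1 ≤ k → k ≤ 2 → ((1 + k * δ : ℝ) : ℂ) * v ∉ Zone μ a b ∧
        ‖((1 + k * δ : ℝ) : ℂ) * v - v‖ ≤ 2 * δ * τ⁻¹ := by
      intro k hk hk2
      constructor
      · intro hz
        have h3 := zone_ray hσ hστ hτ1 (by omega : 1 ≤ N) hl h (z := v) (s := 1 + k * δ)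
          (by nlinarith) hvZ hz
        nlinarith
      · have e1 : ((1 + k * δ : ℝ) : ℂ) * v - v = ((k * δ : ℝ) : ℂ) * v := by
          push_cast; ring
        rw [e1, norm_mul, Complex.norm_real, Real.norm_eq_abs, abs_of_pos (by positivity)]
        gcongr
    by_cases h3 : ((1 + 1 * δ : ℝ) : ℂ) * v = u
    · refine ⟨_, (key 2 (by norm_num) le_rfl).1, (key 2 (by norm_num) le_rfl).2, ?_⟩
      intro h4
      rw [← h3] at h4
      have h5 := mul_right_cancel₀ hv0 h4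
      have h6 : (1 + 2 * δ : ℝ) = 1 + 1 * δ := by exact_mod_cast h5
      linarith
    · exact ⟨_, (key 1 le_rfl (by norm_num)).1, (key 1 le_rfl (by norm_num)).2, h3⟩
  · refine ⟨v, hvZ, ?_, huv.symm⟩
    rw [sub_self, norm_zero]
    positivity

theorem rt_tendsto (σ : ℝ) : Tendsto (fun N : ℕ => rt σ N) atTop (𝓝 0) := by
  unfold rt
  have h1 : Tendsto (fun x : ℝ => Real.log x / x) atTop (𝓝 0) :=
    Real.isLittleO_log_id_atTop.tendsto_div_nhds_zero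
  have h2 := (h1.comp tendsto_natCast_atTop_atTop).const_mul (64 / (1 - σ ^ 2))
  rw [mul_zero] at h2
  exact h2

theorem log_small : ∀ᶠ N : ℕ in atTop, 16 * Real.log N ≤ N := by
  have h1 : Tendsto (fun x : ℝ => Real.log x / x) atTop (𝓝 0) :=
    Real.isLittleO_log_id_atTop.tendsto_div_nhds_zero
  have h2 := (h1.comp tendsto_natCast_atTop_atTop).eventually (gt_mem_nhds (by norm_num :
    (0 : ℝ) < 1 / 16))
  filter_upwards [h2, eventually_gt_atTop 0] with N hN hN0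
  have hN0' : (0 : ℝ) < N := by exact_mod_cast hN0
  simp only [Function.comp_apply] at hN
  rw [div_lt_iff₀ hN0'] at hN
  linarith

theorem sq_large (c : ℝ) : ∀ᶠ N : ℕ in atTop, c ≤ (N : ℝ) ^ 2 := by
  have h1 : Tendsto (fun N : ℕ => (N : ℝ) ^ 2) atTop atTop :=
    (tendsto_pow_atTop (by norm_num : (2 : ℕ) ≠ 0)).comp tendsto_natCast_atTop_atTop
  exact h1.eventually_ge_atTop c

theorem vol_disc (L : ℝ) (hL : 0 ≤ L) :
    volume (closedBall (0 : ℂ) L) = ENNReal.ofReal (Real.pi * L ^ 2) := by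
  rw [Complex.volume_closedBall]
  have e0 : (NNReal.pi : ENNReal) = ENNReal.ofReal Real.pi := by
    rw [← NNReal.coe_real_pi, ENNReal.ofReal_coe_nnreal]
  rw [e0, ← ENNReal.ofReal_pow hL, ← ENNReal.ofReal_mul (by positivity), mul_comm]

/-- Everything together. -/
theorem main (hσ : 0 < σ) (hστ : σ < τ) (hτ1 : τ < 1) (hL : 0 ≤ L) :
    ∃ K : ℝ, 0 < K ∧ ∃ N₀ : ℕ, ∀ N : ℕ, N₀ ≤ N → ∀ (μ : ℂ) (a b : Fin N → ℂ), μ ≠ 0 →
      Sep σ τ μ a b →
      (Zone μ a b ⊆ {z : ℂ | τ < ‖z‖ ∧ ‖z‖ < τ⁻¹} ∧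
        volume (Zone μ a b) ≤ ENNReal.ofReal (K * (Real.log N / N))) ∧
      (∀ v w : ℂ, ‖v‖ ≤ L → ‖w‖ ≤ L → v ≠ w → v ∉ Zone μ a b → w ∉ Zone μ a b →
        HypP (C w * num μ a + C v * den b) (num μ a + den b)) ∧
      (∀ v : ℂ, ‖v‖ ≤ L → v ∉ Zone μ a b → HypP (num μ a + C v * den b) (den b)) ∧
      volume {x : ℂ × ℂ | ‖x.1‖ ≤ L ∧ ‖x.2‖ ≤ L ∧ x.1 ≠ x.2 ∧
        ¬ HypP (C x.2 * num μ a + C x.1 * den b) (num μ a + den b)} ≤
        ENNReal.ofReal (K * (Real.log N / N)) ∧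
      (∀ v w : ℂ, ‖v‖ ≤ L → ‖w‖ ≤ L → v ≠ w → ∃ v' w' : ℂ, v' ≠ w' ∧
        ‖v' - v‖ ≤ K * (Real.log N / N) ∧ ‖w' - w‖ ≤ K * (Real.log N / N) ∧
        HypP (C w' * num μ a + C v' * den b) (num μ a + den b)) ∧
      ∀ v : ℂ, ‖v‖ ≤ L → ∃ v' : ℂ, ‖v' - v‖ ≤ K * (Real.log N / N) ∧
        HypP (num μ a + C v' * den b) (den b) := by
  have hτ0 : 0 < τ := hσ.trans hστ
  have hm : 0 < 1 - σ ^ 2 := by nlinarith
  set k₀ : ℝ := 64 / (1 - σ ^ 2) with hk₀
  have hk₀0 : 0 < k₀ := by positivity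
  set K₁ : ℝ := 18 * Real.pi * (τ⁻¹) ^ 2 * k₀ with hK₁
  have hK₁0 : 0 < K₁ := by positivity
  set K : ℝ := K₁ * (1 + 2 * (Real.pi * L ^ 2)) + 2 * k₀ * τ⁻¹ with hK
  have hK0 : 0 < K := by positivity
  refine ⟨K, hK0, ?_⟩
  have ev1 : ∀ᶠ N : ℕ in atTop, 4 ≤ (τ - σ) / 2 * (N : ℝ) := by
    have h1 : Tendsto (fun N : ℕ => (τ - σ) / 2 * (N : ℝ)) atTop atTop :=
      tendsto_natCast_atTop_atTop.const_mul_atTop (by linarith)
    exact h1.eventually_ge_atTop 4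
  have ev2 : ∀ᶠ N : ℕ in atTop, rt σ N < min 1 (τ / 2) :=
    (rt_tendsto σ).eventually (gt_mem_nhds (by positivity))
  obtain ⟨N₀, hN₀⟩ := eventually_atTop.1 (ev1.and (ev2.and (log_small.and
    ((sq_large (16 * (L + 1))).and ((sq_large (τ⁻¹ + (L + 1) + 1)).and (eventually_ge_atTop 4))))))
  refine ⟨N₀, fun N hN μ a b hμ h => ?_⟩
  obtain ⟨h1, h2, h3, h4, h5, h6⟩ := hN₀ N hN
  have hN2 : 2 ≤ N := by omega
  have hN0' : (0 : ℝ) < N := by
    have : 0 < N := by omega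
    exact_mod_cast this
  have hlog : 0 < Real.log N := Real.log_pos (by exact_mod_cast hN2)
  have hρ0 : 0 < Real.log N / N := by positivity
  have hrt : rt σ N = k₀ * (Real.log N / N) := rfl
  have hrt0 : 0 < rt σ N := by rw [hrt]; positivity
  have hrt1 : rt σ N ≤ 1 := (h2.trans_le (min_le_left _ _)).le
  have hrt2 : 2 * rt σ N * τ⁻¹ ≤ 1 := by
    have := (h2.trans_le (min_le_right _ _)).le
    rw [← div_eq_mul_inv, div_le_one hτ0]
    linarith
  have hdist : 2 * rt σ N * τ⁻¹ ≤ K * (Real.log N / N) := by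
    have e1 : 2 * rt σ N * τ⁻¹ = 2 * k₀ * τ⁻¹ * (Real.log N / N) := by rw [hrt]; ring
    rw [e1]
    gcongr
    rw [hK]
    have : 0 ≤ K₁ * (1 + 2 * (Real.pi * L ^ 2)) := by positivity
    linarith
  have harea : volume (Zone μ a b) ≤ ENNReal.ofReal (K₁ * (Real.log N / N)) := by
    refine (zone_area hσ hστ hτ1 hN2 h3 hrt1 h).trans_eq ?_
    congr 1
    rw [hrt, hK₁]
    ring
  have hA : ∀ v w : ℂ, ‖v‖ ≤ L + 1 → ‖w‖ ≤ L + 1 → v ≠ w → v ∉ Zone μ a b → w ∉ Zone μ a b →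
      HypP (C w * num μ a + C v * den b) (num μ a + den b) := fun v w hv hw hvw hvZ hwZ =>
    crit2 hσ hστ hτ1 hN2 h1 h4 h hμ hv hw hvw hvZ hwZ
  have hB : ∀ v : ℂ, ‖v‖ ≤ L + 1 → v ∉ Zone μ a b → HypP (num μ a + C v * den b) (den b) :=
    fun v hv hvZ => crit1 hσ hστ hτ1 h6 h1 h5 h hμ hv hvZ
  have hadd : ∀ v v' : ℂ, ‖v‖ ≤ L → ‖v' - v‖ ≤ 2 * rt σ N * τ⁻¹ → ‖v'‖ ≤ L + 1 := by
    intro v v' hv hv'
    have h7 := norm_add_le (v' - v) v
    rw [sub_add_cancel] at h7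
    linarith
  refine ⟨⟨fun z hz => zone_sub h hz, harea.trans (ENNReal.ofReal_le_ofReal ?_)⟩,
    fun v w hv hw => hA v w (by linarith) (by linarith), fun v hv => hB v (by linarith), ?_, ?_, ?_⟩
  · gcongr
    rw [hK]
    have h7 : 0 ≤ K₁ * (2 * (Real.pi * L ^ 2)) := by positivity
    have h8 : 0 ≤ 2 * k₀ * τ⁻¹ := by positivity
    linarith
  · have hsub : {x : ℂ × ℂ | ‖x.1‖ ≤ L ∧ ‖x.2‖ ≤ L ∧ x.1 ≠ x.2 ∧
        ¬ HypP (C x.2 * num μ a + C x.1 * den b) (num μ a + den b)} ⊆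
        (Zone μ a b ×ˢ closedBall (0 : ℂ) L) ∪ (closedBall (0 : ℂ) L ×ˢ Zone μ a b) := by
      rintro ⟨v, w⟩ ⟨hv, hw, hvw, hno⟩
      simp only at hv hw hvw hno
      by_cases hvZ : v ∈ Zone μ a b
      · exact Or.inl ⟨hvZ, mem_closedBall_zero_iff.2 hw⟩
      · by_cases hwZ : w ∈ Zone μ a b
        · exact Or.inr ⟨mem_closedBall_zero_iff.2 hv, hwZ⟩
        · exact absurd (hA v w (by linarith) (by linarith) hvw hvZ hwZ) hno
    refine (measure_mono hsub).trans ((measure_union_le _ _).trans ?_)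
    rw [Measure.volume_eq_prod, Measure.prod_prod, Measure.prod_prod, vol_disc L hL]
    calc volume (Zone μ a b) * ENNReal.ofReal (Real.pi * L ^ 2) +
        ENNReal.ofReal (Real.pi * L ^ 2) * volume (Zone μ a b) ≤
        ENNReal.ofReal (K₁ * (Real.log N / N)) * ENNReal.ofReal (Real.pi * L ^ 2) +
        ENNReal.ofReal (Real.pi * L ^ 2) * ENNReal.ofReal (K₁ * (Real.log N / N)) := by gcongr
      _ = ENNReal.ofReal (K₁ * (2 * (Real.pi * L ^ 2)) * (Real.log N / N)) := by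
          rw [← ENNReal.ofReal_mul (by positivity), ← ENNReal.ofReal_mul (by positivity),
            ← ENNReal.ofReal_add (by positivity) (by positivity)]
          congr 1
          ring
      _ ≤ _ := by
          refine ENNReal.ofReal_le_ofReal ?_
          gcongr
          rw [hK]
          have h8 : 0 ≤ 2 * k₀ * τ⁻¹ := by positivity
          linarith
  · intro v w hv hw hvw
    obtain ⟨w', hw1, hw2, hw3⟩ := nearby hσ hστ hτ1 hN2 h3 h hvw
    obtain ⟨v', hv1, hv2, hv3⟩ := nearby hσ hστ hτ1 hN2 h3 h (v := v) (u := w') hw3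
    exact ⟨v', w', hv3, hv2.trans hdist, hw2.trans hdist,
      hA v' w' (hadd v v' hv hv2) (hadd w w' hw hw2) hv3 hv1 hw1⟩
  · intro v hv
    obtain ⟨v', hv1, hv2, -⟩ := nearby hσ hστ hτ1 hN2 h3 h (v := v) (u := v + 1)
      (by simp)
    exact ⟨v', hv2.trans hdist, hB v' (hadd v v' hv hv2) hv1⟩

/-- the separation hypothesis holds for zeros and poles in and off small discs -/
theorem explicit {σ κ : ℝ} (hσ : 0 < σ) (hκ0 : 0 ≤ κ) (hκ : Real.exp κ * (2 * σ) < 1 - σ ^ 2) :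
    ∃ τ : ℝ, σ < τ ∧ τ < 1 ∧ ∃ N₁ : ℕ, ∀ N : ℕ, N₁ ≤ N → ∀ (μ : ℂ) (a b : Fin N → ℂ),
      (∀ i, ‖a i‖ ≤ σ) → (∀ i, ‖b i‖ ≤ σ) → Real.exp (-(κ * N)) ≤ ‖μ‖ →
      ‖μ‖ ≤ Real.exp (κ * N) → Sep σ τ μ a b := by
  set e : ℝ := Real.exp κ with he
  have he1 : 1 ≤ e := Real.one_le_exp hκ0
  have he0 : 0 < e := Real.exp_pos κ
  set f : ℝ := 1 - σ ^ 2 - e * (2 * σ) with hf
  have hf0 : 0 < f := by linarith
  set t : ℝ := f / (2 * (σ + e)) with ht
  have hse : 0 < σ + e := by positivity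
  have ht0 : 0 < t := by positivity
  have htf : t * (σ + e) = f / 2 := by rw [ht]; field_simp
  set τ : ℝ := σ + t with hτ
  have hστ : σ < τ := by linarith
  have hτ0 : 0 < τ := by linarith
  have h1 : e * (σ + τ) < 1 - σ * τ := by
    have : 1 - σ * τ - e * (σ + τ) = f - t * (σ + e) := by rw [hτ, hf]; ring
    linarith
  have hden : 0 < 1 - σ * τ := by
    have : 0 < e * (σ + τ) := by positivity
    linarith
  have hτ1 : τ < 1 := by
    have h2 : σ + τ ≤ e * (σ + τ) := le_mul_of_one_le_left (by positivity) he1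
    have h3 : 0 < σ * τ := by positivity
    linarith
  set q : ℝ := e * (σ + τ) / (1 - σ * τ) with hq
  have hq0 : 0 < q := by positivity
  have hq1 : q < 1 := by rw [hq, div_lt_one hden]; exact h1
  have hlim := tendsto_pow_const_mul_const_pow_of_abs_lt_one 4
    (show |q| < 1 by rw [abs_of_pos hq0]; exact hq1)
  obtain ⟨N₁, hN₁⟩ := eventually_atTop.1 (hlim.eventually (gt_mem_nhds (zero_lt_one : (0 : ℝ) < 1)))
  refine ⟨τ, hστ, hτ1, N₁, fun N hN μ a b ha hb hμ1 hμ2 => ?_⟩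
  have hqN : (N : ℝ) ^ 4 * q ^ N ≤ 1 := (hN₁ N hN).le
  have hqp : q ^ N * (1 - σ * τ) ^ N = Real.exp (κ * N) * (σ + τ) ^ N := by
    rw [← mul_pow, hq, div_mul_cancel₀ _ hden.ne', mul_pow, he, ← Real.exp_nat_mul, mul_comm κ]
  have hstN : 0 < (1 - σ * τ) ^ N := by positivity
  have hN4 : (0 : ℝ) ≤ (N : ℝ) ^ 4 := by positivity
  refine ⟨ha, hb, fun z hz => ?_, fun z hz => ?_⟩
  · rw [num_eval, den_eval, norm_mul, norm_prod, norm_prod]
    have c1 : ∏ i : Fin N, ‖z - a i‖ ≤ (σ + τ) ^ N := by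
      calc ∏ i : Fin N, ‖z - a i‖ ≤ ∏ _i : Fin N, (σ + τ) := by
            refine Finset.prod_le_prod (fun i _ => norm_nonneg _) fun i _ => ?_
            have := norm_sub_le z (a i)
            have := ha i
            linarith
        _ = _ := by simp
    have c2 : (1 - σ * τ) ^ N ≤ ∏ i : Fin N, ‖1 - b i * z‖ := by
      calc (1 - σ * τ) ^ N = ∏ _i : Fin N, (1 - σ * τ) := by simp
        _ ≤ _ := by
            refine Finset.prod_le_prod (fun i _ => hden.le) fun i _ => ?_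
            have h3 := norm_sub_norm_le (1 : ℂ) (b i * z)
            rw [norm_one, norm_mul] at h3
            have h4 : ‖b i‖ * ‖z‖ ≤ σ * τ := mul_le_mul (hb i) hz (norm_nonneg _) hσ.le
            linarith
    have hpr : 0 ≤ ∏ i : Fin N, ‖z - a i‖ := Finset.prod_nonneg fun i _ => norm_nonneg _
    calc (N : ℝ) ^ 4 * (‖μ‖ * ∏ i : Fin N, ‖z - a i‖) ≤
        (N : ℝ) ^ 4 * (Real.exp (κ * N) * (σ + τ) ^ N) := by gcongr
      _ = (N : ℝ) ^ 4 * q ^ N * (1 - σ * τ) ^ N := by rw [mul_assoc, hqp]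
      _ ≤ 1 * (1 - σ * τ) ^ N := by gcongr
      _ = (1 - σ * τ) ^ N := one_mul _
      _ ≤ _ := c2
  · rw [num_eval, den_eval, norm_mul, norm_prod, norm_prod]
    have hzτ : 1 ≤ τ * ‖z‖ := by
      have := mul_le_mul_of_nonneg_left hz hτ0.le
      rwa [mul_inv_cancel₀ hτ0.ne'] at this
    have c1 : (1 - σ * τ) ^ N * ∏ i : Fin N, ‖1 - b i * z‖ ≤
        (σ + τ) ^ N * ∏ i : Fin N, ‖z - a i‖ := by
      have e1 : (1 - σ * τ) ^ N * ∏ i : Fin N, ‖1 - b i * z‖ =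
          ∏ i : Fin N, ((1 - σ * τ) * ‖1 - b i * z‖) := by
        rw [Finset.prod_mul_distrib]; simp
      have e2 : (σ + τ) ^ N * ∏ i : Fin N, ‖z - a i‖ =
          ∏ i : Fin N, ((σ + τ) * ‖z - a i‖) := by
        rw [Finset.prod_mul_distrib]; simp
      rw [e1, e2]
      refine Finset.prod_le_prod (fun i _ => mul_nonneg hden.le (norm_nonneg _)) fun i _ => ?_
      have h3 : ‖1 - b i * z‖ ≤ 1 + σ * ‖z‖ := by
        refine (norm_sub_le _ _).trans ?_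
        rw [norm_one, norm_mul]
        have := mul_le_mul_of_nonneg_right (hb i) (norm_nonneg z)
        linarith
      have h4 : ‖z‖ - σ ≤ ‖z - a i‖ := by
        have h5 := norm_sub_norm_le z (a i)
        have := ha i
        linarith
      calc (1 - σ * τ) * ‖1 - b i * z‖ ≤ (1 - σ * τ) * (1 + σ * ‖z‖) := by gcongr
        _ ≤ (σ + τ) * (‖z‖ - σ) := by
            have e3 : (σ + τ) * (‖z‖ - σ) - (1 - σ * τ) * (1 + σ * ‖z‖) =
                (1 + σ ^ 2) * (τ * ‖z‖ - 1) := by ring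
            have h6 : 0 ≤ (1 + σ ^ 2) * (τ * ‖z‖ - 1) := by
              have : 0 ≤ τ * ‖z‖ - 1 := by linarith
              positivity
            linarith
        _ ≤ (σ + τ) * ‖z - a i‖ := by gcongr
    have c2 : 1 ≤ Real.exp (κ * N) * ‖μ‖ := by
      have h3 := mul_le_mul_of_nonneg_left hμ1 (Real.exp_pos (κ * N)).le
      rwa [← Real.exp_add, add_neg_cancel, Real.exp_zero] at h3
    have hpr : 0 ≤ ∏ i : Fin N, ‖z - a i‖ := Finset.prod_nonneg fun i _ => norm_nonneg _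
    have c3 : (1 - σ * τ) ^ N * ((N : ℝ) ^ 4 * ∏ i : Fin N, ‖1 - b i * z‖) ≤
        (1 - σ * τ) ^ N * (‖μ‖ * ∏ i : Fin N, ‖z - a i‖) := by
      calc (1 - σ * τ) ^ N * ((N : ℝ) ^ 4 * ∏ i : Fin N, ‖1 - b i * z‖) =
          (N : ℝ) ^ 4 * ((1 - σ * τ) ^ N * ∏ i : Fin N, ‖1 - b i * z‖) := by ring
        _ ≤ (N : ℝ) ^ 4 * ((σ + τ) ^ N * ∏ i : Fin N, ‖z - a i‖) := by gcongr
        _ = (N : ℝ) ^ 4 * (1 * ((σ + τ) ^ N * ∏ i : Fin N, ‖z - a i‖)) := by rw [one_mul]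
        _ ≤ (N : ℝ) ^ 4 * ((Real.exp (κ * N) * ‖μ‖) *
            ((σ + τ) ^ N * ∏ i : Fin N, ‖z - a i‖)) := by gcongr
        _ = (N : ℝ) ^ 4 * (Real.exp (κ * N) * (σ + τ) ^ N) *
            (‖μ‖ * ∏ i : Fin N, ‖z - a i‖) := by ring
        _ = ((N : ℝ) ^ 4 * q ^ N) * ((1 - σ * τ) ^ N * (‖μ‖ * ∏ i : Fin N, ‖z - a i‖)) := by
            rw [← hqp]; ring
        _ ≤ 1 * ((1 - σ * τ) ^ N * (‖μ‖ * ∏ i : Fin N, ‖z - a i‖)) := by gcongr
        _ = _ := one_mul _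
    exact le_of_mul_le_mul_left c3 hstN

end Pool.Agent.U1.HD
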