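import Mathlib
import Pool.Agent.U1.HD.Sph

/-! The trapping argument for general rational maps `(w P + v Q) / (P + Q)`. -/

set_option autoImplicit false

open Topology Filter Metric Set Polynomial
open scoped OnePoint
open Pool.Agent.H790R3.RB (CV hF ND sp pol hc pr)
open Pool.Agent.H790R3.RB.SP (pr_zero pr_ne pr_eq_iff pr_hc sp_pr sp_cont)
open Pool.Agent.H790R3.RB.PQ (hF_one hF_inf part1 sp_eval pol_natDegree)
open Pool.Agent.R239.Fat

namespace Pool.Agent.U1.HD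

/-- The dynamics: all critical points of `P / Q` have a small or a large value, and the value is
small or large on two discs around `v` and `w`. -/
theorem trapG {N : ℕ} (hN : 1 ≤ N) {P Q : ℂ[X]} (hPQ : IsCoprime P Q)
    (hd : max P.natDegree Q.natDegree = N) {v w : ℂ} (hvw : v ≠ w) {η r : ℝ} (hη0 : 0 ≤ η)
    (hη : η < 1) (hr : 0 < r) (hηr : ‖w - v‖ * η ≤ (r / 2) * (1 - η))
    (hinf : ‖P.coeff N‖ ≤ η * ‖Q.coeff N‖ ∨ ‖Q.coeff N‖ ≤ η * ‖P.coeff N‖)
    (hcr : ∀ c : ℂ, Q.eval c ≠ 0 → (derivative P * Q - P * derivative Q).eval c = 0 →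
      ‖P.eval c‖ ≤ η * ‖Q.eval c‖ ∨ ‖Q.eval c‖ ≤ η * ‖P.eval c‖)
    (hv : ∀ z ∈ ball v r, ‖P.eval z‖ ≤ η * ‖Q.eval z‖ ∨ ‖Q.eval z‖ ≤ η * ‖P.eval z‖)
    (hw : ∀ z ∈ ball w r, ‖P.eval z‖ ≤ η * ‖Q.eval z‖ ∨ ‖Q.eval z‖ ≤ η * ‖P.eval z‖) :
    IsCoprime (C w * P + C v * Q) (P + Q) ∧ ∃ g : Sph → Sph, Continuous g ∧
      (∀ z : ℂ, (P + Q).eval z ≠ 0 →
        g (z : Sph) = (((C w * P + C v * Q).eval z / (P + Q).eval z : ℂ) : Sph)) ∧ Hyp g := by
  have hvw' : w - v ≠ 0 := sub_ne_zero.2 hvw.symm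
  constructor
  · obtain ⟨a, b, hab⟩ := hPQ
    refine ⟨C (w - v)⁻¹ * (a - b), C (w - v)⁻¹ * (C w * b - C v * a), ?_⟩
    have h1 : (C (w - v)⁻¹ : ℂ[X]) * (C w - C v) = 1 := by
      rw [← C_sub, ← C_mul, inv_mul_cancel₀ hvw', C_1]
    calc C (w - v)⁻¹ * (a - b) * (C w * P + C v * Q) +
        C (w - v)⁻¹ * (C w * b - C v * a) * (P + Q) =
        (C (w - v)⁻¹ * (C w - C v)) * (a * P + b * Q) := by ring
      _ = 1 := by rw [h1, hab, one_mul]
  obtain ⟨x, hx, hx0, hx1, -⟩ :=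
    (Pool.Agent.H790R3.RB.PQ Pool.Agent.H790R3.RB.SP N hN).2 P Q hPQ hd
  have hdet : w * 1 - v * 1 ≠ 0 := by simpa using hvw'
  set g : Sph → Sph := mob w v 1 1 ∘ sp x with hg
  have hsp : Hol (sp x) := hol_sp hN hx
  have hgh : Hol g := hsp.comp (hol_mob hdet)
  have hval : ∀ p : ℂ × ℂ, p ≠ 0 → g (pr p) =
      pr (w * (hF x p).1 + v * (hF x p).2, 1 * (hF x p).1 + 1 * (hF x p).2) := by
    intro p hp
    have h1 : hF x p ≠ 0 := fun h => hp (hx p h)
    show mob w v 1 1 (sp x (pr p)) = _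
    rw [sp_pr hx hp, mob_pr hdet h1]
  have hvalz : ∀ z : ℂ, g (z : Sph) =
      pr (w * P.eval z + v * Q.eval z, 1 * P.eval z + 1 * Q.eval z) := by
    intro z
    rw [← pr_coe z, hval _ (coe_ne z), hF_one, hx0, hx1]
  have hvali : g ∞ = pr (w * P.coeff N + v * Q.coeff N, 1 * P.coeff N + 1 * Q.coeff N) := by
    rw [← pr_inf, hval _ (inf_ne 0), hF_inf, hx0, hx1]
  have hnz : ∀ z : ℂ, ((P.eval z, Q.eval z) : ℂ × ℂ) ≠ 0 := by
    intro z h
    have h1 := hx (z, 1) (by rw [hF_one, hx0, hx1]; exact h)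
    exact coe_ne z h1
  have hni : ((P.coeff N, Q.coeff N) : ℂ × ℂ) ≠ 0 := by
    intro h
    have h1 := hx (1, 0) (by rw [hF_inf, hx0, hx1]; exact h)
    exact inf_ne 0 h1
  set W : Set ℂ := ball v r ∪ ball w r with hW
  have hWo : IsOpen W := isOpen_ball.union isOpen_ball
  have hr2 : 0 < r / 2 := by positivity
  have hgood : ∀ p q : ℂ, ((p, q) : ℂ × ℂ) ≠ 0 → (‖p‖ ≤ η * ‖q‖ ∨ ‖q‖ ≤ η * ‖p‖) →
      ∃ u : ℂ, pr (w * p + v * q, 1 * p + 1 * q) = (u : Sph) ∧ ball u (r / 2) ⊆ W := by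
    intro p q hpq h
    obtain ⟨u, hu, h1 | h1⟩ := near_of hη0 hη hηr hpq h
    · refine ⟨u, hu, fun y hy => Or.inl ?_⟩
      rw [mem_ball, dist_eq_norm] at hy ⊢
      have h2 := norm_add_le (y - u) (u - v)
      rw [sub_add_sub_cancel] at h2
      linarith
    · refine ⟨u, hu, fun y hy => Or.inr ?_⟩
      rw [mem_ball, dist_eq_norm] at hy ⊢
      have h2 := norm_add_le (y - u) (u - w)
      rw [sub_add_sub_cancel] at h2
      linarith
  have hWg : ∀ z ∈ W, ∃ u : ℂ, g (z : Sph) = (u : Sph) ∧ ball u (r / 2) ⊆ W := by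
    intro z hz
    rw [hvalz z]
    exact hgood _ _ (hnz z) (hz.elim (hv z) (hw z))
  have hWb : ∀ z ∈ W, ‖z‖ ≤ ‖v‖ + ‖w‖ + r := by
    rintro z (hz | hz)
    · rw [mem_ball, dist_eq_norm] at hz
      have h2 := norm_add_le (z - v) v
      rw [sub_add_cancel] at h2
      have := norm_nonneg w
      linarith
    · rw [mem_ball, dist_eq_norm] at hz
      have h2 := norm_add_le (z - w) w
      rw [sub_add_cancel] at h2
      have := norm_nonneg v
      linarith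
  have hR : 0 < ‖v‖ + ‖w‖ + r := by positivity
  have hatt : ∀ z ∈ W, Att g (z : Sph) := fun z hz => sph_att hgh hWo hR hWb hr2 hWg hz
  have hatt' : ∀ (c : Sph) (p q : ℂ), ((p, q) : ℂ × ℂ) ≠ 0 → (‖p‖ ≤ η * ‖q‖ ∨ ‖q‖ ≤ η * ‖p‖) →
      g c = pr (w * p + v * q, 1 * p + 1 * q) → Att g c := by
    intro c p q hpq h hc
    obtain ⟨u, hu, hu2⟩ := hgood p q hpq h
    apply att_of_iter hgh.cont (m := 1)
    rw [Function.iterate_one, hc, hu]
    exact hatt u (hu2 (mem_ball_self hr2))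
  refine ⟨g, hgh.cont, ?_, ?_⟩
  · intro z hz
    rw [hvalz z, pr_ne]
    · simp
    · simpa using hz
  · intro c hc
    induction c using OnePoint.rec with
    | infty => exact hatt' ∞ _ _ hni hinf hvali
    | coe z =>
      by_cases h1 : Q.eval z = 0
      · refine hatt' _ _ _ (hnz z) (Or.inr ?_) (hvalz z)
        rw [h1, norm_zero]
        positivity
      by_cases h2 : (derivative P * Q - P * derivative Q).eval z = 0
      · exact hatt' _ _ _ (hnz z) (hcr z h1 h2) (hvalz z)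
      exfalso
      apply hc
      refine locInj_comp hsp.cont (locInj_of ?_ ?_) (locInj_of_injective
        (mobH w v 1 1 hdet).injective _)
      · rw [hx1]; exact h1
      · rw [hx0, hx1]; exact h2

end Pool.Agent.U1.HD
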