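import Mathlib
import Pool.Agent.N229.RL.Area
import Pool.Agent.U1.HD.TrapG
import Pool.Agent.U1.HD.Main

/-! Transverse rational maps. -/

set_option autoImplicit false

open Polynomial Finset Metric Filter Topology MeasureTheory
open scoped OnePoint

namespace Pool.Agent.U1.HD

/-- the logarithmic derivative of `P / Q` -/
noncomputable def logDer (P Q : ℂ[X]) (z : ℂ) : ℂ :=
  (derivative P).eval z / P.eval z - (derivative Q).eval z / Q.eval z

/-- `P / Q` is a rational map of degree `N`, and at each point of the sphere the logarithm of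
`|P / Q|` or its (spherical) gradient is at least `δ N` in absolute value -/
structure Transverse (δ : ℝ) (N : ℕ) (P Q : ℂ[X]) : Prop where
  coprime : IsCoprime P Q
  degree : max P.natDegree Q.natDegree = N
  finite : ∀ z : ℂ, P.eval z ≠ 0 → Q.eval z ≠ 0 →
    δ * N ≤ |Real.log (‖P.eval z‖ / ‖Q.eval z‖)| ∨ δ * N ≤ (1 + ‖z‖ ^ 2) * ‖logDer P Q z‖
  infinity : P.coeff N = 0 ∨ Q.coeff N = 0 ∨
    δ * N ≤ |Real.log (‖P.coeff N‖ / ‖Q.coeff N‖)|

/-- `|P / Q|` is neither small nor large -/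
def Mid (N : ℕ) (P Q : ℂ[X]) : Set ℂ :=
  {z | ‖Q.eval z‖ < (N : ℝ) ^ 6 * ‖P.eval z‖ ∧ ‖P.eval z‖ < (N : ℝ) ^ 6 * ‖Q.eval z‖}

/-- small discs around the zeros and poles -/
def Near (N : ℕ) (P Q : ℂ[X]) : Set ℂ :=
  ⋃ y ∈ P.roots.toFinset ∪ Q.roots.toFinset, ball y ((N : ℝ) ^ 2)⁻¹

variable {N : ℕ} {P Q : ℂ[X]} {δ L : ℝ}

theorem mset_comp (s : Multiset ℂ) {v z : ℂ} {ρ t : ℝ} (ht0 : 0 ≤ t) (ht1 : t ≤ 1)
    (hz : ‖z - v‖ ≤ t * ρ) (hs : ∀ y ∈ s, ρ ≤ ‖v - y‖) :
    (1 - t) ^ Multiset.card s * ‖(s.map fun y => v - y).prod‖ ≤ ‖(s.map fun y => z - y).prod‖ ∧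
    ‖(s.map fun y => z - y).prod‖ ≤ (1 + t) ^ Multiset.card s * ‖(s.map fun y => v - y).prod‖ := by
  induction s using Multiset.induction_on with
  | empty => simp
  | cons y s ih =>
    obtain ⟨h1, h2⟩ := ih fun x hx => hs x (Multiset.mem_cons_of_mem hx)
    have h3 := hs y (Multiset.mem_cons_self y s)
    have h4 : ‖z - v‖ ≤ t * ‖v - y‖ := hz.trans (by gcongr)
    have h5 := norm_add_le (z - v) (v - y)
    have h6 := norm_add_le (v - z) (z - y)
    rw [sub_add_sub_cancel] at h5 h6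
    rw [norm_sub_rev v z] at h6
    have h7 : (1 - t) * ‖v - y‖ ≤ ‖z - y‖ := by linarith
    have h8 : ‖z - y‖ ≤ (1 + t) * ‖v - y‖ := by linarith
    have h9 : 0 ≤ (1 - t) := by linarith
    rw [Multiset.card_cons, Multiset.map_cons, Multiset.map_cons, Multiset.prod_cons,
      Multiset.prod_cons, norm_mul, norm_mul, pow_succ, pow_succ]
    constructor
    · calc (1 - t) ^ Multiset.card s * (1 - t) * (‖v - y‖ * ‖(s.map fun y => v - y).prod‖) =
          ((1 - t) * ‖v - y‖) * ((1 - t) ^ Multiset.card s * ‖(s.map fun y => v - y).prod‖) := by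
            ring
        _ ≤ ‖z - y‖ * ‖(s.map fun y => z - y).prod‖ := by gcongr
    · calc ‖z - y‖ * ‖(s.map fun y => z - y).prod‖ ≤
          ((1 + t) * ‖v - y‖) * ((1 + t) ^ Multiset.card s * ‖(s.map fun y => v - y).prod‖) := by
            gcongr
        _ = _ := by ring

theorem eval_comp (hP : P.natDegree ≤ N) {v z : ℂ} {ρ t : ℝ} (ht0 : 0 ≤ t) (ht1 : t ≤ 1)
    (hz : ‖z - v‖ ≤ t * ρ) (hs : ∀ y ∈ P.roots, ρ ≤ ‖v - y‖) :
    (1 - t) ^ N * ‖P.eval v‖ ≤ ‖P.eval z‖ ∧ ‖P.eval z‖ ≤ (1 + t) ^ N * ‖P.eval v‖ := by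
  have hsp : P.Splits := IsAlgClosed.splits P
  obtain ⟨h1, h2⟩ := mset_comp P.roots ht0 ht1 hz hs
  rw [hsp.eval_eq_prod_roots v, hsp.eval_eq_prod_roots z, norm_mul, norm_mul]
  have hc : Multiset.card P.roots ≤ N := (card_roots' P).trans hP
  have h9 : 0 ≤ (1 - t) := by linarith
  constructor
  · calc (1 - t) ^ N * (‖P.leadingCoeff‖ * ‖(P.roots.map fun y => v - y).prod‖) ≤
        (1 - t) ^ Multiset.card P.roots *
          (‖P.leadingCoeff‖ * ‖(P.roots.map fun y => v - y).prod‖) := by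
          gcongr ?_ * _
          exact pow_le_pow_of_le_one h9 (by linarith) hc
      _ = ‖P.leadingCoeff‖ * ((1 - t) ^ Multiset.card P.roots *
          ‖(P.roots.map fun y => v - y).prod‖) := by ring
      _ ≤ _ := by gcongr
  · calc ‖P.leadingCoeff‖ * ‖(P.roots.map fun y => z - y).prod‖ ≤
        ‖P.leadingCoeff‖ * ((1 + t) ^ Multiset.card P.roots *
          ‖(P.roots.map fun y => v - y).prod‖) := by gcongr
      _ = (1 + t) ^ Multiset.card P.roots *
          (‖P.leadingCoeff‖ * ‖(P.roots.map fun y => v - y).prod‖) := by ring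
      _ ≤ _ := by
          gcongr ?_ * _
          exact pow_le_pow_right₀ (by linarith) hc

theorem spreadG (hN : 4 ≤ N) (hP0 : P ≠ 0) (hQ0 : Q ≠ 0) (hP : P.natDegree ≤ N)
    (hQ : Q.natDegree ≤ N) {v : ℂ} (hv : v ∉ Mid N P Q) (hv' : v ∉ Near N P Q) :
    ∀ z ∈ ball v ((N : ℝ) ^ 4)⁻¹, (N : ℝ) ^ 6 * ‖P.eval z‖ ≤ 2 * ‖Q.eval z‖ ∨
      (N : ℝ) ^ 6 * ‖Q.eval z‖ ≤ 2 * ‖P.eval z‖ := by
  intro z hz
  have hNr : (4 : ℝ) ≤ N := by exact_mod_cast hN
  set t : ℝ := ((N : ℝ) ^ 2)⁻¹ with ht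
  have ht0 : 0 < t := by positivity
  have ht1 : t ≤ 1 := inv_le_one_of_one_le₀ (by nlinarith)
  have hNt : N * t ≤ 1 / 4 := by
    have e1 : N * t = (N : ℝ)⁻¹ := by
      rw [ht]
      have : (N : ℝ) ≠ 0 := by positivity
      field_simp
    rw [e1, inv_le_comm₀ (by positivity) (by norm_num)]
    norm_num
    exact hN
  have hzv : ‖z - v‖ ≤ t * t := by
    rw [mem_ball, dist_eq_norm] at hz
    have e1 : t * t = ((N : ℝ) ^ 4)⁻¹ := by rw [ht, ← mul_inv, ← pow_add]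
    rw [e1]
    exact hz.le
  have hnear : ∀ y, y ∈ P.roots ∨ y ∈ Q.roots → t ≤ ‖v - y‖ := by
    intro y hy
    by_contra hc
    push Not at hc
    apply hv'
    unfold Near
    simp only [Set.mem_iUnion]
    refine ⟨y, ?_, ?_⟩
    · rw [Finset.mem_union, Multiset.mem_toFinset, Multiset.mem_toFinset]
      exact hy
    · rw [mem_ball, dist_eq_norm]
      exact hc
  obtain ⟨p1, p2⟩ := eval_comp hP ht0.le ht1 hzv fun y hy => hnear y (Or.inl hy)
  obtain ⟨q1, q2⟩ := eval_comp hQ ht0.le ht1 hzv fun y hy => hnear y (Or.inr hy)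
  have hpow := pow_two_le ht0.le hNt ht1
  have hN6 : (0 : ℝ) ≤ (N : ℝ) ^ 6 := by positivity
  have hT0 : 0 ≤ (1 + t) ^ N := by positivity
  have hcase : (N : ℝ) ^ 6 * ‖P.eval v‖ ≤ ‖Q.eval v‖ ∨ (N : ℝ) ^ 6 * ‖Q.eval v‖ ≤ ‖P.eval v‖ := by
    by_contra hcon
    push Not at hcon
    exact hv ⟨hcon.1, hcon.2⟩
  rcases hcase with h3 | h3
  · left
    calc (N : ℝ) ^ 6 * ‖P.eval z‖ ≤ (N : ℝ) ^ 6 * ((1 + t) ^ N * ‖P.eval v‖) := by gcongr
      _ = (1 + t) ^ N * ((N : ℝ) ^ 6 * ‖P.eval v‖) := by ring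
      _ ≤ (1 + t) ^ N * ‖Q.eval v‖ := by gcongr
      _ ≤ (2 * (1 - t) ^ N) * ‖Q.eval v‖ := by gcongr
      _ = 2 * ((1 - t) ^ N * ‖Q.eval v‖) := by ring
      _ ≤ 2 * ‖Q.eval z‖ := by gcongr
  · right
    calc (N : ℝ) ^ 6 * ‖Q.eval z‖ ≤ (N : ℝ) ^ 6 * ((1 + t) ^ N * ‖Q.eval v‖) := by gcongr
      _ = (1 + t) ^ N * ((N : ℝ) ^ 6 * ‖Q.eval v‖) := by ring
      _ ≤ (1 + t) ^ N * ‖P.eval v‖ := by gcongr
      _ ≤ (2 * (1 - t) ^ N) * ‖P.eval v‖ := by gcongr
      _ = 2 * ((1 - t) ^ N * ‖P.eval v‖) := by ring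
      _ ≤ 2 * ‖P.eval z‖ := by gcongr

theorem le_eta6 {N : ℕ} (hN : 0 < N) {x y : ℝ} (h : (N : ℝ) ^ 6 * x ≤ 2 * y) :
    x ≤ 2 / (N : ℝ) ^ 6 * y := by
  have h1 : (0 : ℝ) < (N : ℝ) ^ 6 := by positivity
  rw [div_mul_eq_mul_div, le_div_iff₀ h1, mul_comm]
  exact h

/-- a large logarithm means a small or a large quotient -/
theorem of_log (hN : 1 ≤ N) (hl : 6 * Real.log N ≤ δ * N) {x y : ℝ} (hx : 0 < x) (hy : 0 < y)
    (h : δ * N ≤ |Real.log (x / y)|) : (N : ℝ) ^ 6 * x ≤ y ∨ (N : ℝ) ^ 6 * y ≤ x := by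
  have hN0 : (0 : ℝ) < N := by exact_mod_cast hN
  have h1 : 6 * Real.log N = Real.log ((N : ℝ) ^ 6) := by rw [Real.log_pow]; norm_num
  have h6 : (0 : ℝ) < (N : ℝ) ^ 6 := by positivity
  rcases le_abs.1 (hl.trans h) with h2 | h2
  · right
    rw [h1, Real.log_div hx.ne' hy.ne'] at h2
    have h3 : Real.log ((N : ℝ) ^ 6 * y) ≤ Real.log x := by
      rw [Real.log_mul h6.ne' hy.ne']; linarith
    exact (Real.log_le_log_iff (by positivity) hx).1 h3
  · left
    rw [h1, Real.log_div hx.ne' hy.ne'] at h2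
    have h3 : Real.log ((N : ℝ) ^ 6 * x) ≤ Real.log y := by
      rw [Real.log_mul h6.ne' hx.ne']; linarith
    exact (Real.log_le_log_iff (by positivity) hy).1 h3

theorem critG (hN : 4 ≤ N) (hl : 6 * Real.log N ≤ δ * N) (h2 : 16 * L ≤ (N : ℝ) ^ 2)
    (h : Transverse δ N P Q) {v w : ℂ} (hv : ‖v‖ ≤ L) (hw : ‖w‖ ≤ L) (hvw : v ≠ w)
    (hvM : v ∉ Mid N P Q) (hwM : w ∉ Mid N P Q) (hvN : v ∉ Near N P Q) (hwN : w ∉ Near N P Q) :
    HypP (C w * P + C v * Q) (P + Q) := by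
  have hN0 : 0 < N := by omega
  have hNr : (4 : ℝ) ≤ N := by exact_mod_cast hN
  have hP : P.natDegree ≤ N := (le_max_left _ _).trans h.degree.le
  have hQ : Q.natDegree ≤ N := (le_max_right _ _).trans h.degree.le
  have hP0 : P ≠ 0 := by
    intro h0
    have h1 := h.coprime
    rw [h0] at h1
    have h2 := natDegree_eq_zero_of_isUnit (isCoprime_zero_left.1 h1)
    have h3 := h.degree
    rw [h0, h2] at h3
    simp at h3
    omega
  have hQ0 : Q ≠ 0 := by
    intro h0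
    have h1 := h.coprime
    rw [h0] at h1
    have h2 := natDegree_eq_zero_of_isUnit (isCoprime_zero_right.1 h1)
    have h3 := h.degree
    rw [h0, h2] at h3
    simp at h3
    omega
  set r : ℝ := ((N : ℝ) ^ 4)⁻¹ with hr
  set η : ℝ := 2 / (N : ℝ) ^ 6 with hη
  have hr0 : 0 < r := by positivity
  have hN2 : (16 : ℝ) ≤ (N : ℝ) ^ 2 := by nlinarith
  set u : ℝ := ((N : ℝ) ^ 2)⁻¹ with hu
  have hu0 : 0 < u := by positivity
  have hu16 : u ≤ 1 / 16 := by
    rw [hu, inv_le_comm₀ (by positivity) (by norm_num)]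
    norm_num
    exact hN2
  have hru : r = u ^ 2 := by rw [hr, hu, inv_pow, ← pow_mul]
  have hηr : η = 2 * u * r := by
    rw [hη, hr, hu]
    field_simp
  have hη1 : η ≤ 1 / 2 := by rw [hηr, hru]; nlinarith [mul_pos hu0 hu0]
  refine trapG (by omega : 1 ≤ N) h.coprime h.degree hvw (η := η) (r := r) (by positivity)
    (by linarith) hr0 ?_ ?_ ?_ ?_ ?_
  · have h3 : ‖w - v‖ ≤ 2 * L := (norm_sub_le _ _).trans (by linarith)
    have h4 : 16 * L * u ≤ 1 := by
      have := mul_le_mul_of_nonneg_right h2 hu0.le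
      rwa [hu, mul_inv_cancel₀ (by positivity)] at this
    have h5 : ‖w - v‖ * η ≤ 2 * L * η := by gcongr
    have h7 : 2 * L * η = (16 * L * u) * (r / 4) := by rw [hηr]; ring
    have h8 : (16 * L * u) * (r / 4) ≤ 1 * (r / 4) := by gcongr
    nlinarith
  · rcases h.infinity with h3 | h3 | h3
    · left
      rw [h3, norm_zero]
      positivity
    · right
      rw [h3, norm_zero]
      positivity
    · by_cases h4 : P.coeff N = 0
      · left
        rw [h4, norm_zero]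
        positivity
      by_cases h5 : Q.coeff N = 0
      · right
        rw [h5, norm_zero]
        positivity
      have h6 := of_log (by omega : 1 ≤ N) hl (norm_pos_iff.2 h4) (norm_pos_iff.2 h5) h3
      refine h6.imp (fun h7 => le_eta6 hN0 ?_) fun h7 => le_eta6 hN0 ?_
      · have := norm_nonneg (Q.coeff N)
        linarith
      · have := norm_nonneg (P.coeff N)
        linarith
  · intro c hc1 hc2
    by_cases h4 : P.eval c = 0
    · left
      rw [h4, norm_zero]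
      positivity
    have h5 : logDer P Q c = 0 := by
      unfold logDer
      rw [eval_sub, eval_mul, eval_mul] at hc2
      rw [div_sub_div _ _ h4 hc1]
      have : (derivative P).eval c * Q.eval c - P.eval c * (derivative Q).eval c = 0 := hc2
      rw [this, zero_div]
    rcases h.finite c h4 hc1 with h6 | h6
    · have h7 := of_log (by omega : 1 ≤ N) hl (norm_pos_iff.2 h4) (norm_pos_iff.2 hc1) h6
      refine h7.imp (fun h7 => le_eta6 hN0 ?_) fun h7 => le_eta6 hN0 ?_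
      · have := norm_nonneg (Q.eval c)
        linarith
      · have := norm_nonneg (P.eval c)
        linarith
    · exfalso
      rw [h5, norm_zero, mul_zero] at h6
      have : 0 < Real.log N := Real.log_pos (by linarith)
      linarith
  · intro z hz
    exact (spreadG hN hP0 hQ0 hP hQ hvM hvN z hz).imp (le_eta6 hN0) (le_eta6 hN0)
  · intro z hz
    exact (spreadG hN hP0 hQ0 hP hQ hwM hwN z hz).imp (le_eta6 hN0) (le_eta6 hN0)

end Pool.Agent.U1.HD
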