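import Mathlib
import Pool.Agent.U1.HD.Gen

/-! The area of the bad set of a transverse rational map. -/

set_option autoImplicit false

open Polynomial Finset Metric Filter Topology MeasureTheory
open scoped OnePoint

namespace Pool.Agent.U1.HD

variable {N : ℕ} {P Q : ℂ[X]} {δ L : ℝ}

theorem mid_open : IsOpen (Mid N P Q) := by
  have h1 : IsOpen {z : ℂ | ‖Q.eval z‖ < (N : ℝ) ^ 6 * ‖P.eval z‖} :=
    isOpen_lt Q.continuous.norm (continuous_const.mul P.continuous.norm)
  have h2 : IsOpen {z : ℂ | ‖P.eval z‖ < (N : ℝ) ^ 6 * ‖Q.eval z‖} :=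
    isOpen_lt P.continuous.norm (continuous_const.mul Q.continuous.norm)
  exact h1.inter h2

theorem mult_le (hN : 1 ≤ N) (hc : IsCoprime P Q) (hd : max P.natDegree Q.natDegree = N)
    (A : Set ℂ) (hA : ∀ z ∈ A, Q.eval z ≠ 0) (w : ℂ) :
    Set.encard {z : ℂ | z ∈ A ∧ P.eval z / Q.eval z = w} ≤ N := by
  classical
  have hne : P - C w * Q ≠ 0 := by
    intro h0
    have h1 : P = C w * Q := sub_eq_zero.1 h0
    have h2 : Q ∣ P := ⟨C w, by rw [h1]; ring⟩
    have h3 : IsUnit Q := hc.isUnit_of_dvd' h2 dvd_rfl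
    have h4 := natDegree_eq_zero_of_isUnit h3
    have h5 : P.natDegree = 0 := by
      rw [h1]
      exact Nat.le_zero.1 ((natDegree_C_mul_le w Q).trans h4.le)
    rw [h4, h5] at hd
    simp at hd
    omega
  have hdeg : (P - C w * Q).natDegree ≤ N := by
    refine (natDegree_sub_le _ _).trans (max_le ((le_max_left _ _).trans hd.le) ?_)
    exact (natDegree_C_mul_le w Q).trans ((le_max_right _ _).trans hd.le)
  have hsub : {z : ℂ | z ∈ A ∧ P.eval z / Q.eval z = w} ⊆ ↑((P - C w * Q).roots.toFinset) := by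
    rintro z ⟨hz, hzw⟩
    rw [Finset.mem_coe, Multiset.mem_toFinset, mem_roots hne, IsRoot.def, eval_sub, eval_mul,
      eval_C, ← hzw, div_mul_cancel₀ _ (hA z hz), sub_self]
  refine (Set.encard_le_encard hsub).trans ?_
  rw [Set.encard_coe_eq_coe_finsetCard]
  exact_mod_cast (Multiset.toFinset_card_le _).trans ((card_roots' _).trans hdeg)

theorem mid_area (hN : 2 ≤ N) (hδ : 0 < δ) (hL : 0 ≤ L) (hl : 6 * Real.log N < δ * N)
    (h : Transverse δ N P Q) :
    volume (Mid N P Q ∩ closedBall (0 : ℂ) L) ≤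
      ENNReal.ofReal (24 * Real.pi * (1 + L ^ 2) ^ 2 / δ ^ 2 * (Real.log N / N)) := by
  have hN0 : (0 : ℝ) < N := by
    have : 0 < N := by omega
    exact_mod_cast this
  have hN1 : (1 : ℝ) ≤ N := by
    have : 1 ≤ N := by omega
    exact_mod_cast this
  have hlog : 0 < Real.log N := Real.log_pos (by exact_mod_cast hN)
  have h6 : (0 : ℝ) < (N : ℝ) ^ 6 := by positivity
  set A : Set ℂ := Mid N P Q ∩ closedBall (0 : ℂ) L with hA
  set Ω : Set ℂ := {z : ℂ | P.eval z ≠ 0} ∩ {z : ℂ | Q.eval z ≠ 0} with hΩ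
  have hΩo : IsOpen Ω := (isOpen_ne_fun P.continuous continuous_const).inter
    (isOpen_ne_fun Q.continuous continuous_const)
  have hmid : ∀ z ∈ Mid N P Q, P.eval z ≠ 0 ∧ Q.eval z ≠ 0 := by
    rintro z ⟨h1, h2⟩
    constructor
    · intro h3
      rw [h3, norm_zero, mul_zero] at h1
      exact absurd h1 (not_lt.2 (norm_nonneg _))
    · intro h3
      rw [h3, norm_zero, mul_zero] at h2
      exact absurd h2 (not_lt.2 (norm_nonneg _))
  have hAΩ : A ⊆ Ω := fun z hz => hmid z hz.1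
  have hAm : MeasurableSet A := mid_open.measurableSet.inter measurableSet_closedBall
  have hg : ∀ z ∈ Ω, HasDerivAt (fun z : ℂ => P.eval z / Q.eval z)
      (P.eval z / Q.eval z * logDer P Q z) z := by
    rintro z ⟨h1, h2⟩
    have h1' : P.eval z ≠ 0 := h1
    have h2' : Q.eval z ≠ 0 := h2
    refine ((P.hasDerivAt z).div (Q.hasDerivAt z) h2').congr_deriv ?_
    unfold logDer
    field_simp
  have hs : 0 ≤ δ * N / (1 + L ^ 2) := by positivity
  have key := Pool.Agent.N229.RL.area_g (Ω := Ω) (A := A) hΩo hAm hAΩ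
    (g := fun z : ℂ => P.eval z / Q.eval z) (S := logDer P Q) hg
    (r₁ := ((N : ℝ) ^ 6)⁻¹) (r₂ := (N : ℝ) ^ 6) (s := δ * N / (1 + L ^ 2)) (by positivity)
    ?_ hs ?_ ?_ N ?_
  · have e1 : Real.log ((N : ℝ) ^ 6 / ((N : ℝ) ^ 6)⁻¹) = 12 * Real.log N := by
      rw [div_inv_eq_mul, ← pow_add, Real.log_pow]
      norm_num
    rw [e1] at key
    have hs0 : 0 < (δ * N / (1 + L ^ 2)) ^ 2 := by positivity
    have h7 : volume A ≤ ENNReal.ofReal (2 * Real.pi * (12 * Real.log N)) * N /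
        ENNReal.ofReal ((δ * N / (1 + L ^ 2)) ^ 2) := by
      rw [ENNReal.le_div_iff_mul_le (Or.inl (ENNReal.ofReal_pos.2 hs0).ne')
        (Or.inl ENNReal.ofReal_ne_top), mul_comm]
      exact key
    refine h7.trans_eq ?_
    have e2 : (N : ENNReal) = ENNReal.ofReal N := (ENNReal.ofReal_natCast N).symm
    rw [e2, ← ENNReal.ofReal_mul (by positivity), ← ENNReal.ofReal_div_of_pos hs0]
    congr 1
    field_simp
    ring
  · exact (inv_le_one_of_one_le₀ (one_le_pow₀ hN1)).trans (one_le_pow₀ hN1)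
  · intro z hz
    obtain ⟨h1, h2⟩ := hmid z hz.1
    have hP0 : 0 < ‖P.eval z‖ := norm_pos_iff.2 h1
    have hQ0 : 0 < ‖Q.eval z‖ := norm_pos_iff.2 h2
    rw [norm_div]
    constructor
    · rw [le_div_iff₀ hQ0, inv_mul_le_iff₀ h6]
      exact hz.1.1.le
    · rw [div_le_iff₀ hQ0]
      exact hz.1.2.le
  · intro z hz
    obtain ⟨h1, h2⟩ := hmid z hz.1
    have hP0 : 0 < ‖P.eval z‖ := norm_pos_iff.2 h1
    have hQ0 : 0 < ‖Q.eval z‖ := norm_pos_iff.2 h2
    have hzL : ‖z‖ ≤ L := mem_closedBall_zero_iff.1 hz.2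
    rcases h.finite z h1 h2 with h3 | h3
    · exfalso
      have h4 : |Real.log (‖P.eval z‖ / ‖Q.eval z‖)| < δ * N := by
        refine lt_of_le_of_lt ?_ hl
        have e1 : 6 * Real.log N = Real.log ((N : ℝ) ^ 6) := by rw [Real.log_pow]; norm_num
        rw [abs_le, e1, ← Real.log_inv]
        constructor
        · refine Real.log_le_log (by positivity) ?_
          rw [le_div_iff₀ hQ0, inv_mul_le_iff₀ h6]
          exact hz.1.1.le
        · refine Real.log_le_log (by positivity) ?_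
          rw [div_le_iff₀ hQ0]
          exact hz.1.2.le
      linarith
    · have hL1 : 0 < 1 + L ^ 2 := by positivity
      rw [div_le_iff₀ hL1]
      calc δ * N ≤ (1 + ‖z‖ ^ 2) * ‖logDer P Q z‖ := h3
        _ ≤ (1 + L ^ 2) * ‖logDer P Q z‖ := by gcongr
        _ = _ := mul_comm _ _
  · intro w
    exact mult_le (by omega : 1 ≤ N) h.coprime h.degree A (fun z hz => (hmid z hz.1).2) w

theorem near_area (hN : 3 ≤ N) (hP : P.natDegree ≤ N) (hQ : Q.natDegree ≤ N) :
    volume (Near N P Q) ≤ ENNReal.ofReal (2 * Real.pi * (Real.log N / N)) := by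
  classical
  have hNr : (3 : ℝ) ≤ N := by exact_mod_cast hN
  have hN0 : (0 : ℝ) < N := by linarith
  have hcard : (P.roots.toFinset ∪ Q.roots.toFinset).card ≤ 2 * N := by
    refine (Finset.card_union_le _ _).trans ?_
    have h1 := (Multiset.toFinset_card_le P.roots).trans ((card_roots' P).trans hP)
    have h2 := (Multiset.toFinset_card_le Q.roots).trans ((card_roots' Q).trans hQ)
    omega
  unfold Near
  refine (measure_biUnion_finset_le _ _).trans ?_
  have hv : ∀ y : ℂ, volume (ball y ((N : ℝ) ^ 2)⁻¹) =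
      ENNReal.ofReal (Real.pi * ((N : ℝ) ^ 4)⁻¹) := by
    intro y
    rw [Complex.volume_ball]
    have e0 : (NNReal.pi : ENNReal) = ENNReal.ofReal Real.pi := by
      rw [← NNReal.coe_real_pi, ENNReal.ofReal_coe_nnreal]
    rw [e0, ← ENNReal.ofReal_pow (by positivity), ← ENNReal.ofReal_mul (by positivity)]
    congr 1
    rw [inv_pow, ← pow_mul]
    ring
  simp_rw [hv]
  rw [Finset.sum_const, nsmul_eq_mul]
  have e2 : ((P.roots.toFinset ∪ Q.roots.toFinset).card : ENNReal) ≤ ENNReal.ofReal (2 * N) := by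
    rw [← ENNReal.ofReal_natCast]
    refine ENNReal.ofReal_le_ofReal ?_
    exact_mod_cast hcard
  calc ((P.roots.toFinset ∪ Q.roots.toFinset).card : ENNReal) *
      ENNReal.ofReal (Real.pi * ((N : ℝ) ^ 4)⁻¹) ≤
      ENNReal.ofReal (2 * N) * ENNReal.ofReal (Real.pi * ((N : ℝ) ^ 4)⁻¹) := by gcongr
    _ = ENNReal.ofReal (2 * N * (Real.pi * ((N : ℝ) ^ 4)⁻¹)) := by
        rw [← ENNReal.ofReal_mul (by positivity)]
    _ ≤ _ := by
        refine ENNReal.ofReal_le_ofReal ?_
        have h1 : 1 ≤ Real.log N := by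
          rw [← Real.log_exp 1]
          refine Real.log_le_log (Real.exp_pos 1) ?_
          have := Real.exp_one_lt_d9
          linarith
        have e3 : 2 * N * (Real.pi * ((N : ℝ) ^ 4)⁻¹) = 2 * Real.pi * (((N : ℝ) ^ 2)⁻¹ / N) := by
          field_simp
        rw [e3]
        gcongr
        have : ((N : ℝ) ^ 2)⁻¹ ≤ 1 := inv_le_one_of_one_le₀ (by nlinarith)
        linarith

theorem near_open : IsOpen (Near N P Q) :=
  isOpen_biUnion fun _ _ => isOpen_ball

/-- Everything together for transverse maps. -/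
theorem mainG (hδ : 0 < δ) (hL : 0 ≤ L) : ∃ K : ℝ, 0 < K ∧ ∃ N₀ : ℕ, ∀ N : ℕ, N₀ ≤ N →
    ∀ P Q : ℂ[X], Transverse δ N P Q →
      (∀ v w : ℂ, ‖v‖ ≤ L → ‖w‖ ≤ L → v ≠ w → v ∉ Mid N P Q ∪ Near N P Q →
        w ∉ Mid N P Q ∪ Near N P Q → HypP (C w * P + C v * Q) (P + Q)) ∧
      volume ((Mid N P Q ∪ Near N P Q) ∩ closedBall (0 : ℂ) L) ≤
        ENNReal.ofReal (K * (Real.log N / N)) ∧
      volume {x : ℂ × ℂ | ‖x.1‖ ≤ L ∧ ‖x.2‖ ≤ L ∧ x.1 ≠ x.2 ∧
        ¬ HypP (C x.2 * P + C x.1 * Q) (P + Q)} ≤ ENNReal.ofReal (K * (Real.log N / N)) ∧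
      ∀ v w : ℂ, ‖v‖ ≤ L → ‖w‖ ≤ L → v ≠ w → ∃ v' w' : ℂ, v' ≠ w' ∧
        ‖v' - v‖ ≤ K * Real.sqrt (Real.log N / N) ∧ ‖w' - w‖ ≤ K * Real.sqrt (Real.log N / N) ∧
        HypP (C w' * P + C v' * Q) (P + Q) := by
  set K₁ : ℝ := 24 * Real.pi * (1 + (L + 1) ^ 2) ^ 2 / δ ^ 2 + 2 * Real.pi with hK₁
  have hK₁0 : 0 < K₁ := by positivity
  set K : ℝ := K₁ * (1 + 2 * (Real.pi * L ^ 2)) + Real.sqrt K₁ with hK
  have hK0 : 0 < K := by positivity
  refine ⟨K, hK0, ?_⟩
  have hlim : Tendsto (fun x : ℝ => Real.log x / x) atTop (𝓝 0) :=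
    Real.isLittleO_log_id_atTop.tendsto_div_nhds_zero
  have ev1 : ∀ᶠ N : ℕ in atTop, 6 * Real.log N < δ * N := by
    have h2 := (hlim.comp tendsto_natCast_atTop_atTop).eventually (gt_mem_nhds (by positivity :
      (0 : ℝ) < δ / 6))
    filter_upwards [h2, eventually_gt_atTop 0] with N hN hN0
    have hN0' : (0 : ℝ) < N := by exact_mod_cast hN0
    simp only [Function.comp_apply] at hN
    rw [div_lt_iff₀ hN0'] at hN
    linarith
  have ev2 : ∀ᶠ N : ℕ in atTop, K₁ * (Real.log N / N) < 1 := by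
    have h2 := (hlim.comp tendsto_natCast_atTop_atTop).const_mul K₁
    rw [mul_zero] at h2
    exact h2.eventually (gt_mem_nhds one_pos)
  obtain ⟨N₀, hN₀⟩ := eventually_atTop.1 (ev1.and (ev2.and
    ((sq_large (16 * (L + 1))).and (eventually_ge_atTop 4))))
  refine ⟨N₀, fun N hN P Q h => ?_⟩
  obtain ⟨h1, h2, h3, h4⟩ := hN₀ N hN
  have hP : P.natDegree ≤ N := (le_max_left _ _).trans h.degree.le
  have hQ : Q.natDegree ≤ N := (le_max_right _ _).trans h.degree.le
  have hN0' : (0 : ℝ) < N := by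
    have : 0 < N := by omega
    exact_mod_cast this
  have hlog : 0 < Real.log N := by
    have h5 : 2 ≤ N := by omega
    exact Real.log_pos (by exact_mod_cast h5)
  have hρ0 : 0 < Real.log N / N := by positivity
  set B : Set ℂ := Mid N P Q ∪ Near N P Q with hB
  have hBm : MeasurableSet B := (mid_open.union near_open).measurableSet
  have harea : volume (B ∩ closedBall (0 : ℂ) (L + 1)) ≤
      ENNReal.ofReal (K₁ * (Real.log N / N)) := by
    have e1 : B ∩ closedBall (0 : ℂ) (L + 1) ⊆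
        (Mid N P Q ∩ closedBall (0 : ℂ) (L + 1)) ∪ Near N P Q := by
      rintro z ⟨hz | hz, hz'⟩
      · exact Or.inl ⟨hz, hz'⟩
      · exact Or.inr hz
    refine (measure_mono e1).trans ((measure_union_le _ _).trans ?_)
    have a1 := mid_area (by omega : 2 ≤ N) hδ (by linarith : 0 ≤ L + 1) h1 h
    have a2 := near_area (by omega : 3 ≤ N) hP hQ
    refine (add_le_add a1 a2).trans_eq ?_
    rw [← ENNReal.ofReal_add (by positivity) (by positivity)]
    congr 1
    rw [hK₁]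
    ring
  have hareaL : volume (B ∩ closedBall (0 : ℂ) L) ≤ ENNReal.ofReal (K₁ * (Real.log N / N)) :=
    (measure_mono (Set.inter_subset_inter_right _
      (closedBall_subset_closedBall (by linarith)))).trans harea
  have hA : ∀ v w : ℂ, ‖v‖ ≤ L + 1 → ‖w‖ ≤ L + 1 → v ≠ w → v ∉ B → w ∉ B →
      HypP (C w * P + C v * Q) (P + Q) := fun v w hv hw hvw hvB hwB =>
    critG h4 h1.le h3 h hv hw hvw (fun h => hvB (Or.inl h)) (fun h => hwB (Or.inl h))
      (fun h => hvB (Or.inr h)) (fun h => hwB (Or.inr h))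
  refine ⟨fun v w hv hw => hA v w (by linarith) (by linarith),
    hareaL.trans (ENNReal.ofReal_le_ofReal ?_), ?_, ?_⟩
  · gcongr
    rw [hK]
    have h7 : 0 ≤ K₁ * (2 * (Real.pi * L ^ 2)) := by positivity
    have h8 : 0 ≤ Real.sqrt K₁ := Real.sqrt_nonneg _
    linarith
  · have hsub : {x : ℂ × ℂ | ‖x.1‖ ≤ L ∧ ‖x.2‖ ≤ L ∧ x.1 ≠ x.2 ∧
        ¬ HypP (C x.2 * P + C x.1 * Q) (P + Q)} ⊆
        ((B ∩ closedBall (0 : ℂ) L) ×ˢ closedBall (0 : ℂ) L) ∪
          (closedBall (0 : ℂ) L ×ˢ (B ∩ closedBall (0 : ℂ) L)) := by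
      rintro ⟨v, w⟩ ⟨hv, hw, hvw, hno⟩
      simp only at hv hw hvw hno
      have hv' : v ∈ closedBall (0 : ℂ) L := mem_closedBall_zero_iff.2 hv
      have hw' : w ∈ closedBall (0 : ℂ) L := mem_closedBall_zero_iff.2 hw
      by_cases hvZ : v ∈ B
      · exact Or.inl ⟨⟨hvZ, hv'⟩, hw'⟩
      · by_cases hwZ : w ∈ B
        · exact Or.inr ⟨hv', hwZ, hw'⟩
        · exact absurd (hA v w (by linarith) (by linarith) hvw hvZ hwZ) hno
    refine (measure_mono hsub).trans ((measure_union_le _ _).trans ?_)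
    rw [Measure.volume_eq_prod, Measure.prod_prod, Measure.prod_prod, vol_disc L hL]
    calc volume (B ∩ closedBall (0 : ℂ) L) * ENNReal.ofReal (Real.pi * L ^ 2) +
        ENNReal.ofReal (Real.pi * L ^ 2) * volume (B ∩ closedBall (0 : ℂ) L) ≤
        ENNReal.ofReal (K₁ * (Real.log N / N)) * ENNReal.ofReal (Real.pi * L ^ 2) +
        ENNReal.ofReal (Real.pi * L ^ 2) * ENNReal.ofReal (K₁ * (Real.log N / N)) := by gcongr
      _ = ENNReal.ofReal (K₁ * (2 * (Real.pi * L ^ 2)) * (Real.log N / N)) := by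
          rw [← ENNReal.ofReal_mul (by positivity), ← ENNReal.ofReal_mul (by positivity),
            ← ENNReal.ofReal_add (by positivity) (by positivity)]
          congr 1
          ring
      _ ≤ _ := by
          refine ENNReal.ofReal_le_ofReal ?_
          gcongr
          rw [hK]
          have h8 : 0 ≤ Real.sqrt K₁ := Real.sqrt_nonneg _
          linarith
  · set ρ : ℝ := Real.sqrt (K₁ * (Real.log N / N)) with hρ
    have hρpos : 0 < ρ := Real.sqrt_pos.2 (by positivity)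
    have hρsq : ρ ^ 2 = K₁ * (Real.log N / N) := Real.sq_sqrt (by positivity)
    have hρ1 : ρ ≤ 1 := by nlinarith
    have hρK : ρ ≤ K * Real.sqrt (Real.log N / N) := by
      rw [hρ, Real.sqrt_mul hK₁0.le]
      gcongr
      rw [hK]
      have : 0 ≤ K₁ * (1 + 2 * (Real.pi * L ^ 2)) := by positivity
      linarith
    have near : ∀ v u : ℂ, ‖v‖ ≤ L → ∃ v' : ℂ, v' ∉ B ∧ ‖v' - v‖ ≤ ρ ∧ v' ≠ u := by
      intro v u hv
      by_contra hcon
      push Not at hcon
      have hsub : closedBall v ρ ⊆ (B ∩ closedBall (0 : ℂ) (L + 1)) ∪ {u} := by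
        intro y hy
        rw [mem_closedBall, dist_eq_norm] at hy
        by_cases hyB : y ∈ B
        · refine Or.inl ⟨hyB, ?_⟩
          rw [mem_closedBall_zero_iff]
          have h5 := norm_add_le (y - v) v
          rw [sub_add_cancel] at h5
          linarith
        · exact Or.inr (hcon y hyB hy)
      have h5 := (measure_mono hsub).trans (measure_union_le (μ := (volume : Measure ℂ)) _ _)
      rw [measure_singleton, add_zero] at h5
      have h6 := h5.trans harea
      rw [Complex.volume_closedBall] at h6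
      have e0 : (NNReal.pi : ENNReal) = ENNReal.ofReal Real.pi := by
        rw [← NNReal.coe_real_pi, ENNReal.ofReal_coe_nnreal]
      rw [e0, ← ENNReal.ofReal_pow hρpos.le, ← ENNReal.ofReal_mul (by positivity),
        ENNReal.ofReal_le_ofReal_iff (by positivity), ← hρsq] at h6
      have h7 := Real.pi_gt_three
      have h8 : 0 < ρ ^ 2 := by positivity
      nlinarith
    intro v w hv hw _
    obtain ⟨w', hw1, hw2, -⟩ := near w w hw
    obtain ⟨v', hv1, hv2, hv3⟩ := near v w' hv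
    have hadd : ∀ v v' : ℂ, ‖v‖ ≤ L → ‖v' - v‖ ≤ ρ → ‖v'‖ ≤ L + 1 := by
      intro v v' hv hv'
      have h7 := norm_add_le (v' - v) v
      rw [sub_add_cancel] at h7
      linarith
    exact ⟨v', w', hv3, hv2.trans hρK, hw2.trans hρK,
      hA v' w' (hadd v v' hv hv2) (hadd w w' hw hw2) hv3 hv1 hw1⟩

end Pool.Agent.U1.HD
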