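import Mathlib
import Pool.Agent.N229.RL.Area
import Pool.Agent.U1.HD.Gen
import Pool.Agent.U1.HD.GenArea

/-! Transverse rational maps whose zeros and poles are away from the transitional region:
local statements. -/

set_option autoImplicit false

open Polynomial Finset Metric Filter Topology MeasureTheory
open scoped OnePoint

namespace Pool.Agent.U1.HD

/-- the quotient `x / y` is at most `exp (-c)` or at least `exp c` -/
def Far (c x y : ℝ) : Prop := Real.exp c * x ≤ y ∨ Real.exp c * y ≤ x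

/-- transversality on the disc `|z| ≤ X` and the margin `ε` -/
structure Loc (δ ε X : ℝ) (N : ℕ) (P Q : ℂ[X]) : Prop where
  coprime : IsCoprime P Q
  degree : max P.natDegree Q.natDegree = N
  grad : ∀ z : ℂ, ‖z‖ ≤ X → Far (δ * N) ‖P.eval z‖ ‖Q.eval z‖ ∨ δ * N ≤ ‖logDer P Q z‖
  margin : ∀ z y : ℂ, P.eval y = 0 ∨ Q.eval y = 0 → ‖z - y‖ < ε →
    Far (δ * N) ‖P.eval z‖ ‖Q.eval z‖

variable {N : ℕ} {P Q : ℂ[X]} {δ ε L X : ℝ}

theorem ne_zero_of (hN : 1 ≤ N) (hc : IsCoprime P Q) (hd : max P.natDegree Q.natDegree = N) :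
    P ≠ 0 ∧ Q ≠ 0 := by
  constructor
  · intro h0
    rw [h0] at hc
    have h2 := natDegree_eq_zero_of_isUnit (isCoprime_zero_left.1 hc)
    rw [h0, h2] at hd
    simp at hd
    omega
  · intro h0
    rw [h0] at hc
    have h2 := natDegree_eq_zero_of_isUnit (isCoprime_zero_right.1 hc)
    rw [h0, h2] at hd
    simp at hd
    omega

/-- what `Far` gives -/
theorem Far.small {c x y : ℝ} (hx : 0 ≤ x) (hy : 0 ≤ y) (hc : (N : ℝ) ^ 6 ≤ Real.exp c)
    (h : Far c x y) : (N : ℝ) ^ 6 * x ≤ y ∨ (N : ℝ) ^ 6 * y ≤ x :=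
  h.imp (fun h => (mul_le_mul_of_nonneg_right hc hx).trans h)
    fun h => (mul_le_mul_of_nonneg_right hc hy).trans h

theorem Far.notMid {c : ℝ} (hc : (N : ℝ) ^ 6 ≤ Real.exp c) {z : ℂ}
    (h : Far c ‖P.eval z‖ ‖Q.eval z‖) : z ∉ Mid N P Q := by
  rintro ⟨h1, h2⟩
  rcases h.small (norm_nonneg _) (norm_nonneg _) hc with h3 | h3 <;> linarith

/-- near a point off `Mid` the quotient is small or large -/
theorem spreadL (hN : 4 ≤ N) (hε : 0 < ε) (hεN : 8 ≤ ε * N) (hc : (N : ℝ) ^ 6 ≤ Real.exp (δ * N))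
    (h : Loc δ ε X N P Q) {v : ℂ} (hv : v ∉ Mid N P Q) :
    ∀ z ∈ ball v ((N : ℝ) ^ 4)⁻¹, (N : ℝ) ^ 6 * ‖P.eval z‖ ≤ 2 * ‖Q.eval z‖ ∨
      (N : ℝ) ^ 6 * ‖Q.eval z‖ ≤ 2 * ‖P.eval z‖ := by
  intro z hz
  have hNr : (4 : ℝ) ≤ N := by exact_mod_cast hN
  have hP : P.natDegree ≤ N := (le_max_left _ _).trans h.degree.le
  have hQ : Q.natDegree ≤ N := (le_max_right _ _).trans h.degree.le
  by_cases hfar : Far (δ * N) ‖P.eval z‖ ‖Q.eval z‖
  · refine (hfar.small (norm_nonneg _) (norm_nonneg _) hc).imp (fun h1 => ?_) fun h1 => ?_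
    · have := norm_nonneg (Q.eval z)
      linarith
    · have := norm_nonneg (P.eval z)
      linarith
  have hdist : ∀ y, P.eval y = 0 ∨ Q.eval y = 0 → ε ≤ ‖z - y‖ := by
    intro y hy
    by_contra hcon
    push Not at hcon
    exact hfar (h.margin z y hy hcon)
  set r : ℝ := ((N : ℝ) ^ 4)⁻¹ with hr
  have hr0 : 0 < r := by positivity
  rw [mem_ball, dist_eq_norm] at hz
  have hrN : r * N ≤ 1 / 64 := by
    have e1 : r * N = ((N : ℝ) ^ 3)⁻¹ := by
      rw [hr]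
      have : (N : ℝ) ≠ 0 := by positivity
      field_simp
    rw [e1, inv_le_comm₀ (by positivity) (by norm_num)]
    have : (64 : ℝ) ≤ (N : ℝ) ^ 3 := by
      calc (64 : ℝ) = 4 ^ 3 := by norm_num
        _ ≤ (N : ℝ) ^ 3 := by gcongr
    norm_num
    exact_mod_cast this
  have hrε : r * 64 ≤ ε := by
    have h1 : 8 * r ≤ ε * (r * N) := by nlinarith
    nlinarith
  have hdist' : ∀ y, P.eval y = 0 ∨ Q.eval y = 0 → ε / 2 ≤ ‖v - y‖ := by
    intro y hy
    have h1 := hdist y hy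
    have h2 := norm_add_le (z - v) (v - y)
    rw [sub_add_sub_cancel] at h2
    linarith
  set t : ℝ := r / (ε / 2) with ht
  have ht0 : 0 < t := by positivity
  have htε : t * (ε / 2) = r := by rw [ht]; field_simp
  have ht1 : t ≤ 1 := by rw [ht, div_le_one (by positivity)]; linarith
  have hNt : N * t ≤ 1 / 4 := by
    rw [ht, ← mul_div_assoc, div_le_iff₀ (by positivity)]
    have h1 : 8 * r ≤ ε * (r * N) := by nlinarith
    have h2 : N * r * N ≤ 1 / 16 := by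
      have e1 : N * r * N = ((N : ℝ) ^ 2)⁻¹ := by
        rw [hr]
        have : (N : ℝ) ≠ 0 := by positivity
        field_simp
      rw [e1, inv_le_comm₀ (by positivity) (by norm_num)]
      have : (16 : ℝ) ≤ (N : ℝ) ^ 2 := by nlinarith
      norm_num
      exact_mod_cast this
    have h3 : 8 * (N * r) ≤ ε * (N * r * N) := by
      have : 0 ≤ N * r := by positivity
      nlinarith
    nlinarith
  have hzv : ‖z - v‖ ≤ t * (ε / 2) := by rw [htε]; exact hz.le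
  obtain ⟨hP0, hQ0⟩ := ne_zero_of (by omega : 1 ≤ N) h.coprime h.degree
  obtain ⟨p1, p2⟩ := eval_comp hP ht0.le ht1 hzv fun y hy =>
    hdist' y (Or.inl ((mem_roots hP0).1 hy))
  obtain ⟨q1, q2⟩ := eval_comp hQ ht0.le ht1 hzv fun y hy =>
    hdist' y (Or.inr ((mem_roots hQ0).1 hy))
  have hpow := pow_two_le ht0.le hNt ht1
  have hN6 : (0 : ℝ) ≤ (N : ℝ) ^ 6 := by positivity
  have hT0 : 0 ≤ (1 + t) ^ N := by positivity
  have hcase : (N : ℝ) ^ 6 * ‖P.eval v‖ ≤ ‖Q.eval v‖ ∨ (N : ℝ) ^ 6 * ‖Q.eval v‖ ≤ ‖P.eval v‖ := by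
    by_contra hcon
    push Not at hcon
    exact hv ⟨hcon.1, hcon.2⟩
  rcases hcase with h3 | h3
  · left
    calc (N : ℝ) ^ 6 * ‖P.eval z‖ ≤ (N : ℝ) ^ 6 * ((1 + t) ^ N * ‖P.eval v‖) := by gcongr
      _ = (1 + t) ^ N * ((N : ℝ) ^ 6 * ‖P.eval v‖) := by ring
      _ ≤ (1 + t) ^ N * ‖Q.eval v‖ := by gcongr
      _ ≤ (2 * (1 - t) ^ N) * ‖Q.eval v‖ := by gcongr
      _ = 2 * ((1 - t) ^ N * ‖Q.eval v‖) := by ring
      _ ≤ 2 * ‖Q.eval z‖ := by gcongr
  · right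
    calc (N : ℝ) ^ 6 * ‖Q.eval z‖ ≤ (N : ℝ) ^ 6 * ((1 + t) ^ N * ‖Q.eval v‖) := by gcongr
      _ = (1 + t) ^ N * ((N : ℝ) ^ 6 * ‖Q.eval v‖) := by ring
      _ ≤ (1 + t) ^ N * ‖P.eval v‖ := by gcongr
      _ ≤ (2 * (1 - t) ^ N) * ‖P.eval v‖ := by gcongr
      _ = 2 * ((1 - t) ^ N * ‖P.eval v‖) := by ring
      _ ≤ 2 * ‖P.eval z‖ := by gcongr

/-! ### The area -/

theorem areaL (hN : 2 ≤ N) (hδ : 0 < δ) (hc : (N : ℝ) ^ 6 ≤ Real.exp (δ * N))
    (h : Loc δ ε X N P Q) :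
    volume (Mid N P Q ∩ closedBall (0 : ℂ) X) ≤
      ENNReal.ofReal (24 * Real.pi / δ ^ 2 * (Real.log N / N)) := by
  have hN0 : (0 : ℝ) < N := by
    have : 0 < N := by omega
    exact_mod_cast this
  have hN1 : (1 : ℝ) ≤ N := by
    have : 1 ≤ N := by omega
    exact_mod_cast this
  have hlog : 0 < Real.log N := Real.log_pos (by exact_mod_cast hN)
  have h6 : (0 : ℝ) < (N : ℝ) ^ 6 := by positivity
  set A : Set ℂ := Mid N P Q ∩ closedBall (0 : ℂ) X with hA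
  set Ω : Set ℂ := {z : ℂ | P.eval z ≠ 0} ∩ {z : ℂ | Q.eval z ≠ 0} with hΩ
  have hΩo : IsOpen Ω := (isOpen_ne_fun P.continuous continuous_const).inter
    (isOpen_ne_fun Q.continuous continuous_const)
  have hmid : ∀ z ∈ Mid N P Q, P.eval z ≠ 0 ∧ Q.eval z ≠ 0 := by
    rintro z ⟨h1, h2⟩
    constructor
    · intro h3
      rw [h3, norm_zero, mul_zero] at h1
      exact absurd h1 (not_lt.2 (norm_nonneg _))
    · intro h3
      rw [h3, norm_zero, mul_zero] at h2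
      exact absurd h2 (not_lt.2 (norm_nonneg _))
  have hAΩ : A ⊆ Ω := fun z hz => hmid z hz.1
  have hAm : MeasurableSet A := mid_open.measurableSet.inter measurableSet_closedBall
  have hg : ∀ z ∈ Ω, HasDerivAt (fun z : ℂ => P.eval z / Q.eval z)
      (P.eval z / Q.eval z * logDer P Q z) z := by
    rintro z ⟨h1, h2⟩
    have h1' : P.eval z ≠ 0 := h1
    have h2' : Q.eval z ≠ 0 := h2
    refine ((P.hasDerivAt z).div (Q.hasDerivAt z) h2').congr_deriv ?_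
    unfold logDer
    field_simp
  have hs : 0 ≤ δ * N := by positivity
  have key := Pool.Agent.N229.RL.area_g (Ω := Ω) (A := A) hΩo hAm hAΩ
    (g := fun z : ℂ => P.eval z / Q.eval z) (S := logDer P Q) hg
    (r₁ := ((N : ℝ) ^ 6)⁻¹) (r₂ := (N : ℝ) ^ 6) (s := δ * N) (by positivity)
    ?_ hs ?_ ?_ N ?_
  · have e1 : Real.log ((N : ℝ) ^ 6 / ((N : ℝ) ^ 6)⁻¹) = 12 * Real.log N := by
      rw [div_inv_eq_mul, ← pow_add, Real.log_pow]
      norm_num
    rw [e1] at key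
    have hs0 : 0 < (δ * N) ^ 2 := by positivity
    have h7 : volume A ≤ ENNReal.ofReal (2 * Real.pi * (12 * Real.log N)) * N /
        ENNReal.ofReal ((δ * N) ^ 2) := by
      rw [ENNReal.le_div_iff_mul_le (Or.inl (ENNReal.ofReal_pos.2 hs0).ne')
        (Or.inl ENNReal.ofReal_ne_top), mul_comm]
      exact key
    refine h7.trans_eq ?_
    have e2 : (N : ENNReal) = ENNReal.ofReal N := (ENNReal.ofReal_natCast N).symm
    rw [e2, ← ENNReal.ofReal_mul (by positivity), ← ENNReal.ofReal_div_of_pos hs0]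
    congr 1
    field_simp
    ring
  · exact (inv_le_one_of_one_le₀ (one_le_pow₀ hN1)).trans (one_le_pow₀ hN1)
  · intro z hz
    obtain ⟨h1, h2⟩ := hmid z hz.1
    have hP0 : 0 < ‖P.eval z‖ := norm_pos_iff.2 h1
    have hQ0 : 0 < ‖Q.eval z‖ := norm_pos_iff.2 h2
    rw [norm_div]
    constructor
    · rw [le_div_iff₀ hQ0, inv_mul_le_iff₀ h6]
      exact hz.1.1.le
    · rw [div_le_iff₀ hQ0]
      exact hz.1.2.le
  · intro z hz
    rcases h.grad z (mem_closedBall_zero_iff.1 hz.2) with h3 | h3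
    · exact absurd hz.1 (h3.notMid hc)
    · exact h3
  · intro w
    exact mult_le (by omega : 1 ≤ N) h.coprime h.degree A (fun z hz => (hmid z hz.1).2) w

/-! ### Moving a point off `Mid` -/

theorem one_add_upper (x : ℂ) : ‖1 + x‖ ≤ Real.exp (x.re + ‖x‖ ^ 2 / 2) := by
  have h1 : ‖1 + x‖ ^ 2 = 1 + (2 * x.re + ‖x‖ ^ 2) := by
    rw [← Complex.normSq_eq_norm_sq, ← Complex.normSq_eq_norm_sq, Complex.normSq_apply,
      Complex.normSq_apply]
    simp only [Complex.add_re, Complex.one_re, Complex.add_im, Complex.one_im]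
    ring
  have h2 : ‖1 + x‖ ^ 2 ≤ Real.exp (x.re + ‖x‖ ^ 2 / 2) ^ 2 := by
    rw [h1, ← Real.exp_nat_mul]
    have := Real.add_one_le_exp (2 * x.re + ‖x‖ ^ 2)
    have e1 : ((2 : ℕ) : ℝ) * (x.re + ‖x‖ ^ 2 / 2) = 2 * x.re + ‖x‖ ^ 2 := by push_cast; ring
    rw [e1]
    linarith
  exact (abs_le_of_sq_le_sq' h2 (Real.exp_pos _).le).2

theorem one_add_lower {x : ℂ} (hx : ‖x‖ ≤ 1 / 2) : Real.exp (x.re - 4 * ‖x‖ ^ 2) ≤ ‖1 + x‖ := by
  have h0 : 1 / 2 ≤ ‖1 + x‖ := by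
    have h1 := norm_sub_norm_le (1 : ℂ) (-x)
    rw [norm_one, norm_neg, sub_neg_eq_add] at h1
    linarith
  have hne : 1 + x ≠ 0 := norm_pos_iff.1 (by linarith)
  set y : ℂ := -x / (1 + x) with hy
  have h1 : (1 + x) * (1 + y) = 1 := by rw [hy]; field_simp; ring
  have h2 := one_add_upper y
  have h3 : ‖y‖ ≤ 2 * ‖x‖ := by
    rw [hy, norm_div, norm_neg, div_le_iff₀ (by linarith)]
    have := norm_nonneg x
    nlinarith
  have h4 : y.re ≤ -x.re + 2 * ‖x‖ ^ 2 := by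
    have e1 : y = -x + x ^ 2 / (1 + x) := by rw [hy]; field_simp; ring
    have h5 : (x ^ 2 / (1 + x)).re ≤ 2 * ‖x‖ ^ 2 := by
      refine (Complex.re_le_norm _).trans ?_
      rw [norm_div, norm_pow, div_le_iff₀ (by linarith)]
      have : 0 ≤ ‖x‖ ^ 2 := by positivity
      nlinarith
    rw [e1, Complex.add_re, Complex.neg_re]
    linarith
  have h5 : ‖1 + y‖ ≤ Real.exp (-(x.re - 4 * ‖x‖ ^ 2)) := by
    refine h2.trans (Real.exp_le_exp.2 ?_)
    have h6 : ‖y‖ ^ 2 ≤ 4 * ‖x‖ ^ 2 := by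
      have := norm_nonneg y
      have := norm_nonneg x
      nlinarith
    linarith
  have h6 : ‖1 + x‖ * ‖1 + y‖ = 1 := by rw [← norm_mul, h1, norm_one]
  rw [Real.exp_neg] at h5
  have h7 : 0 < Real.exp (x.re - 4 * ‖x‖ ^ 2) := Real.exp_pos _
  have h8 : 1 ≤ ‖1 + x‖ * (Real.exp (x.re - 4 * ‖x‖ ^ 2))⁻¹ := by
    rw [← h6]
    gcongr
  rw [← div_eq_mul_inv, le_div_iff₀ h7, one_mul] at h8
  exact h8

theorem mset_exp (s : Multiset ℂ) {v w : ℂ} {ε : ℝ} (hε : 0 < ε) (hw : ‖w‖ ≤ ε / 2)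
    (hs : ∀ y ∈ s, ε ≤ ‖v - y‖) :
    ‖(s.map fun y => v - y).prod‖ *
      Real.exp ((w * (s.map fun y => 1 / (v - y)).sum).re -
        4 * (Multiset.card s * (‖w‖ / ε) ^ 2)) ≤ ‖(s.map fun y => v + w - y).prod‖ ∧
    ‖(s.map fun y => v + w - y).prod‖ ≤ ‖(s.map fun y => v - y).prod‖ *
      Real.exp ((w * (s.map fun y => 1 / (v - y)).sum).re + Multiset.card s * (‖w‖ / ε) ^ 2) := by
  induction s using Multiset.induction_on with
  | empty => simp
  | cons y s ih =>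
    obtain ⟨h1, h2⟩ := ih fun x hx => hs x (Multiset.mem_cons_of_mem hx)
    have h3 := hs y (Multiset.mem_cons_self y s)
    have hy0 : 0 < ‖v - y‖ := hε.trans_le h3
    have hyne : v - y ≠ 0 := norm_pos_iff.1 hy0
    set x : ℂ := w / (v - y) with hx
    have hxn : ‖x‖ ≤ ‖w‖ / ε := by
      rw [hx, norm_div]
      gcongr
    have hx2 : ‖x‖ ≤ 1 / 2 := by
      refine hxn.trans ?_
      rw [div_le_iff₀ hε]
      linarith
    have hfac : v + w - y = (v - y) * (1 + x) := by rw [hx]; field_simp; ring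
    have hxsq : ‖x‖ ^ 2 ≤ (‖w‖ / ε) ^ 2 := by gcongr
    have hup := one_add_upper x
    have hlo := one_add_lower hx2
    rw [Multiset.card_cons, Multiset.map_cons, Multiset.map_cons, Multiset.map_cons,
      Multiset.prod_cons, Multiset.prod_cons, Multiset.sum_cons, norm_mul, norm_mul, hfac,
      norm_mul, mul_add, Complex.add_re]
    have e1 : w * (1 / (v - y)) = x := by rw [hx]; field_simp
    rw [e1]
    set p := ‖(s.map fun y => v - y).prod‖ with hp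
    set p' := ‖(s.map fun y => v + w - y).prod‖ with hp'
    set A := (w * (s.map fun y => 1 / (v - y)).sum).re with hA
    set k : ℝ := (Multiset.card s : ℝ) with hk
    set q : ℝ := (‖w‖ / ε) ^ 2 with hq
    push_cast
    constructor
    · calc ‖v - y‖ * p * Real.exp (x.re + A - 4 * ((k + 1) * q)) ≤
          ‖v - y‖ * p * (Real.exp (x.re - 4 * ‖x‖ ^ 2) * Real.exp (A - 4 * (k * q))) := by
            rw [← Real.exp_add]
            gcongr
            linarith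
        _ = (‖v - y‖ * Real.exp (x.re - 4 * ‖x‖ ^ 2)) * (p * Real.exp (A - 4 * (k * q))) := by ring
        _ ≤ (‖v - y‖ * ‖1 + x‖) * p' := by gcongr
    · calc ‖v - y‖ * ‖1 + x‖ * p' ≤
          (‖v - y‖ * Real.exp (x.re + ‖x‖ ^ 2 / 2)) * (p * Real.exp (A + k * q)) := by gcongr
        _ = ‖v - y‖ * p * (Real.exp (x.re + ‖x‖ ^ 2 / 2) * Real.exp (A + k * q)) := by ring
        _ ≤ ‖v - y‖ * p * Real.exp (x.re + A + (k + 1) * q) := by
            rw [← Real.exp_add]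
            have h7 : 0 ≤ ‖x‖ ^ 2 := by positivity
            refine mul_le_mul_of_nonneg_left (Real.exp_le_exp.2 ?_) (by positivity)
            linarith

theorem eval_exp (hP : P.natDegree ≤ N) {v w : ℂ} (hε : 0 < ε) (hw : ‖w‖ ≤ ε / 2)
    (hPv : P.eval v ≠ 0) (hs : ∀ y, P.eval y = 0 → ε ≤ ‖v - y‖) :
    ‖P.eval v‖ * Real.exp ((w * ((derivative P).eval v / P.eval v)).re -
        4 * (N * (‖w‖ / ε) ^ 2)) ≤ ‖P.eval (v + w)‖ ∧
    ‖P.eval (v + w)‖ ≤ ‖P.eval v‖ *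
      Real.exp ((w * ((derivative P).eval v / P.eval v)).re + N * (‖w‖ / ε) ^ 2) := by
  have hP0 : P ≠ 0 := by rintro rfl; simp at hPv
  have hsp : P.Splits := IsAlgClosed.splits P
  obtain ⟨h1, h2⟩ := mset_exp P.roots (v := v) hε hw fun y hy => hs y ((mem_roots hP0).1 hy)
  rw [hsp.eval_derivative_div_eval_of_ne_zero hPv, hsp.eval_eq_prod_roots v,
    hsp.eval_eq_prod_roots (v + w), norm_mul, norm_mul]
  have hc : (Multiset.card P.roots : ℝ) ≤ N := by exact_mod_cast (card_roots' P).trans hP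
  have hq : 0 ≤ (‖w‖ / ε) ^ 2 := by positivity
  constructor
  · rw [mul_assoc]
    refine mul_le_mul_of_nonneg_left (le_trans ?_ h1) (norm_nonneg _)
    gcongr
  · rw [mul_assoc]
    refine mul_le_mul_of_nonneg_left (h2.trans ?_) (norm_nonneg _)
    gcongr

/-- moving a point of `Mid` in the direction of the gradient -/
theorem moveL (hN : 2 ≤ N) (hδ : 0 < δ) (hε : 0 < ε) (hc : (N : ℝ) ^ 6 ≤ Real.exp (δ * N))
    (h : Loc δ ε X N P Q) {v : ℂ} (hvX : ‖v‖ ≤ X) (hv : v ∈ Mid N P Q) {s : ℝ}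
    (hs0 : 24 * (Real.log N / N) ≤ δ * s) (hs1 : 10 * s ≤ δ * ε ^ 2) (hs2 : s ≤ ε / 2) :
    ∃ w : ℂ, ‖w‖ = s ∧ v + w ∉ Mid N P Q := by
  have hN0 : (0 : ℝ) < N := by
    have : 0 < N := by omega
    exact_mod_cast this
  have hlog : 0 < Real.log N := Real.log_pos (by exact_mod_cast hN)
  have hP : P.natDegree ≤ N := (le_max_left _ _).trans h.degree.le
  have hQ : Q.natDegree ≤ N := (le_max_right _ _).trans h.degree.le
  have hs : 0 < s := by
    have h1 : 0 < 24 * (Real.log N / N) := by positivity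
    have h2 : 0 < δ * s := h1.trans_le hs0
    exact (mul_pos_iff_of_pos_left hδ).1 h2
  have hdist : ∀ y, P.eval y = 0 ∨ Q.eval y = 0 → ε ≤ ‖v - y‖ := by
    intro y hy
    by_contra hcon
    push Not at hcon
    exact (h.margin v y hy hcon).notMid hc hv
  have hPv : P.eval v ≠ 0 := by
    intro h0
    have := hdist v (Or.inl h0)
    rw [sub_self, norm_zero] at this
    linarith
  have hQv : Q.eval v ≠ 0 := by
    intro h0
    have := hdist v (Or.inr h0)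
    rw [sub_self, norm_zero] at this
    linarith
  have hS : δ * N ≤ ‖logDer P Q v‖ := by
    rcases h.grad v hvX with h1 | h1
    · exact absurd hv (h1.notMid hc)
    · exact h1
  set S := logDer P Q v with hSdef
  have hS0 : 0 < ‖S‖ := lt_of_lt_of_le (by positivity) hS
  have hSne : S ≠ 0 := norm_pos_iff.1 hS0
  set w : ℂ := ((s / ‖S‖ : ℝ) : ℂ) * (starRingEnd ℂ) S with hw
  have hwn : ‖w‖ = s := by
    rw [hw, norm_mul, Complex.norm_real, Complex.norm_conj, Real.norm_eq_abs,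
      abs_of_pos (by positivity)]
    field_simp
  have hwS : (w * S).re = s * ‖S‖ := by
    have e1 : w * S = ((s * ‖S‖ : ℝ) : ℂ) := by
      rw [hw, mul_assoc, ← Complex.normSq_eq_conj_mul_self, Complex.normSq_eq_norm_sq,
        ← Complex.ofReal_mul]
      congr 1
      field_simp
    rw [e1, Complex.ofReal_re]
  refine ⟨w, hwn, ?_⟩
  have hw2 : ‖w‖ ≤ ε / 2 := by rw [hwn]; exact hs2
  obtain ⟨p1, -⟩ := eval_exp hP hε hw2 hPv fun y hy => hdist y (Or.inl hy)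
  obtain ⟨-, q2⟩ := eval_exp hQ hε hw2 hQv fun y hy => hdist y (Or.inr hy)
  set A := (w * ((derivative P).eval v / P.eval v)).re with hA
  set B := (w * ((derivative Q).eval v / Q.eval v)).re with hB
  have hAB : A - B = s * ‖S‖ := by
    rw [← hwS, hA, hB, ← Complex.sub_re, ← mul_sub]
    rfl
  set q : ℝ := N * (‖w‖ / ε) ^ 2 with hq
  have hq1 : 10 * q ≤ δ * N * s := by
    have e1 : 10 * q = N * s * (10 * s) / ε ^ 2 := by rw [hq, hwn]; field_simp
    rw [e1, div_le_iff₀ (by positivity)]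
    have h1 := mul_le_mul_of_nonneg_left hs1 (by positivity : 0 ≤ N * s)
    nlinarith
  have hexp : (N : ℝ) ^ 12 ≤ Real.exp (A - 4 * q - (B + q)) := by
    have e1 : (N : ℝ) ^ 12 = Real.exp (((12 : ℕ) : ℝ) * Real.log N) := by
      rw [Real.exp_nat_mul, Real.exp_log hN0]
    rw [e1]
    refine Real.exp_le_exp.2 ?_
    have h1 : δ * N * s ≤ s * ‖S‖ := by nlinarith
    have h2 : 24 * Real.log N ≤ δ * N * s := by
      have h3 := mul_le_mul_of_nonneg_right hs0 hN0.le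
      have e2 : 24 * (Real.log N / N) * N = 24 * Real.log N := by field_simp
      rw [e2] at h3
      linarith
    push_cast
    linarith
  rintro ⟨-, hm2⟩
  obtain ⟨hv1, -⟩ := hv
  have hQw : 0 ≤ ‖Q.eval (v + w)‖ := norm_nonneg _
  have hPv0 : 0 < ‖P.eval v‖ := norm_pos_iff.2 hPv
  have hQv0 : 0 < ‖Q.eval v‖ := norm_pos_iff.2 hQv
  have h6 : (0 : ℝ) < (N : ℝ) ^ 6 := by positivity
  -- `|P (v + w)| |Q v| ≥ N ^ 12 |P v| |Q (v + w)|`
  have hkey : (N : ℝ) ^ 12 * (‖P.eval v‖ * ‖Q.eval (v + w)‖) ≤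
      ‖P.eval (v + w)‖ * ‖Q.eval v‖ := by
    calc (N : ℝ) ^ 12 * (‖P.eval v‖ * ‖Q.eval (v + w)‖) ≤
        (N : ℝ) ^ 12 * (‖P.eval v‖ * (‖Q.eval v‖ * Real.exp (B + q))) := by gcongr
      _ ≤ Real.exp (A - 4 * q - (B + q)) * (‖P.eval v‖ * (‖Q.eval v‖ * Real.exp (B + q))) := by
          gcongr
      _ = (‖P.eval v‖ * (Real.exp (A - 4 * q - (B + q)) * Real.exp (B + q))) * ‖Q.eval v‖ := by
          ring
      _ = (‖P.eval v‖ * Real.exp (A - 4 * q)) * ‖Q.eval v‖ := by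
          rw [← Real.exp_add, sub_add_cancel]
      _ ≤ ‖P.eval (v + w)‖ * ‖Q.eval v‖ := by gcongr
  have h7 : ‖P.eval (v + w)‖ * ‖Q.eval v‖ ≤
      ((N : ℝ) ^ 6 * ‖Q.eval (v + w)‖) * ((N : ℝ) ^ 6 * ‖P.eval v‖) := by
    gcongr
  have hQpos : 0 < ‖Q.eval (v + w)‖ := by
    have : 0 < (N : ℝ) ^ 6 * ‖Q.eval (v + w)‖ := (norm_nonneg _).trans_lt hm2
    exact (mul_pos_iff_of_pos_left h6).1 this
  have h8 : ‖P.eval (v + w)‖ * ‖Q.eval v‖ <
      ((N : ℝ) ^ 6 * ‖Q.eval (v + w)‖) * ((N : ℝ) ^ 6 * ‖P.eval v‖) := by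
    refine mul_lt_mul'' hm2 hv1 (norm_nonneg _) (norm_nonneg _)
  have e3 : ((N : ℝ) ^ 6 * ‖Q.eval (v + w)‖) * ((N : ℝ) ^ 6 * ‖P.eval v‖) =
      (N : ℝ) ^ 12 * (‖P.eval v‖ * ‖Q.eval (v + w)‖) := by ring
  linarith

end Pool.Agent.U1.HD
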