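import Mathlib
import Pool.Agent.U1.HD.Loc

/-! The main theorem for rational maps with a local transversality condition. -/

set_option autoImplicit false

open Polynomial Finset Metric Filter Topology MeasureTheory
open scoped OnePoint

namespace Pool.Agent.U1.HD

variable {N : ℕ} {P Q : ℂ[X]} {δ ε L X : ℝ}

/-- maps with marked points off `Mid` are hyperbolic -/
theorem critL (hN : 4 ≤ N) (hε : 0 < ε) (hεN : 8 ≤ ε * N) (hc : (N : ℝ) ^ 6 ≤ Real.exp (δ * N))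
    (h2 : 16 * L ≤ (N : ℝ) ^ 2) (h : Loc δ ε X N P Q)
    (hcr : ∀ c : ℂ, Q.eval c ≠ 0 → (derivative P * Q - P * derivative Q).eval c = 0 →
      Far (δ * N) ‖P.eval c‖ ‖Q.eval c‖)
    (hinf : Far (δ * N) ‖P.coeff N‖ ‖Q.coeff N‖) {v w : ℂ} (hv : ‖v‖ ≤ L) (hw : ‖w‖ ≤ L)
    (hvw : v ≠ w) (hvM : v ∉ Mid N P Q) (hwM : w ∉ Mid N P Q) :
    HypP (C w * P + C v * Q) (P + Q) := by
  have hN0 : 0 < N := by omega
  have hNr : (4 : ℝ) ≤ N := by exact_mod_cast hN
  set r : ℝ := ((N : ℝ) ^ 4)⁻¹ with hr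
  set η : ℝ := 2 / (N : ℝ) ^ 6 with hη
  have hr0 : 0 < r := by positivity
  have hN2 : (16 : ℝ) ≤ (N : ℝ) ^ 2 := by nlinarith
  set u : ℝ := ((N : ℝ) ^ 2)⁻¹ with hu
  have hu0 : 0 < u := by positivity
  have hu16 : u ≤ 1 / 16 := by
    rw [hu, inv_le_comm₀ (by positivity) (by norm_num)]
    norm_num
    exact hN2
  have hru : r = u ^ 2 := by rw [hr, hu, inv_pow, ← pow_mul]
  have hηr : η = 2 * u * r := by
    rw [hη, hr, hu]
    field_simp
  have hη1 : η ≤ 1 / 2 := by rw [hηr, hru]; nlinarith [mul_pos hu0 hu0]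
  have hfar : ∀ x y : ℝ, 0 ≤ x → 0 ≤ y → Far (δ * N) x y → x ≤ η * y ∨ y ≤ η * x := by
    intro x y hx hy hxy
    refine (hxy.small hx hy hc).imp (fun h3 => le_eta6 hN0 ?_) fun h3 => le_eta6 hN0 ?_
    · linarith
    · linarith
  refine trapG (by omega : 1 ≤ N) h.coprime h.degree hvw (η := η) (r := r) (by positivity)
    (by linarith) hr0 ?_ (hfar _ _ (norm_nonneg _) (norm_nonneg _) hinf)
    (fun c hc1 hc2 => hfar _ _ (norm_nonneg _) (norm_nonneg _) (hcr c hc1 hc2)) ?_ ?_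
  · have h3 : ‖w - v‖ ≤ 2 * L := (norm_sub_le _ _).trans (by linarith)
    have h4 : 16 * L * u ≤ 1 := by
      have := mul_le_mul_of_nonneg_right h2 hu0.le
      rwa [hu, mul_inv_cancel₀ (by positivity)] at this
    have h5 : ‖w - v‖ * η ≤ 2 * L * η := by gcongr
    have h7 : 2 * L * η = (16 * L * u) * (r / 4) := by rw [hηr]; ring
    have h8 : (16 * L * u) * (r / 4) ≤ 1 * (r / 4) := by gcongr
    nlinarith
  · intro z hz
    exact (spreadL hN hε hεN hc h hvM z hz).imp (le_eta6 hN0) (le_eta6 hN0)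
  · intro z hz
    exact (spreadL hN hε hεN hc h hwM z hz).imp (le_eta6 hN0) (le_eta6 hN0)

/-- the exponential beats the power -/
theorem exp_ev (hδ : 0 < δ) : ∀ᶠ N : ℕ in atTop, (N : ℝ) ^ 6 ≤ Real.exp (δ * N) := by
  have hlim : Tendsto (fun x : ℝ => Real.log x / x) atTop (𝓝 0) :=
    Real.isLittleO_log_id_atTop.tendsto_div_nhds_zero
  have h2 := (hlim.comp tendsto_natCast_atTop_atTop).eventually (gt_mem_nhds (by positivity :
    (0 : ℝ) < δ / 6))
  filter_upwards [h2, eventually_gt_atTop 0] with N hN hN0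
  have hN0' : (0 : ℝ) < N := by exact_mod_cast hN0
  simp only [Function.comp_apply] at hN
  rw [div_lt_iff₀ hN0'] at hN
  have e1 : (N : ℝ) ^ 6 = Real.exp (((6 : ℕ) : ℝ) * Real.log N) := by
    rw [Real.exp_nat_mul, Real.exp_log hN0']
  rw [e1]
  refine Real.exp_le_exp.2 ?_
  push_cast
  linarith

theorem lin_ev {c : ℝ} (hc : 0 < c) (x : ℝ) : ∀ᶠ N : ℕ in atTop, x ≤ c * (N : ℝ) := by
  have h1 : Tendsto (fun N : ℕ => c * (N : ℝ)) atTop atTop :=
    tendsto_natCast_atTop_atTop.const_mul_atTop hc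
  exact h1.eventually_ge_atTop x

theorem rate_ev (k : ℝ) {c : ℝ} (hc : 0 < c) : ∀ᶠ N : ℕ in atTop, k * (Real.log N / N) < c := by
  have hlim : Tendsto (fun x : ℝ => Real.log x / x) atTop (𝓝 0) :=
    Real.isLittleO_log_id_atTop.tendsto_div_nhds_zero
  have h2 := (hlim.comp tendsto_natCast_atTop_atTop).const_mul k
  rw [mul_zero] at h2
  exact h2.eventually (gt_mem_nhds hc)

/-- near every point there are points off `Mid`, which avoid a given point -/
theorem nearbyL (hN : 2 ≤ N) (hδ : 0 < δ) (hε : 0 < ε) (hc : (N : ℝ) ^ 6 ≤ Real.exp (δ * N))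
    (h : Loc δ ε X N P Q) (hs1 : 10 * (48 / δ * (Real.log N / N)) ≤ δ * ε ^ 2)
    (hs2 : 48 / δ * (Real.log N / N) ≤ ε / 2) {v u : ℂ} (hvX : ‖v‖ ≤ X) (huv : u ≠ v) :
    ∃ v' : ℂ, v' ∉ Mid N P Q ∧ ‖v' - v‖ ≤ 48 / δ * (Real.log N / N) ∧ v' ≠ u := by
  have hN0 : (0 : ℝ) < N := by
    have : 0 < N := by omega
    exact_mod_cast this
  have hlog : 0 < Real.log N := Real.log_pos (by exact_mod_cast hN)
  have hρ : 0 < Real.log N / N := by positivity
  by_cases hv : v ∈ Mid N P Q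
  · have key : ∀ k : ℝ, 24 ≤ k → k ≤ 48 → ∃ w : ℂ, ‖w‖ = k / δ * (Real.log N / N) ∧
        v + w ∉ Mid N P Q := by
      intro k hk1 hk2
      have h1 : k / δ * (Real.log N / N) ≤ 48 / δ * (Real.log N / N) := by gcongr
      refine moveL hN hδ hε hc h hvX hv ?_ (by linarith) (h1.trans hs2)
      have e1 : δ * (k / δ * (Real.log N / N)) = k * (Real.log N / N) := by field_simp
      rw [e1]
      gcongr
    obtain ⟨w₁, h1, h2⟩ := key 24 le_rfl (by norm_num)
    obtain ⟨w₂, h3, h4⟩ := key 48 (by norm_num) le_rfl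
    by_cases h5 : v + w₁ = u
    · refine ⟨v + w₂, h4, by rw [add_sub_cancel_left, h3], ?_⟩
      intro h6
      have h7 : w₁ = w₂ := add_left_cancel (h5.trans h6.symm)
      rw [h7, h3] at h1
      have h8 : 0 < 24 / δ * (Real.log N / N) := by positivity
      have h9 : 48 / δ * (Real.log N / N) = 2 * (24 / δ * (Real.log N / N)) := by ring
      linarith
    · refine ⟨v + w₁, h2, ?_, h5⟩
      rw [add_sub_cancel_left, h1]
      gcongr
      norm_num
  · refine ⟨v, hv, ?_, huv.symm⟩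
    rw [sub_self, norm_zero]
    positivity

/-- Everything together. -/
theorem mainL (hδ : 0 < δ) (hε : 0 < ε) (hL : 0 ≤ L) : ∃ K : ℝ, 0 < K ∧ ∃ N₀ : ℕ, ∀ N : ℕ,
    N₀ ≤ N → ∀ P Q : ℂ[X], Loc δ ε (L + 1) N P Q →
      (∀ c : ℂ, Q.eval c ≠ 0 → (derivative P * Q - P * derivative Q).eval c = 0 →
        Far (δ * N) ‖P.eval c‖ ‖Q.eval c‖) →
      Far (δ * N) ‖P.coeff N‖ ‖Q.coeff N‖ →
      volume {x : ℂ × ℂ | ‖x.1‖ ≤ L ∧ ‖x.2‖ ≤ L ∧ x.1 ≠ x.2 ∧
        ¬ HypP (C x.2 * P + C x.1 * Q) (P + Q)} ≤ ENNReal.ofReal (K * (Real.log N / N)) ∧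
      ∀ v w : ℂ, ‖v‖ ≤ L → ‖w‖ ≤ L → v ≠ w → ∃ v' w' : ℂ, v' ≠ w' ∧
        ‖v' - v‖ ≤ K * (Real.log N / N) ∧ ‖w' - w‖ ≤ K * (Real.log N / N) ∧
        HypP (C w' * P + C v' * Q) (P + Q) := by
  set K₁ : ℝ := 24 * Real.pi / δ ^ 2 with hK₁
  have hK₁0 : 0 < K₁ := by positivity
  set K : ℝ := K₁ * (2 * (Real.pi * L ^ 2)) + 48 / δ with hK
  have hK0 : 0 < K := by positivity
  refine ⟨K, hK0, ?_⟩
  obtain ⟨N₀, hN₀⟩ := eventually_atTop.1 ((exp_ev hδ).and ((lin_ev hε 8).and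
    ((rate_ev (10 * (48 / δ)) (by positivity : 0 < δ * ε ^ 2)).and
    ((rate_ev (48 / δ) (by positivity : 0 < min (ε / 2) 1)).and
    ((sq_large (16 * (L + 1))).and (eventually_ge_atTop 4))))))
  refine ⟨N₀, fun N hN P Q h hcr hinf => ?_⟩
  obtain ⟨h1, h2, h3, h4, h5, h6⟩ := hN₀ N hN
  have h3' : 10 * (48 / δ * (Real.log N / N)) ≤ δ * ε ^ 2 := by
    have e1 : 10 * (48 / δ * (Real.log N / N)) = 10 * (48 / δ) * (Real.log N / N) := by ring
    rw [e1]
    exact h3.le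
  have h4' : 48 / δ * (Real.log N / N) ≤ ε / 2 := (h4.trans_le (min_le_left _ _)).le
  have h4'' : 48 / δ * (Real.log N / N) ≤ 1 := (h4.trans_le (min_le_right _ _)).le
  have hN2 : 2 ≤ N := by omega
  have hN0' : (0 : ℝ) < N := by
    have : 0 < N := by omega
    exact_mod_cast this
  have hlog : 0 < Real.log N := Real.log_pos (by exact_mod_cast hN2)
  have hρ0 : 0 < Real.log N / N := by positivity
  have harea := areaL hN2 hδ h1 h
  have hareaL : volume (Mid N P Q ∩ closedBall (0 : ℂ) L) ≤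
      ENNReal.ofReal (K₁ * (Real.log N / N)) :=
    (measure_mono (Set.inter_subset_inter_right _
      (closedBall_subset_closedBall (by linarith)))).trans harea
  have hA : ∀ v w : ℂ, ‖v‖ ≤ L + 1 → ‖w‖ ≤ L + 1 → v ≠ w → v ∉ Mid N P Q → w ∉ Mid N P Q →
      HypP (C w * P + C v * Q) (P + Q) := fun v w hv hw hvw hvB hwB =>
    critL h6 hε h2 h1 h5 h hcr hinf hv hw hvw hvB hwB
  constructor
  · have hsub : {x : ℂ × ℂ | ‖x.1‖ ≤ L ∧ ‖x.2‖ ≤ L ∧ x.1 ≠ x.2 ∧
        ¬ HypP (C x.2 * P + C x.1 * Q) (P + Q)} ⊆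
        ((Mid N P Q ∩ closedBall (0 : ℂ) L) ×ˢ closedBall (0 : ℂ) L) ∪
          (closedBall (0 : ℂ) L ×ˢ (Mid N P Q ∩ closedBall (0 : ℂ) L)) := by
      rintro ⟨v, w⟩ ⟨hv, hw, hvw, hno⟩
      simp only at hv hw hvw hno
      have hv' : v ∈ closedBall (0 : ℂ) L := mem_closedBall_zero_iff.2 hv
      have hw' : w ∈ closedBall (0 : ℂ) L := mem_closedBall_zero_iff.2 hw
      by_cases hvZ : v ∈ Mid N P Q
      · exact Or.inl ⟨⟨hvZ, hv'⟩, hw'⟩
      · by_cases hwZ : w ∈ Mid N P Q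
        · exact Or.inr ⟨hv', hwZ, hw'⟩
        · exact absurd (hA v w (by linarith) (by linarith) hvw hvZ hwZ) hno
    refine (measure_mono hsub).trans ((measure_union_le _ _).trans ?_)
    rw [Measure.volume_eq_prod, Measure.prod_prod, Measure.prod_prod, vol_disc L hL]
    calc volume (Mid N P Q ∩ closedBall (0 : ℂ) L) * ENNReal.ofReal (Real.pi * L ^ 2) +
        ENNReal.ofReal (Real.pi * L ^ 2) * volume (Mid N P Q ∩ closedBall (0 : ℂ) L) ≤
        ENNReal.ofReal (K₁ * (Real.log N / N)) * ENNReal.ofReal (Real.pi * L ^ 2) +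
        ENNReal.ofReal (Real.pi * L ^ 2) * ENNReal.ofReal (K₁ * (Real.log N / N)) := by gcongr
      _ = ENNReal.ofReal (K₁ * (2 * (Real.pi * L ^ 2)) * (Real.log N / N)) := by
          rw [← ENNReal.ofReal_mul (by positivity), ← ENNReal.ofReal_mul (by positivity),
            ← ENNReal.ofReal_add (by positivity) (by positivity)]
          congr 1
          ring
      _ ≤ _ := by
          refine ENNReal.ofReal_le_ofReal ?_
          gcongr
          rw [hK]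
          have h8 : 0 < 48 / δ := by positivity
          linarith
  · have hdist : 48 / δ * (Real.log N / N) ≤ K * (Real.log N / N) := by
      gcongr
      rw [hK]
      have : 0 ≤ K₁ * (2 * (Real.pi * L ^ 2)) := by positivity
      linarith
    intro v w hv hw hvw
    obtain ⟨w', hw1, hw2, hw3⟩ := nearbyL hN2 hδ hε h1 h h3' h4' (v := w) (u := v)
      (by linarith) hvw
    obtain ⟨v', hv1, hv2, hv3⟩ := nearbyL hN2 hδ hε h1 h h3' h4' (v := v) (u := w')
      (by linarith) hw3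
    have hadd : ∀ v v' : ℂ, ‖v‖ ≤ L → ‖v' - v‖ ≤ 48 / δ * (Real.log N / N) → ‖v'‖ ≤ L + 1 := by
      intro v v' hv hv'
      have h7 := norm_add_le (v' - v) v
      rw [sub_add_cancel] at h7
      linarith
    exact ⟨v', w', hv3, hv2.trans hdist, hw2.trans hdist,
      hA v' w' (hadd v v' hv hv2) (hadd w w' hw hw2) hv3 hv1 hw1⟩

end Pool.Agent.U1.HD
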