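import Mathlib
import Pool.Agent.U1.HD.Loc

/-! Rational maps whose zeros and poles are close to those of a power of a fixed map. -/

set_option autoImplicit false

open Polynomial Finset Metric Filter Topology

namespace Pool.Agent.U1.HD

/-- the polynomial with leading coefficient `μ` and zeros `a x` -/
noncomputable def pp {ι : Type} [Fintype ι] (μ : ℂ) (a : ι → ℂ) : ℂ[X] :=
  C μ * ∏ x, (X - C (a x))

section pp

variable {ι : Type} [Fintype ι] {μ : ℂ} {a : ι → ℂ}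

theorem pp_eval (z : ℂ) : (pp μ a).eval z = μ * ∏ x, (z - a x) := by
  unfold pp
  rw [eval_mul, eval_C, eval_prod]
  simp

theorem pp_natDegree (hμ : μ ≠ 0) : (pp μ a).natDegree = Fintype.card ι := by
  unfold pp
  rw [natDegree_C_mul hμ, natDegree_prod_of_monic _ _ fun i _ => monic_X_sub_C (a i)]
  simp

theorem pp_coeff : (pp μ a).coeff (Fintype.card ι) = μ := by
  unfold pp
  rw [coeff_C_mul]
  have h1 : (∏ i, (X - C (a i)) : ℂ[X]).Monic := monic_prod_of_monic _ _ fun i _ => monic_X_sub_C _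
  have h2 : (∏ i, (X - C (a i)) : ℂ[X]).natDegree = Fintype.card ι := by
    rw [natDegree_prod_of_monic _ _ fun i _ => monic_X_sub_C (a i)]
    simp
  have h3 := h1.coeff_natDegree
  rw [h2] at h3
  rw [h3, mul_one]

theorem pp_root (hμ : μ ≠ 0) {z : ℂ} : (pp μ a).eval z = 0 ↔ ∃ x, z = a x := by
  rw [pp_eval, mul_eq_zero, Finset.prod_eq_zero_iff]
  constructor
  · rintro (h | ⟨x, -, hx⟩)
    · exact absurd h hμ
    · exact ⟨x, sub_eq_zero.1 hx⟩
  · rintro ⟨x, rfl⟩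
    exact Or.inr ⟨x, Finset.mem_univ _, sub_self _⟩

theorem pp_logd (hμ : μ ≠ 0) {z : ℂ} (h : ∀ x, z ≠ a x) :
    (derivative (pp μ a)).eval z / (pp μ a).eval z = ∑ x, 1 / (z - a x) := by
  have h1 : ∀ x ∈ (Finset.univ : Finset ι), (X - C (a x)).eval z ≠ 0 := fun x _ => by
    simpa using sub_ne_zero.2 (h x)
  have h2 := logd Finset.univ (fun x => X - C (a x)) z h1
  have h3 : (∏ x, (X - C (a x)) : ℂ[X]).eval z ≠ 0 := by
    rw [eval_prod]
    exact Finset.prod_ne_zero_iff.2 h1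
  have e0 : ∑ x : ι, (derivative (X - C (a x))).eval z / (X - C (a x)).eval z =
      ∑ x : ι, 1 / (z - a x) := Finset.sum_congr rfl fun x _ => by simp
  rw [e0] at h2
  unfold pp
  rw [derivative_mul, derivative_C, zero_mul, zero_add, eval_mul, eval_mul, h2, eval_C]
  field_simp

theorem pp_log (hμ : μ ≠ 0) {z : ℂ} (h : ∀ x, z ≠ a x) :
    Real.log ‖(pp μ a).eval z‖ = Real.log ‖μ‖ + ∑ x, Real.log ‖z - a x‖ := by
  rw [pp_eval, norm_mul, norm_prod, Real.log_mul (norm_ne_zero_iff.2 hμ)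
    (Finset.prod_ne_zero_iff.2 fun x _ => norm_ne_zero_iff.2 (sub_ne_zero.2 (h x))),
    Real.log_prod fun x _ => norm_ne_zero_iff.2 (sub_ne_zero.2 (h x))]

end pp

theorem prod_fst {d m : ℕ} (f : Fin d → ℝ) : ∏ x : Fin d × Fin m, f x.1 = (∏ i, f i) ^ m := by
  rw [Fintype.prod_prod_type]
  simp [Finset.prod_pow]

theorem sum_fst {d m : ℕ} {R : Type*} [CommRing R] (f : Fin d → R) :
    ∑ x : Fin d × Fin m, f x.1 = m * ∑ i, f i := by
  rw [Fintype.sum_prod_type]
  simp [Finset.mul_sum]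

/-- the logarithm at two close points -/
theorem log_close {x y s η : ℝ} (hs : 0 < s) (hx : s ≤ x) (hη : η ≤ s / 2) (h : |y - x| ≤ η) :
    0 < y ∧ |Real.log y - Real.log x| ≤ 2 * η / s := by
  have hη0 : 0 ≤ η := (abs_nonneg _).trans h
  have hx0 : 0 < x := hs.trans_le hx
  obtain ⟨h1, h2⟩ := abs_le.1 h
  have hy0 : 0 < y := by linarith
  refine ⟨hy0, ?_⟩
  have h3 : Real.log y - Real.log x ≤ y / x - 1 := by
    rw [← Real.log_div hy0.ne' hx0.ne']
    exact Real.log_le_sub_one_of_pos (by positivity)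
  have h4 : Real.log x - Real.log y ≤ x / y - 1 := by
    rw [← Real.log_div hx0.ne' hy0.ne']
    exact Real.log_le_sub_one_of_pos (by positivity)
  have h5 : y / x - 1 ≤ 2 * η / s := by
    have e1 : y / x - 1 = (y - x) / x := by field_simp
    rw [e1, div_le_div_iff₀ hx0 hs]
    nlinarith
  have h6 : x / y - 1 ≤ 2 * η / s := by
    have e1 : x / y - 1 = (x - y) / y := by field_simp
    rw [e1, div_le_div_iff₀ hy0 hs]
    nlinarith
  rw [abs_le]
  constructor <;> linarith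

theorem inv_close {z a α : ℂ} {s η : ℝ} (hs : 0 < s) (hx : s ≤ ‖z - α‖) (hη : η ≤ s / 2)
    (h : ‖a - α‖ ≤ η) : ‖1 / (z - a) - 1 / (z - α)‖ ≤ 2 * η / s ^ 2 := by
  have hη0 : 0 ≤ η := (norm_nonneg _).trans h
  have h1 : s / 2 ≤ ‖z - a‖ := by
    have h2 := norm_add_le (z - a) (a - α)
    rw [sub_add_sub_cancel] at h2
    linarith
  have hza : z - a ≠ 0 := norm_pos_iff.1 (by linarith)
  have hzα : z - α ≠ 0 := norm_pos_iff.1 (by linarith)
  have e1 : 1 / (z - a) - 1 / (z - α) = (a - α) / ((z - a) * (z - α)) := by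
    field_simp
    ring
  rw [e1, norm_div, norm_mul]
  calc ‖a - α‖ / (‖z - a‖ * ‖z - α‖) ≤ η / (s / 2 * s) := by gcongr
    _ = 2 * η / s ^ 2 := by field_simp

/-- zeros, poles and leading coefficient close to those of `(lam ∏ (z - α i) / ∏ (z - β j)) ^ m` -/
structure Close (η : ℝ) {d e : ℕ} (lam : ℂ) (α : Fin d → ℂ) (β : Fin e → ℂ) (m : ℕ) (μ : ℂ)
    (a : Fin d × Fin m → ℂ) (b : Fin e × Fin m → ℂ) : Prop where
  zeros : ∀ x, ‖a x - α x.1‖ ≤ η
  poles : ∀ x, ‖b x - β x.1‖ ≤ η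
  ne : μ ≠ 0
  const : |Real.log ‖μ‖ - m * Real.log ‖lam‖| ≤ η * m

variable {d e m : ℕ} {lam μ : ℂ} {α : Fin d → ℂ} {β : Fin e → ℂ} {a : Fin d × Fin m → ℂ}
  {b : Fin e × Fin m → ℂ} {η s : ℝ}

/-- `log |B|` -/
noncomputable def lg (lam : ℂ) (α : Fin d → ℂ) (β : Fin e → ℂ) (z : ℂ) : ℝ :=
  Real.log ‖lam‖ + ∑ i, Real.log ‖z - α i‖ - ∑ j, Real.log ‖z - β j‖

/-- `B' / B` -/
noncomputable def ld (α : Fin d → ℂ) (β : Fin e → ℂ) (z : ℂ) : ℂ :=
  ∑ i, 1 / (z - α i) - ∑ j, 1 / (z - β j)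

/-- away from the centres -/
theorem away (hs : 0 < s) (hη : η ≤ s / 2) (h : Close η lam α β m μ a b) {z : ℂ}
    (hα : ∀ i, s ≤ ‖z - α i‖) (hβ : ∀ j, s ≤ ‖z - β j‖) :
    (pp μ a).eval z ≠ 0 ∧ (pp 1 b).eval z ≠ 0 ∧
    |Real.log (‖(pp μ a).eval z‖ / ‖(pp 1 b).eval z‖) - m * lg lam α β z| ≤
      m * (η * (1 + (d + e) * (2 / s))) ∧
    ‖logDer (pp μ a) (pp 1 b) z - m * ld α β z‖ ≤ m * (η * ((d + e) * (2 / s ^ 2))) := by
  have hza : ∀ x, |‖z - a x‖ - ‖z - α x.1‖| ≤ η := fun x => by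
    refine (abs_norm_sub_norm_le _ _).trans ?_
    have e1 : z - a x - (z - α x.1) = -(a x - α x.1) := by ring
    rw [e1, norm_neg]
    exact h.zeros x
  have hzb : ∀ x, |‖z - b x‖ - ‖z - β x.1‖| ≤ η := fun x => by
    refine (abs_norm_sub_norm_le _ _).trans ?_
    have e1 : z - b x - (z - β x.1) = -(b x - β x.1) := by ring
    rw [e1, norm_neg]
    exact h.poles x
  have la := fun x => log_close hs (hα x.1) hη (hza x)
  have lb := fun x => log_close hs (hβ x.1) hη (hzb x)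
  have ha : ∀ x, z ≠ a x := fun x => sub_ne_zero.1 (norm_pos_iff.1 (la x).1)
  have hb : ∀ x, z ≠ b x := fun x => sub_ne_zero.1 (norm_pos_iff.1 (lb x).1)
  have hP : (pp μ a).eval z ≠ 0 := by
    rw [Ne, pp_root h.ne]
    rintro ⟨x, hx⟩
    exact ha x hx
  have hQ : (pp 1 b).eval z ≠ 0 := by
    rw [Ne, pp_root one_ne_zero]
    rintro ⟨x, hx⟩
    exact hb x hx
  refine ⟨hP, hQ, ?_, ?_⟩
  · rw [Real.log_div (norm_ne_zero_iff.2 hP) (norm_ne_zero_iff.2 hQ), pp_log h.ne ha,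
      pp_log one_ne_zero hb, norm_one, Real.log_one, zero_add]
    unfold lg
    have s1 : |∑ x, Real.log ‖z - a x‖ - m * ∑ i, Real.log ‖z - α i‖| ≤ m * (η * (d * (2 / s))) := by
      rw [← sum_fst (m := m) fun i => Real.log ‖z - α i‖, ← Finset.sum_sub_distrib]
      refine (Finset.abs_sum_le_sum_abs _ _).trans ?_
      refine (Finset.sum_le_sum fun x _ => (la x).2).trans_eq ?_
      rw [Finset.sum_const, Finset.card_univ, Fintype.card_prod, Fintype.card_fin,
        Fintype.card_fin, nsmul_eq_mul]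
      push_cast
      ring
    have s2 : |∑ x, Real.log ‖z - b x‖ - m * ∑ i, Real.log ‖z - β i‖| ≤ m * (η * (e * (2 / s))) := by
      rw [← sum_fst (m := m) fun i => Real.log ‖z - β i‖, ← Finset.sum_sub_distrib]
      refine (Finset.abs_sum_le_sum_abs _ _).trans ?_
      refine (Finset.sum_le_sum fun x _ => (lb x).2).trans_eq ?_
      rw [Finset.sum_const, Finset.card_univ, Fintype.card_prod, Fintype.card_fin,
        Fintype.card_fin, nsmul_eq_mul]
      push_cast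
      ring
    have s3 := h.const
    rw [abs_le] at s1 s2 s3 ⊢
    constructor <;> nlinarith [s1.1, s1.2, s2.1, s2.2, s3.1, s3.2]
  · unfold logDer ld
    rw [pp_logd h.ne ha, pp_logd one_ne_zero hb]
    have s1 : ‖∑ x, 1 / (z - a x) - m * ∑ i, 1 / (z - α i)‖ ≤ m * (η * (d * (2 / s ^ 2))) := by
      rw [← sum_fst (m := m) fun i => 1 / (z - α i), ← Finset.sum_sub_distrib]
      refine (norm_sum_le _ _).trans ?_
      refine (Finset.sum_le_sum fun x _ => inv_close hs (hα x.1) hη (h.zeros x)).trans_eq ?_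
      rw [Finset.sum_const, Finset.card_univ, Fintype.card_prod, Fintype.card_fin,
        Fintype.card_fin, nsmul_eq_mul]
      push_cast
      ring
    have s2 : ‖∑ x, 1 / (z - b x) - m * ∑ i, 1 / (z - β i)‖ ≤ m * (η * (e * (2 / s ^ 2))) := by
      rw [← sum_fst (m := m) fun i => 1 / (z - β i), ← Finset.sum_sub_distrib]
      refine (norm_sum_le _ _).trans ?_
      refine (Finset.sum_le_sum fun x _ => inv_close hs (hβ x.1) hη (h.poles x)).trans_eq ?_
      rw [Finset.sum_const, Finset.card_univ, Fintype.card_prod, Fintype.card_fin,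
        Fintype.card_fin, nsmul_eq_mul]
      push_cast
      ring
    have e1 : ∑ x, 1 / (z - a x) - ∑ x, 1 / (z - b x) -
        m * (∑ i, 1 / (z - α i) - ∑ j, 1 / (z - β j)) =
        (∑ x, 1 / (z - a x) - m * ∑ i, 1 / (z - α i)) -
          (∑ x, 1 / (z - b x) - m * ∑ j, 1 / (z - β j)) := by ring
    rw [e1]
    refine (norm_sub_le _ _).trans ((add_le_add s1 s2).trans_eq ?_)
    ring

/-- near a zero the product is small -/
theorem near_prod {d e m : ℕ} {μ ν : ℂ} {a : Fin d × Fin m → ℂ} {b : Fin e × Fin m → ℂ} {z : ℂ}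
    {C₁ C₂ s T D : ℝ} (hC₁ : 0 ≤ C₁) (hμ : ‖μ‖ ≤ C₁ ^ m) (hν : C₂ ^ m ≤ ‖ν‖)
    (hs : 0 ≤ s) (hT : 1 ≤ T) (hD : 0 ≤ D) {i₀ : Fin d} (h1 : ∀ k, ‖z - a (i₀, k)‖ ≤ s)
    (h2 : ∀ x, ‖z - a x‖ ≤ T) (h3 : ∀ x, D ≤ ‖z - b x‖)
    (hfin : Real.exp 1 * (C₁ * (s * T ^ d)) ≤ C₂ * D ^ e) :
    Real.exp 1 ^ m * ‖(pp μ a).eval z‖ ≤ ‖(pp ν b).eval z‖ := by
  have hT0 : 0 ≤ T := by linarith
  have p1 : ∏ x, ‖z - a x‖ ≤ (s * T ^ d) ^ m := by
    set f : Fin d → ℝ := fun i => if i = i₀ then s else T with hf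
    have q1 : ∏ x : Fin d × Fin m, ‖z - a x‖ ≤ ∏ x : Fin d × Fin m, f x.1 := by
      refine Finset.prod_le_prod (fun x _ => norm_nonneg _) fun x _ => ?_
      by_cases hx : x.1 = i₀
      · simp only [hf, hx, if_true]
        have := h1 x.2
        rwa [← hx] at this
      · simp only [hf, hx, if_false]
        exact h2 x
    rw [prod_fst f] at q1
    refine q1.trans ?_
    have q2 : ∏ i, f i ≤ s * T ^ d := by
      rw [← Finset.mul_prod_erase Finset.univ f (Finset.mem_univ i₀)]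
      have q3 : f i₀ = s := by simp [hf]
      rw [q3]
      refine mul_le_mul_of_nonneg_left ?_ hs
      calc ∏ i ∈ Finset.univ.erase i₀, f i = ∏ _i ∈ Finset.univ.erase i₀, T := by
            refine Finset.prod_congr rfl fun i hi => ?_
            simp [hf, Finset.ne_of_mem_erase hi]
        _ = T ^ (Finset.univ.erase i₀).card := by rw [Finset.prod_const]
        _ ≤ T ^ d := by
            refine pow_le_pow_right₀ hT ?_
            refine (Finset.card_erase_le).trans ?_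
            simp
    have q4 : 0 ≤ ∏ i, f i := Finset.prod_nonneg fun i _ => by
      simp only [hf]
      split_ifs <;> assumption
    gcongr
  have p2 : (D ^ e) ^ m ≤ ∏ x, ‖z - b x‖ := by
    calc (D ^ e) ^ m = ∏ _x : Fin e × Fin m, D := by
          rw [Finset.prod_const, Finset.card_univ, Fintype.card_prod, Fintype.card_fin,
            Fintype.card_fin, pow_mul]
      _ ≤ _ := Finset.prod_le_prod (fun x _ => hD) fun x _ => h3 x
  rw [pp_eval, pp_eval, norm_mul, norm_mul, norm_prod, norm_prod]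
  have hp0 : 0 ≤ ∏ x, ‖z - a x‖ := Finset.prod_nonneg fun _ _ => norm_nonneg _
  have he := Real.exp_pos 1
  calc Real.exp 1 ^ m * (‖μ‖ * ∏ x, ‖z - a x‖) ≤
      Real.exp 1 ^ m * (C₁ ^ m * (s * T ^ d) ^ m) := by gcongr
    _ = (Real.exp 1 * (C₁ * (s * T ^ d))) ^ m := by rw [← mul_pow, ← mul_pow]
    _ ≤ (C₂ * D ^ e) ^ m := by gcongr
    _ = C₂ ^ m * (D ^ e) ^ m := by rw [mul_pow]
    _ ≤ ‖ν‖ * ∏ x, ‖z - b x‖ := by gcongr

end Pool.Agent.U1.HD
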