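import Mathlib
import Pool.Agent.U1.HD.Pow

/-! Rational maps whose zeros and poles are close to those of a power of a fixed map:
the local transversality condition. -/

set_option autoImplicit false

open Polynomial Finset Metric Filter Topology

namespace Pool.Agent.U1.HD

theorem Far.mono {c c' x y : ℝ} (hx : 0 ≤ x) (hy : 0 ≤ y) (h : c' ≤ c) (hf : Far c x y) :
    Far c' x y := by
  have h1 : Real.exp c' ≤ Real.exp c := Real.exp_le_exp.2 h
  exact hf.imp (fun h2 => (mul_le_mul_of_nonneg_right h1 hx).trans h2)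
    fun h2 => (mul_le_mul_of_nonneg_right h1 hy).trans h2

/-- `Far` from the logarithm -/
theorem Far.of_log {c x y : ℝ} (hx : 0 < x) (hy : 0 < y) (h : c ≤ |Real.log (x / y)|) :
    Far c x y := by
  rcases le_abs.1 h with h1 | h1
  · right
    have h2 := Real.exp_le_exp.2 h1
    rw [Real.exp_log (by positivity), le_div_iff₀ hy] at h2
    exact h2
  · left
    have h2 := Real.exp_le_exp.2 h1
    rw [← Real.log_inv, inv_div, Real.exp_log (by positivity), le_div_iff₀ hx] at h2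
    exact h2

theorem lg_swap {d e : ℕ} (lam : ℂ) (α : Fin d → ℂ) (β : Fin e → ℂ) (z : ℂ) :
    lg lam⁻¹ β α z = - lg lam α β z := by
  unfold lg
  rw [norm_inv, Real.log_inv]
  ring

/-- more zeros than poles -/
theorem large_gt {d e : ℕ} (hde : e < d) (lam : ℂ) (α : Fin d → ℂ) (β : Fin e → ℂ) {M : ℝ}
    (hM : 1 ≤ M) (hα : ∀ i, ‖α i‖ ≤ M) (hβ : ∀ j, ‖β j‖ ≤ M) :
    ∃ R : ℝ, ∀ z : ℂ, R ≤ ‖z‖ → 1 ≤ lg lam α β z := by
  refine ⟨max (3 * M) (M + Real.exp (1 + e * Real.log 2 - Real.log ‖lam‖)), fun z hz => ?_⟩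
  have h1 : 3 * M ≤ ‖z‖ := (le_max_left _ _).trans hz
  have h2 : M + Real.exp (1 + e * Real.log 2 - Real.log ‖lam‖) ≤ ‖z‖ := (le_max_right _ _).trans hz
  have h3 : 1 + e * Real.log 2 - Real.log ‖lam‖ ≤ Real.log (‖z‖ - M) := by
    rw [Real.le_log_iff_exp_le (by linarith)]
    linarith
  have h4 : 0 < Real.log (‖z‖ - M) := Real.log_pos (by linarith)
  have h5 : (d : ℝ) * Real.log (‖z‖ - M) ≤ ∑ i, Real.log ‖z - α i‖ := by
    have : ∀ i ∈ (Finset.univ : Finset (Fin d)), Real.log (‖z‖ - M) ≤ Real.log ‖z - α i‖ := by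
      intro i _
      refine Real.log_le_log (by linarith) ?_
      have := norm_sub_norm_le z (α i)
      linarith [hα i]
    have h6 := Finset.card_nsmul_le_sum _ _ _ this
    simpa using h6
  have h6 : ∑ j, Real.log ‖z - β j‖ ≤ (e : ℝ) * (Real.log 2 + Real.log (‖z‖ - M)) := by
    have : ∀ j ∈ (Finset.univ : Finset (Fin e)), Real.log ‖z - β j‖ ≤
        Real.log 2 + Real.log (‖z‖ - M) := by
      intro j _
      rw [← Real.log_mul (by norm_num) (by linarith)]
      have h7 := norm_sub_norm_le z (β j)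
      refine Real.log_le_log (by linarith [hβ j]) ?_
      have := norm_sub_le z (β j)
      linarith [hβ j]
    have h6 := Finset.sum_le_card_nsmul _ _ _ this
    rw [nsmul_eq_mul, Finset.card_univ, Fintype.card_fin] at h6
    exact h6
  have h7 : ((e : ℝ) + 1) * Real.log (‖z‖ - M) ≤ d * Real.log (‖z‖ - M) := by
    have : ((e : ℝ) + 1) ≤ d := by exact_mod_cast hde
    gcongr
  unfold lg
  nlinarith

/-- as many zeros as poles -/
theorem large_eq {d : ℕ} {lam : ℂ} (hlam : Real.log ‖lam‖ ≠ 0) (α β : Fin d → ℂ) {M : ℝ}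
    (hM : 1 ≤ M) (hα : ∀ i, ‖α i‖ ≤ M) (hβ : ∀ j, ‖β j‖ ≤ M) :
    ∃ R : ℝ, ∀ z : ℂ, R ≤ ‖z‖ → |Real.log ‖lam‖| / 2 ≤ |lg lam α β z| := by
  set k : ℝ := |Real.log ‖lam‖| with hk
  have hk0 : 0 < k := abs_pos.2 hlam
  set s : ℝ := max (4 * M) (8 * M * d / k) with hs
  have hs1 : 4 * M ≤ s := le_max_left _ _
  have hs2 : 8 * M * d / k ≤ s := le_max_right _ _
  have hs0 : 0 < s := by linarith
  refine ⟨M + s, fun z hz => ?_⟩
  have h1 : |∑ i, Real.log ‖z - α i‖ - ∑ i, Real.log ‖z - β i‖| ≤ d * (2 * (2 * M) / s) := by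
    rw [← Finset.sum_sub_distrib]
    refine (Finset.abs_sum_le_sum_abs _ _).trans ?_
    have : ∀ i ∈ (Finset.univ : Finset (Fin d)),
        |Real.log ‖z - α i‖ - Real.log ‖z - β i‖| ≤ 2 * (2 * M) / s := by
      intro i _
      refine (log_close hs0 ?_ (by linarith) ?_).2
      · have := norm_sub_norm_le z (β i)
        linarith [hβ i]
      · refine (abs_norm_sub_norm_le _ _).trans ?_
        have e1 : z - α i - (z - β i) = β i - α i := by ring
        rw [e1]
        refine (norm_sub_le _ _).trans ?_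
        linarith [hα i, hβ i]
    have h6 := Finset.sum_le_card_nsmul _ _ _ this
    simpa using h6
  have h2 : d * (2 * (2 * M) / s) ≤ k / 2 := by
    rw [← mul_div_assoc, div_le_iff₀ hs0]
    rw [div_le_iff₀ hk0] at hs2
    nlinarith
  have h3 : k ≤ |lg lam α β z| + |∑ i, Real.log ‖z - α i‖ - ∑ i, Real.log ‖z - β i‖| := by
    have e1 : Real.log ‖lam‖ = lg lam α β z -
        (∑ i, Real.log ‖z - α i‖ - ∑ i, Real.log ‖z - β i‖) := by
      unfold lg
      ring
    rw [hk]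
    nth_rewrite 1 [e1]
    exact abs_sub _ _
  linarith

/-- near infinity -/
theorem large {d e : ℕ} {lam : ℂ} (hlam : d = e → Real.log ‖lam‖ ≠ 0) (α : Fin d → ℂ)
    (β : Fin e → ℂ) : ∃ κ : ℝ, 0 < κ ∧ ∃ R : ℝ, ∀ z : ℂ, R ≤ ‖z‖ → κ ≤ |lg lam α β z| := by
  obtain ⟨M, hM, hα, hβ⟩ : ∃ M : ℝ, 1 ≤ M ∧ (∀ i, ‖α i‖ ≤ M) ∧ ∀ j, ‖β j‖ ≤ M := by
    refine ⟨1 + ∑ i, ‖α i‖ + ∑ j, ‖β j‖, ?_, fun i => ?_, fun j => ?_⟩
    · have h1 : 0 ≤ ∑ i, ‖α i‖ := Finset.sum_nonneg fun _ _ => norm_nonneg _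
      have h2 : 0 ≤ ∑ i, ‖β i‖ := Finset.sum_nonneg fun _ _ => norm_nonneg _
      linarith
    · have h1 := Finset.single_le_sum (f := fun i => ‖α i‖) (fun _ _ => norm_nonneg _)
        (Finset.mem_univ i)
      have h2 : 0 ≤ ∑ i, ‖β i‖ := Finset.sum_nonneg fun _ _ => norm_nonneg _
      linarith
    · have h1 := Finset.single_le_sum (f := fun i => ‖β i‖) (fun _ _ => norm_nonneg _)
        (Finset.mem_univ j)
      have h2 : 0 ≤ ∑ i, ‖α i‖ := Finset.sum_nonneg fun _ _ => norm_nonneg _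
      linarith
  rcases lt_trichotomy e d with h | h | h
  · obtain ⟨R, hR⟩ := large_gt h lam α β hM hα hβ
    exact ⟨1, one_pos, R, fun z hz => (hR z hz).trans (le_abs_self _)⟩
  · subst h
    obtain ⟨R, hR⟩ := large_eq (hlam rfl) α β hM hα hβ
    exact ⟨_, half_pos (abs_pos.2 (hlam rfl)), R, hR⟩
  · obtain ⟨R, hR⟩ := large_gt h lam⁻¹ β α hM hβ hα
    refine ⟨1, one_pos, R, fun z hz => ?_⟩
    have h1 := hR z hz
    rw [lg_swap] at h1
    exact h1.trans (neg_le_abs _)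

/-- the logarithm and the logarithmic derivative are bounded below away from the centres -/
theorem middle {d e : ℕ} (lam : ℂ) (α : Fin d → ℂ) (β : Fin e → ℂ) (R : ℝ) {s : ℝ} (hs : 0 < s)
    (hcr : ∀ z : ℂ, (∀ i, z ≠ α i) → (∀ j, z ≠ β j) → lg lam α β z = 0 → ld α β z ≠ 0) :
    ∃ c : ℝ, 0 < c ∧ ∀ z : ℂ, ‖z‖ ≤ R → (∀ i, s ≤ ‖z - α i‖) → (∀ j, s ≤ ‖z - β j‖) →
      c ≤ |lg lam α β z| ∨ c ≤ ‖ld α β z‖ := by
  set S : Set ℂ := closedBall 0 R ∩ ((⋂ i, {z | s ≤ ‖z - α i‖}) ∩ ⋂ j, {z | s ≤ ‖z - β j‖})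
    with hS
  have hcomp : IsCompact S := by
    refine (isCompact_closedBall 0 R).inter_right ?_
    refine IsClosed.inter (isClosed_iInter fun i => ?_) (isClosed_iInter fun j => ?_)
    · exact isClosed_le continuous_const (by fun_prop)
    · exact isClosed_le continuous_const (by fun_prop)
  have hne : ∀ z ∈ S, (∀ i, z - α i ≠ 0) ∧ ∀ j, z - β j ≠ 0 := by
    rintro z ⟨-, h1, h2⟩
    rw [Set.mem_iInter] at h1 h2
    exact ⟨fun i => norm_pos_iff.1 (hs.trans_le (h1 i)),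
      fun j => norm_pos_iff.1 (hs.trans_le (h2 j))⟩
  have hcont : ContinuousOn (fun z => max |lg lam α β z| ‖ld α β z‖) S := by
    refine ContinuousOn.sup ?_ ?_
    · refine ContinuousOn.abs ?_
      unfold lg
      refine ContinuousOn.sub (ContinuousOn.add continuousOn_const
        (continuousOn_finset_sum _ fun i _ => ?_)) (continuousOn_finset_sum _ fun j _ => ?_)
      · exact ContinuousOn.log (by fun_prop) fun z hz => norm_ne_zero_iff.2 ((hne z hz).1 i)
      · exact ContinuousOn.log (by fun_prop) fun z hz => norm_ne_zero_iff.2 ((hne z hz).2 j)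
    · refine ContinuousOn.norm ?_
      unfold ld
      refine ContinuousOn.sub (continuousOn_finset_sum _ fun i _ => ?_)
        (continuousOn_finset_sum _ fun j _ => ?_)
      · exact ContinuousOn.div continuousOn_const (by fun_prop) fun z hz => (hne z hz).1 i
      · exact ContinuousOn.div continuousOn_const (by fun_prop) fun z hz => (hne z hz).2 j
  rcases S.eq_empty_or_nonempty with hemp | hnonemp
  · refine ⟨1, one_pos, fun z h1 h2 h3 => ?_⟩
    have : z ∈ S := ⟨mem_closedBall_zero_iff.2 h1, Set.mem_iInter.2 h2, Set.mem_iInter.2 h3⟩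
    rw [hemp] at this
    exact this.elim
  · obtain ⟨z₀, hz₀, hmin⟩ := hcomp.exists_isMinOn hnonemp hcont
    refine ⟨max |lg lam α β z₀| ‖ld α β z₀‖, ?_, fun z h1 h2 h3 => ?_⟩
    · by_contra hcon
      push Not at hcon
      have h4 : |lg lam α β z₀| ≤ 0 := (le_max_left _ _).trans hcon
      have h5 : ‖ld α β z₀‖ ≤ 0 := (le_max_right _ _).trans hcon
      exact hcr z₀ (fun i => sub_ne_zero.1 ((hne z₀ hz₀).1 i))
        (fun j => sub_ne_zero.1 ((hne z₀ hz₀).2 j)) (abs_nonpos_iff.1 h4) (norm_le_zero_iff.1 h5)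
    · have : z ∈ S := ⟨mem_closedBall_zero_iff.2 h1, Set.mem_iInter.2 h2, Set.mem_iInter.2 h3⟩
      exact le_max_iff.1 (hmin this)

end Pool.Agent.U1.HD
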