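import Mathlib
import Pool.Agent.U1.HD.Pow2
import Pool.Agent.U1.HD.MainL

/-! Rational maps whose zeros and poles are close to those of a power of a fixed map:
the main theorem. -/

set_option autoImplicit false

open Polynomial Finset Metric Filter Topology MeasureTheory

namespace Pool.Agent.U1.HD

theorem small_ev (k : ℝ) {c : ℝ} (hc : 0 < c) : ∀ᶠ s in 𝓝[>] (0 : ℝ), k * s ≤ c := by
  have h1 : Tendsto (fun s : ℝ => k * s) (𝓝 0) (𝓝 0) := by
    have h0 : Continuous fun s : ℝ => k * s := by fun_prop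
    have h1 := h0.tendsto 0
    rwa [mul_zero] at h1
  exact (h1.mono_left nhdsWithin_le_nhds).eventually (ge_mem_nhds hc)

theorem const_le {d e m : ℕ} {lam μ : ℂ} {α : Fin d → ℂ} {β : Fin e → ℂ} {a : Fin d × Fin m → ℂ}
    {b : Fin e × Fin m → ℂ} {η : ℝ} (hlam : lam ≠ 0) (hη : η ≤ 1)
    (h : Close η lam α β m μ a b) :
    ‖μ‖ ≤ (Real.exp 1 * ‖lam‖) ^ m ∧ (Real.exp (-1) * ‖lam‖) ^ m ≤ ‖μ‖ := by
  have h0 : 0 < ‖μ‖ := norm_pos_iff.2 h.ne
  have h1 : 0 < ‖lam‖ := norm_pos_iff.2 hlam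
  have hm : (0 : ℝ) ≤ m := Nat.cast_nonneg m
  obtain ⟨h2, h3⟩ := abs_le.1 h.const
  have e1 : (Real.exp 1 * ‖lam‖) ^ m = Real.exp (m * (1 + Real.log ‖lam‖)) := by
    rw [Real.exp_nat_mul, Real.exp_add, Real.exp_log h1]
  have e2 : (Real.exp (-1) * ‖lam‖) ^ m = Real.exp (m * (-1 + Real.log ‖lam‖)) := by
    rw [Real.exp_nat_mul, Real.exp_add, Real.exp_log h1]
  have h4 : η * m ≤ 1 * m := mul_le_mul_of_nonneg_right hη hm
  constructor
  · rw [e1, ← Real.log_le_iff_le_exp h0]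
    linarith
  · rw [e2, ← Real.le_log_iff_exp_le h0]
    linarith

/-- near the centres -/
theorem near {d e : ℕ} {lam : ℂ} (hlam : lam ≠ 0) (α : Fin d → ℂ) (β : Fin e → ℂ)
    (hαβ : ∀ i j, α i ≠ β j) : ∃ s : ℝ, 0 < s ∧ s ≤ 1 ∧ (∀ i j, 4 * s ≤ ‖α i - β j‖) ∧
      ∀ (m : ℕ) (μ : ℂ) (a : Fin d × Fin m → ℂ) (b : Fin e × Fin m → ℂ) (η : ℝ), η ≤ s / 2 →
        Close η lam α β m μ a b → ∀ z : ℂ, ((∃ i, ‖z - α i‖ ≤ s) ∨ ∃ j, ‖z - β j‖ ≤ s) →
          Far m ‖(pp μ a).eval z‖ ‖(pp 1 b).eval z‖ := by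
  obtain ⟨M, hM, hα, hβ⟩ : ∃ M : ℝ, 1 ≤ M ∧ (∀ i, ‖α i‖ ≤ M) ∧ ∀ j, ‖β j‖ ≤ M := by
    refine ⟨1 + ∑ i, ‖α i‖ + ∑ j, ‖β j‖, ?_, fun i => ?_, fun j => ?_⟩
    · have h1 : 0 ≤ ∑ i, ‖α i‖ := Finset.sum_nonneg fun _ _ => norm_nonneg _
      have h2 : 0 ≤ ∑ i, ‖β i‖ := Finset.sum_nonneg fun _ _ => norm_nonneg _
      linarith
    · have h1 := Finset.single_le_sum (f := fun i => ‖α i‖) (fun _ _ => norm_nonneg _)
        (Finset.mem_univ i)
      have h2 : 0 ≤ ∑ i, ‖β i‖ := Finset.sum_nonneg fun _ _ => norm_nonneg _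
      linarith
    · have h1 := Finset.single_le_sum (f := fun i => ‖β i‖) (fun _ _ => norm_nonneg _)
        (Finset.mem_univ j)
      have h2 : 0 ≤ ∑ i, ‖α i‖ := Finset.sum_nonneg fun _ _ => norm_nonneg _
      linarith
  obtain ⟨D, hD0, hD⟩ : ∃ D : ℝ, 0 < D ∧ ∀ i j, 2 * D ≤ ‖α i - β j‖ := by
    have h1 : ∀ᶠ D in 𝓝[>] (0 : ℝ), ∀ i j, 2 * D ≤ ‖α i - β j‖ :=
      eventually_all.2 fun i => eventually_all.2 fun j =>
        small_ev 2 (norm_pos_iff.2 (sub_ne_zero.2 (hαβ i j)))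
    obtain ⟨D, h2, h3⟩ := (h1.and self_mem_nhdsWithin).exists
    exact ⟨D, h3, h2⟩
  have hlam0 : 0 < ‖lam‖ := norm_pos_iff.2 hlam
  set T : ℝ := 2 * M + 2 with hT
  obtain ⟨s, ⟨h1, h2, h3, h4⟩, hs0⟩ := (((small_ev 1 one_pos).and ((small_ev 2 hD0).and
    ((small_ev (Real.exp 1 * (Real.exp 1 * ‖lam‖ * (2 * T ^ d))) (by positivity : 0 < D ^ e)).and
    (small_ev (Real.exp 1 * (2 * T ^ e))
      (by positivity : 0 < Real.exp (-1) * ‖lam‖ * D ^ d))))).and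
    self_mem_nhdsWithin).exists
  have hs0 : 0 < s := hs0
  rw [one_mul] at h1
  refine ⟨s, hs0, h1, fun i j => by linarith [hD i j], ?_⟩
  intro m μ a b η hη h z hz
  have hη0 : η ≤ 1 := by linarith
  obtain ⟨hμ1, hμ2⟩ := const_le hlam hη0 h
  have hTa : ‖z‖ ≤ M + 1 → (∀ x, ‖z - a x‖ ≤ T) ∧ ∀ x, ‖z - b x‖ ≤ T := by
    intro hz1
    constructor
    · intro x
      have e1 : z - a x = z - α x.1 - (a x - α x.1) := by ring
      rw [e1]
      refine (norm_sub_le _ _).trans ?_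
      have := norm_sub_le z (α x.1)
      have := h.zeros x
      have := hα x.1
      linarith
    · intro x
      have e1 : z - b x = z - β x.1 - (b x - β x.1) := by ring
      rw [e1]
      refine (norm_sub_le _ _).trans ?_
      have := norm_sub_le z (β x.1)
      have := h.poles x
      have := hβ x.1
      linarith
  rcases hz with ⟨i, hi⟩ | ⟨j, hj⟩
  · have hz1 : ‖z‖ ≤ M + 1 := by
      have := norm_add_le (z - α i) (α i)
      rw [sub_add_cancel] at this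
      linarith [hα i]
    obtain ⟨hT1, hT2⟩ := hTa hz1
    left
    rw [← Real.exp_one_pow]
    refine near_prod (C₁ := Real.exp 1 * ‖lam‖) (C₂ := 1) (s := 2 * s) (T := T) (D := D)
      (i₀ := i) (by positivity) hμ1 (by simp) (by positivity) (by linarith) hD0.le ?_ hT1 ?_ ?_
    · intro k
      have e1 : z - a (i, k) = z - α i - (a (i, k) - α i) := by ring
      rw [e1]
      refine (norm_sub_le _ _).trans ?_
      have := h.zeros (i, k)
      simp only at this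
      linarith
    · intro x
      have e1 : α i - β x.1 = (z - b x) + (b x - β x.1) - (z - α i) := by ring
      have e2 := hD i x.1
      rw [e1] at e2
      have e3 := norm_sub_le ((z - b x) + (b x - β x.1)) (z - α i)
      have e4 := norm_add_le (z - b x) (b x - β x.1)
      have := h.poles x
      linarith
    · calc Real.exp 1 * (Real.exp 1 * ‖lam‖ * (2 * s * T ^ d)) =
          Real.exp 1 * (Real.exp 1 * ‖lam‖ * (2 * T ^ d)) * s := by ring
        _ ≤ _ := by rw [one_mul]; exact h3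
  · have hz1 : ‖z‖ ≤ M + 1 := by
      have := norm_add_le (z - β j) (β j)
      rw [sub_add_cancel] at this
      linarith [hβ j]
    obtain ⟨hT1, hT2⟩ := hTa hz1
    right
    rw [← Real.exp_one_pow]
    refine near_prod (C₁ := 1) (C₂ := Real.exp (-1) * ‖lam‖) (s := 2 * s) (T := T) (D := D)
      (i₀ := j) (by positivity) (by simp) hμ2 (by positivity) (by linarith) hD0.le ?_ hT2 ?_ ?_
    · intro k
      have e1 : z - b (j, k) = z - β j - (b (j, k) - β j) := by ring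
      rw [e1]
      refine (norm_sub_le _ _).trans ?_
      have := h.poles (j, k)
      simp only at this
      linarith
    · intro x
      have e1 : α x.1 - β j = (z - β j) - ((z - a x) + (a x - α x.1)) := by ring
      have e2 := hD x.1 j
      rw [e1] at e2
      have e3 := norm_sub_le (z - β j) ((z - a x) + (a x - α x.1))
      have e4 := norm_add_le (z - a x) (a x - α x.1)
      have := h.zeros x
      linarith
    · calc Real.exp 1 * (1 * (2 * s * T ^ e)) = Real.exp 1 * (2 * T ^ e) * s := by ring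
        _ ≤ _ := h4

/-- the dichotomy at all points of the plane -/
theorem dich {d e : ℕ} {lam : ℂ} (hlam : lam ≠ 0) (hinf : d = e → Real.log ‖lam‖ ≠ 0)
    (α : Fin d → ℂ) (β : Fin e → ℂ) (hαβ : ∀ i j, α i ≠ β j)
    (hcr : ∀ z : ℂ, (∀ i, z ≠ α i) → (∀ j, z ≠ β j) → lg lam α β z = 0 → ld α β z ≠ 0) :
    ∃ c : ℝ, 0 < c ∧ (d = e → 2 * c ≤ |Real.log ‖lam‖|) ∧ ∃ s : ℝ, 0 < s ∧
      (∀ i j, 4 * s ≤ ‖α i - β j‖) ∧ ∃ η : ℝ, 0 < η ∧ η ≤ s / 2 ∧ η ≤ c ∧
      ∀ (m : ℕ) (μ : ℂ) (a : Fin d × Fin m → ℂ) (b : Fin e × Fin m → ℂ),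
        Close η lam α β m μ a b →
          (∀ z : ℂ, ((∃ i, ‖z - α i‖ ≤ s) ∨ ∃ j, ‖z - β j‖ ≤ s) →
            Far (c * m) ‖(pp μ a).eval z‖ ‖(pp 1 b).eval z‖) ∧
          ∀ z : ℂ, Far (c * m) ‖(pp μ a).eval z‖ ‖(pp 1 b).eval z‖ ∨
            c * m ≤ ‖logDer (pp μ a) (pp 1 b) z‖ := by
  obtain ⟨κ, hκ, R, hR⟩ := large hinf α β
  obtain ⟨s, hs0, hs1, hs2, hs3⟩ := near hlam α β hαβ
  obtain ⟨c₀, hc₀, hmid⟩ := middle lam α β R hs0 hcr
  obtain ⟨c₁, hc₁, hc₁'⟩ : ∃ c₁ : ℝ, 0 < c₁ ∧ (d = e → 2 * c₁ ≤ |Real.log ‖lam‖|) := by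
    by_cases hde : d = e
    · exact ⟨|Real.log ‖lam‖| / 2, half_pos (abs_pos.2 (hinf hde)), fun _ => by linarith⟩
    · exact ⟨1, one_pos, fun h => absurd h hde⟩
  set c : ℝ := min (min 1 c₁) (min (c₀ / 2) (κ / 2)) with hc
  have hc0 : 0 < c := by positivity
  have hc1 : c ≤ 1 := (min_le_left _ _).trans (min_le_left _ _)
  have hc2 : c ≤ c₁ := (min_le_left _ _).trans (min_le_right _ _)
  have hc3 : c ≤ c₀ / 2 := (min_le_right _ _).trans (min_le_left _ _)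
  have hc4 : c ≤ κ / 2 := (min_le_right _ _).trans (min_le_right _ _)
  obtain ⟨η, ⟨h1, h2, h3, h4⟩, hη0⟩ := (((small_ev 1 (half_pos hs0)).and ((small_ev 1 hc0).and
    ((small_ev (1 + (d + e) * (2 / s)) hc0).and (small_ev ((d + e) * (2 / s ^ 2)) hc0)))).and
    self_mem_nhdsWithin).exists
  have hη0 : 0 < η := hη0
  rw [one_mul] at h1 h2
  refine ⟨c, hc0, fun h => by linarith [hc₁' h], s, hs0, hs2, η, hη0, h1, h2, ?_⟩
  intro m μ a b h
  have hm : (0 : ℝ) ≤ m := Nat.cast_nonneg m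
  have hnear : ∀ z : ℂ, ((∃ i, ‖z - α i‖ ≤ s) ∨ ∃ j, ‖z - β j‖ ≤ s) →
      Far (c * m) ‖(pp μ a).eval z‖ ‖(pp 1 b).eval z‖ := fun z hz =>
    (hs3 m μ a b η h1 h z hz).mono (norm_nonneg _) (norm_nonneg _) (by nlinarith)
  refine ⟨hnear, fun z => ?_⟩
  by_cases hz : (∃ i, ‖z - α i‖ ≤ s) ∨ ∃ j, ‖z - β j‖ ≤ s
  · exact Or.inl (hnear z hz)
  push Not at hz
  have hzα := fun i => (hz.1 i).le
  have hzβ := fun j => (hz.2 j).le
  obtain ⟨hP, hQ, e1, e2⟩ := away hs0 h1 h hzα hzβ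
  have e1' : |Real.log (‖(pp μ a).eval z‖ / ‖(pp 1 b).eval z‖) - m * lg lam α β z| ≤ m * c := by
    refine e1.trans (mul_le_mul_of_nonneg_left ?_ hm)
    linarith
  have e2' : ‖logDer (pp μ a) (pp 1 b) z - m * ld α β z‖ ≤ m * c := by
    refine e2.trans (mul_le_mul_of_nonneg_left ?_ hm)
    linarith
  have key : 2 * c ≤ |lg lam α β z| ∨ 2 * c ≤ ‖ld α β z‖ := by
    by_cases hzR : ‖z‖ ≤ R
    · exact (hmid z hzR hzα hzβ).imp (fun h => by linarith) fun h => by linarith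
    · push Not at hzR
      exact Or.inl (by linarith [hR z hzR.le])
  rcases key with key | key
  · left
    refine Far.of_log (norm_pos_iff.2 hP) (norm_pos_iff.2 hQ) ?_
    have e3 : |m * lg lam α β z| ≤ |Real.log (‖(pp μ a).eval z‖ / ‖(pp 1 b).eval z‖)| +
        |Real.log (‖(pp μ a).eval z‖ / ‖(pp 1 b).eval z‖) - m * lg lam α β z| := by
      have := abs_sub (Real.log (‖(pp μ a).eval z‖ / ‖(pp 1 b).eval z‖))
        (Real.log (‖(pp μ a).eval z‖ / ‖(pp 1 b).eval z‖) - m * lg lam α β z)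
      rwa [sub_sub_cancel] at this
    rw [abs_mul, abs_of_nonneg hm] at e3
    have e4 : (m : ℝ) * (2 * c) ≤ m * |lg lam α β z| := mul_le_mul_of_nonneg_left key hm
    linarith
  · right
    have e3 : ‖(m : ℂ) * ld α β z‖ ≤ ‖logDer (pp μ a) (pp 1 b) z‖ +
        ‖logDer (pp μ a) (pp 1 b) z - m * ld α β z‖ := by
      have := norm_sub_le (logDer (pp μ a) (pp 1 b) z)
        (logDer (pp μ a) (pp 1 b) z - m * ld α β z)
      rwa [sub_sub_cancel] at this
    rw [norm_mul, Complex.norm_natCast] at e3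
    have e4 : (m : ℝ) * (2 * c) ≤ m * ‖ld α β z‖ := mul_le_mul_of_nonneg_left key hm
    linarith

/-- transversality of the maps close to powers -/
theorem loc_pow {d e : ℕ} (hde : 1 ≤ max d e) {lam : ℂ} (hlam : lam ≠ 0)
    (hinf : d = e → Real.log ‖lam‖ ≠ 0)
    (α : Fin d → ℂ) (β : Fin e → ℂ) (hαβ : ∀ i j, α i ≠ β j)
    (hcr : ∀ z : ℂ, (∀ i, z ≠ α i) → (∀ j, z ≠ β j) → lg lam α β z = 0 → ld α β z ≠ 0) :
    ∃ δ ε η : ℝ, 0 < δ ∧ 0 < ε ∧ 0 < η ∧ ∀ m : ℕ, 1 ≤ m → ∀ (μ : ℂ) (a : Fin d × Fin m → ℂ)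
      (b : Fin e × Fin m → ℂ), Close η lam α β m μ a b →
        (∀ X, Loc δ ε X (max d e * m) (pp μ a) (pp 1 b)) ∧
        (∀ z : ℂ, (pp 1 b).eval z ≠ 0 →
          (derivative (pp μ a) * (pp 1 b) - (pp μ a) * derivative (pp 1 b)).eval z = 0 →
            Far (δ * (max d e * m : ℕ)) ‖(pp μ a).eval z‖ ‖(pp 1 b).eval z‖) ∧
        Far (δ * (max d e * m : ℕ)) ‖(pp μ a).coeff (max d e * m)‖
          ‖(pp 1 b).coeff (max d e * m)‖ := by
  obtain ⟨c, hc0, hc1, s, hs0, hs1, η, hη0, hη1, hη2, hall⟩ := dich hlam hinf α β hαβ hcr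
  have hM0 : (0 : ℝ) < (max d e : ℕ) := by exact_mod_cast hde
  refine ⟨c / (max d e : ℕ), s / 2, η, by positivity, by positivity, hη0, ?_⟩
  intro m hm μ a b h
  obtain ⟨hnear, hdich⟩ := hall m μ a b h
  have hm0 : (0 : ℝ) < m := by exact_mod_cast hm
  have hcm : c / (max d e : ℕ) * (max d e * m : ℕ) = c * m := by
    rw [Nat.cast_mul]
    field_simp
  rw [hcm]
  have hnearP : ∀ z y : ℂ, (pp μ a).eval y = 0 ∨ (pp 1 b).eval y = 0 → ‖z - y‖ < s / 2 →
      Far (c * m) ‖(pp μ a).eval z‖ ‖(pp 1 b).eval z‖ := by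
    intro z y hy hzy
    refine hnear z ?_
    rcases hy with hy | hy
    · left
      obtain ⟨x, rfl⟩ := (pp_root h.ne).1 hy
      refine ⟨x.1, ?_⟩
      have e1 := norm_add_le (z - a x) (a x - α x.1)
      rw [sub_add_sub_cancel] at e1
      linarith [h.zeros x]
    · right
      obtain ⟨x, rfl⟩ := (pp_root one_ne_zero).1 hy
      refine ⟨x.1, ?_⟩
      have e1 := norm_add_le (z - b x) (b x - β x.1)
      rw [sub_add_sub_cancel] at e1
      linarith [h.poles x]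
  have hdP : (pp μ a).natDegree = d * m := by
    rw [pp_natDegree h.ne, Fintype.card_prod, Fintype.card_fin, Fintype.card_fin]
  have hdQ : (pp 1 b).natDegree = e * m := by
    rw [pp_natDegree one_ne_zero, Fintype.card_prod, Fintype.card_fin, Fintype.card_fin]
  have hcP : (pp μ a).coeff (d * m) = μ := by
    have e1 := pp_coeff (μ := μ) (a := a)
    rwa [Fintype.card_prod, Fintype.card_fin, Fintype.card_fin] at e1
  have hcQ : (pp 1 b).coeff (e * m) = 1 := by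
    have e1 := pp_coeff (μ := 1) (a := b)
    rwa [Fintype.card_prod, Fintype.card_fin, Fintype.card_fin] at e1
  refine ⟨fun X => ⟨?_, ?_, ?_, ?_⟩, ?_, ?_⟩
  · rw [isCoprime_iff_aeval_ne_zero_of_isAlgClosed ℂ ℂ]
    intro z
    rw [coe_aeval_eq_eval]
    by_contra hcon
    push Not at hcon
    obtain ⟨h1, h2⟩ := hcon
    obtain ⟨x, hx⟩ := (pp_root h.ne).1 h1
    obtain ⟨y, hy⟩ := (pp_root one_ne_zero).1 h2
    have e1 : α x.1 - β y.1 = (b y - β y.1) - (a x - α x.1) := by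
      rw [← hx, ← hy]
      ring
    have e2 := hs1 x.1 y.1
    rw [e1] at e2
    have e3 := norm_sub_le (b y - β y.1) (a x - α x.1)
    linarith [h.zeros x, h.poles y]
  · rw [hdP, hdQ]
    rcases le_total d e with h1 | h1
    · rw [max_eq_right h1, max_eq_right (Nat.mul_le_mul_right m h1)]
    · rw [max_eq_left h1, max_eq_left (Nat.mul_le_mul_right m h1)]
  · intro z _
    rw [hcm]
    exact hdich z
  · intro z y hy hzy
    rw [hcm]
    exact hnearP z y hy hzy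
  · intro z hz1 hz2
    by_cases hz3 : (pp μ a).eval z = 0
    · exact hnearP z z (Or.inl hz3) (by simp [hs0])
    · rcases hdich z with h1 | h1
      · exact h1
      · exfalso
        have e1 : logDer (pp μ a) (pp 1 b) z = 0 := by
          unfold logDer
          rw [eval_sub, eval_mul, eval_mul] at hz2
          rw [div_sub_div _ _ hz3 hz1, div_eq_zero_iff]
          left
          linear_combination hz2
        rw [e1, norm_zero] at h1
        nlinarith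
  · rcases lt_trichotomy e d with hlt | heq | hlt
    · right
      rw [max_eq_left hlt.le, hcP, coeff_eq_zero_of_natDegree_lt (p := pp 1 b)
        (by rw [hdQ]; exact Nat.mul_lt_mul_of_pos_right hlt hm), norm_zero, mul_zero]
      exact norm_nonneg _
    · subst heq
      rw [max_self, hcP, hcQ, norm_one]
      refine Far.of_log (norm_pos_iff.2 h.ne) one_pos ?_
      rw [div_one]
      have h1 := hc1 rfl
      have h2 : |m * Real.log ‖lam‖| ≤ |Real.log ‖μ‖| + |Real.log ‖μ‖ - m * Real.log ‖lam‖| := by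
        have := abs_sub (Real.log ‖μ‖) (Real.log ‖μ‖ - m * Real.log ‖lam‖)
        rwa [sub_sub_cancel] at this
      rw [abs_mul, abs_of_nonneg hm0.le] at h2
      have h3 := h.const
      have h4 : (m : ℝ) * (2 * c) ≤ m * |Real.log ‖lam‖| := mul_le_mul_of_nonneg_left h1 hm0.le
      have h5 : η * m ≤ c * m := mul_le_mul_of_nonneg_right hη2 hm0.le
      linarith
    · left
      rw [max_eq_right hlt.le, hcQ, coeff_eq_zero_of_natDegree_lt (p := pp μ a)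
        (by rw [hdP]; exact Nat.mul_lt_mul_of_pos_right hlt hm), norm_zero, mul_zero]
      exact norm_nonneg _

/-- **Maps close to powers.** -/
theorem powers {d e : ℕ} (hde : 1 ≤ max d e) {lam : ℂ} (hlam : lam ≠ 0)
    (hinf : d = e → Real.log ‖lam‖ ≠ 0)
    (α : Fin d → ℂ) (β : Fin e → ℂ) (hαβ : ∀ i j, α i ≠ β j)
    (hcr : ∀ z : ℂ, (∀ i, z ≠ α i) → (∀ j, z ≠ β j) → lg lam α β z = 0 → ld α β z ≠ 0)
    {L : ℝ} (hL : 0 ≤ L) :
    ∃ η K : ℝ, 0 < η ∧ 0 < K ∧ ∃ m₀ : ℕ, ∀ m : ℕ, m₀ ≤ m → ∀ (μ : ℂ) (a : Fin d × Fin m → ℂ)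
      (b : Fin e × Fin m → ℂ), Close η lam α β m μ a b →
        IsCoprime (pp μ a) (pp 1 b) ∧
        max (pp μ a).natDegree (pp 1 b).natDegree = max d e * m ∧
        volume {x : ℂ × ℂ | ‖x.1‖ ≤ L ∧ ‖x.2‖ ≤ L ∧ x.1 ≠ x.2 ∧
          ¬ HypP (C x.2 * pp μ a + C x.1 * pp 1 b) (pp μ a + pp 1 b)} ≤
            ENNReal.ofReal (K * (Real.log (max d e * m : ℕ) / (max d e * m : ℕ))) ∧
        ∀ v w : ℂ, ‖v‖ ≤ L → ‖w‖ ≤ L → v ≠ w → ∃ v' w' : ℂ, v' ≠ w' ∧
          ‖v' - v‖ ≤ K * (Real.log (max d e * m : ℕ) / (max d e * m : ℕ)) ∧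
          ‖w' - w‖ ≤ K * (Real.log (max d e * m : ℕ) / (max d e * m : ℕ)) ∧
          HypP (C w' * pp μ a + C v' * pp 1 b) (pp μ a + pp 1 b) := by
  obtain ⟨δ, ε, η, hδ, hε, hη, hloc⟩ := loc_pow hde hlam hinf α β hαβ hcr
  obtain ⟨K, hK, N₀, hN⟩ := mainL hδ hε hL
  refine ⟨η, K, hη, hK, max N₀ 1, fun m hm μ a b h => ?_⟩
  have hm1 : 1 ≤ m := (le_max_right _ _).trans hm
  have hm2 : N₀ ≤ m := (le_max_left _ _).trans hm
  obtain ⟨h1, h2, h3⟩ := hloc m hm1 μ a b h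
  have hN' : N₀ ≤ max d e * m := hm2.trans (Nat.le_mul_of_pos_left m hde)
  obtain ⟨h4, h5⟩ := hN _ hN' (pp μ a) (pp 1 b) (h1 (L + 1)) h2 h3
  exact ⟨(h1 0).coprime, (h1 0).degree, h4, h5⟩

end Pool.Agent.U1.HD
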